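import Mathlib

set_option autoImplicit false

namespace Pool.Agent.H450R3.Ext

/-- order-isomorphism of the two adjacent blocks of length `ℓ` starting at `i` -/
def Sq (g : ℕ → ℚ) (i ℓ : ℕ) : Prop :=
  ∀ a < ℓ, ∀ b < ℓ, (g (i + a) < g (i + b) ↔ g (i + ℓ + a) < g (i + ℓ + b))

/-- the self-similar infinite square-free sequence -/
def f (n : ℕ) : ℚ :=
  if h : n % 2 = 1 then f (n / 2) / 4
  else if n % 4 = 0 then -1 - 1 / ((n : ℚ) + 2)
  else 1 + 1 / ((n : ℚ) + 2)
termination_by n
decreasing_by omega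

lemma f_odd (n : ℕ) : f (2 * n + 1) = f n / 4 := by
  rw [f]
  have h : (2 * n + 1) % 2 = 1 := by omega
  have h2 : (2 * n + 1) / 2 = n := by omega
  simp [h, h2]

lemma f_min {n : ℕ} (h : n % 4 = 0) : f n = -1 - 1 / ((n : ℚ) + 2) := by
  rw [f]
  have h1 : ¬ n % 2 = 1 := by omega
  simp [h1, h]

lemma f_max {n : ℕ} (h : n % 4 = 2) : f n = 1 + 1 / ((n : ℚ) + 2) := by
  rw [f]
  have h1 : ¬ n % 2 = 1 := by omega
  have h2 : ¬ n % 4 = 0 := by omega
  simp [h1, h2]

lemma inv_bd (n : ℕ) : 0 < 1 / ((n : ℚ) + 2) ∧ 1 / ((n : ℚ) + 2) ≤ 1 / 2 := by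
  constructor
  · positivity
  · apply one_div_le_one_div_of_le (by norm_num)
    have : (0 : ℚ) ≤ n := Nat.cast_nonneg n
    linarith

lemma f_bd (n : ℕ) : -(3 / 2) ≤ f n ∧ f n ≤ 3 / 2 := by
  induction n using Nat.strong_induction_on with
  | _ n ih =>
    rcases Nat.even_or_odd' n with ⟨k, hk | hk⟩
    · have := inv_bd n
      by_cases h : n % 4 = 0
      · rw [f_min h]; constructor <;> linarith [this.1, this.2]
      · rw [f_max (by omega)]; constructor <;> linarith [this.1, this.2]
    · have := ih k (by omega)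
      rw [hk, f_odd]; constructor <;> linarith [this.1, this.2]

lemma f_odd_bd {n : ℕ} (h : n % 2 = 1) : -(3 / 8) ≤ f n ∧ f n ≤ 3 / 8 := by
  obtain ⟨k, hk⟩ : ∃ k, n = 2 * k + 1 := ⟨n / 2, by omega⟩
  rw [hk, f_odd]
  have := f_bd k
  constructor <;> linarith [this.1, this.2]

lemma f_min_bd {n : ℕ} (h : n % 4 = 0) : -(3 / 2) ≤ f n ∧ f n < -1 := by
  rw [f_min h]; have := inv_bd n; constructor <;> linarith [this.1, this.2]

lemma f_max_bd {n : ℕ} (h : n % 4 = 2) : 1 < f n ∧ f n ≤ 3 / 2 := by
  rw [f_max h]; have := inv_bd n; constructor <;> linarith [this.1, this.2]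

lemma f_inj : ∀ m n : ℕ, f m = f n → m = n := by
  intro m
  induction m using Nat.strong_induction_on with
  | _ m ih =>
    intro n hmn
    by_cases hm : m % 2 = 1
    · by_cases hn : n % 2 = 1
      · obtain ⟨k, hk⟩ : ∃ k, m = 2 * k + 1 := ⟨m / 2, by omega⟩
        obtain ⟨l, hl⟩ : ∃ l, n = 2 * l + 1 := ⟨n / 2, by omega⟩
        rw [hk, hl, f_odd, f_odd] at hmn
        have := ih k (by omega) l (by linarith)
        omega
      · exfalso
        have h1 := f_odd_bd hm
        by_cases h : n % 4 = 0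
        · have h2 := f_min_bd h; linarith [h1.1, h2.2]
        · have h2 := f_max_bd (n := n) (by omega); linarith [h1.2, h2.1]
    · have key : ∀ a b : ℕ, 1 / ((a : ℚ) + 2) = 1 / ((b : ℚ) + 2) → a = b := by
        intro a b hab
        have ha : (0 : ℚ) < (a : ℚ) + 2 := by positivity
        have hb : (0 : ℚ) < (b : ℚ) + 2 := by positivity
        rw [div_eq_div_iff ha.ne' hb.ne'] at hab
        have : (a : ℚ) = b := by linarith
        exact_mod_cast this
      by_cases hn : n % 2 = 1
      · exfalso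
        have h1 := f_odd_bd hn
        by_cases h : m % 4 = 0
        · have h2 := f_min_bd h; linarith [h1.1, h2.2]
        · have h2 := f_max_bd (n := m) (by omega); linarith [h1.2, h2.1]
      · by_cases h : m % 4 = 0 <;> by_cases h' : n % 4 = 0
        · rw [f_min h, f_min h'] at hmn; exact key m n (by linarith)
        · exfalso
          have h1 := f_min_bd h; have h2 := f_max_bd (n := n) (by omega); linarith [h1.2, h2.1]
        · exfalso
          have h1 := f_min_bd h'; have h2 := f_max_bd (n := m) (by omega); linarith [h1.2, h2.1]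
        · rw [f_max (n := m) (by omega), f_max (n := n) (by omega)] at hmn
          exact key m n (by linarith)

lemma f_dir (i : ℕ) : (f i < f (i + 1)) ↔ (i % 4 = 0 ∨ i % 4 = 1) := by
  have h4 : i % 4 = 0 ∨ i % 4 = 1 ∨ i % 4 = 2 ∨ i % 4 = 3 := by omega
  rcases h4 with h | h | h | h
  · have h1 := f_min_bd h
    have h2 := f_odd_bd (n := i + 1) (by omega)
    constructor
    · intro _; left; exact h
    · intro _; linarith [h1.2, h2.1]
  · have h1 := f_odd_bd (n := i) (by omega)
    have h2 := f_max_bd (n := i + 1) (by omega)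
    constructor
    · intro _; right; exact h
    · intro _; linarith [h1.2, h2.1]
  · have h1 := f_max_bd h
    have h2 := f_odd_bd (n := i + 1) (by omega)
    constructor
    · intro h3; exfalso; linarith [h1.1, h2.2]
    · intro _; omega
  · have h1 := f_odd_bd (n := i) (by omega)
    have h2 := f_min_bd (n := i + 1) (by omega)
    constructor
    · intro h3; exfalso; linarith [h1.1, h2.2]
    · intro _; omega

/-- iterate the shape condition -/
lemma shape_iter (g : ℕ → ℚ) (lo hi : ℕ)
    (hs : ∀ i, lo ≤ i → i + 3 < hi → ((g i < g (i + 1)) ↔ ¬ (g (i + 2) < g (i + 3))))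
    (i : ℕ) (hi1 : lo ≤ i) (k : ℕ) (hk : i + 2 * k + 1 < hi) :
    ((g (i + 2 * k) < g (i + 2 * k + 1)) ↔ (if k % 2 = 0 then g i < g (i + 1) else ¬ (g i < g (i + 1)))) := by
  induction k with
  | zero => simp
  | succ k ih =>
    have ih' := ih (by omega)
    have h1 := hs (i + 2 * k) (by omega) (by omega)
    have e1 : i + 2 * (k + 1) = i + 2 * k + 2 := by ring
    have e2 : i + 2 * (k + 1) + 1 = i + 2 * k + 3 := by ring
    rw [e2, e1]
    by_cases hk2 : k % 2 = 0
    · have hk3 : ¬ (k + 1) % 2 = 0 := by omega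
      rw [if_pos hk2] at ih'
      rw [if_neg hk3]
      tauto
    · have hk3 : (k + 1) % 2 = 0 := by omega
      rw [if_neg hk2] at ih'
      rw [if_pos hk3]
      tauto

/-- in a sequence of the right shape every square has length divisible by four -/
lemma four_dvd (g : ℕ → ℚ) (lo hi : ℕ)
    (hs : ∀ i, lo ≤ i → i + 3 < hi → ((g i < g (i + 1)) ↔ ¬ (g (i + 2) < g (i + 3))))
    (i ℓ : ℕ) (h2 : 2 ≤ ℓ) (hlo : lo ≤ i) (hhi : i + 2 * ℓ ≤ hi) (hsq : Sq g i ℓ) : 4 ∣ ℓ := by
  have d0 := hsq 0 (by omega) 1 (by omega)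
  simp only [add_zero] at d0
  rcases Nat.even_or_odd' ℓ with ⟨q, hq | hq⟩
  · by_cases hq2 : q % 2 = 0
    · omega
    · exfalso
      have h1 := shape_iter g lo hi hs i hlo q (by omega)
      rw [if_neg hq2] at h1
      have e1 : i + ℓ = i + 2 * q := by omega
      rw [e1] at d0
      tauto
  · exfalso
    have d1 := hsq 1 (by omega) 2 (by omega)
    have h1 := shape_iter g lo hi hs (i + 1) (by omega) q (by omega)
    have h2 := shape_iter g lo hi hs i (by omega) (q + 1) (by omega)
    have e1 : i + ℓ = i + 1 + 2 * q := by omega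
    have e2 : i + ℓ + 1 = i + 1 + 2 * q + 1 := by omega
    have e3 : i + ℓ + 1 = i + 2 * (q + 1) := by omega
    have e4 : i + ℓ + 2 = i + 2 * (q + 1) + 1 := by omega
    rw [e3, e4] at d1
    rw [e2, e1] at d0
    by_cases hq2 : q % 2 = 0
    · rw [if_pos hq2] at h1
      rw [if_neg (by omega)] at h2
      have e5 : i + 1 + 1 = i + 2 := by ring
      rw [e5] at h1
      tauto
    · rw [if_neg hq2] at h1
      rw [if_pos (by omega)] at h2
      have e5 : i + 1 + 1 = i + 2 := by ring
      rw [e5] at h1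
      tauto

/-- a square of length `4m` gives a square of length `2m` of the even-indexed subsequence -/
lemma sq_even (g : ℕ → ℚ) (i m : ℕ) (hsq : Sq g i (4 * m)) :
    Sq (fun j => g (2 * j)) ((i + 1) / 2) (2 * m) := by
  intro a ha b hb
  rcases Nat.even_or_odd' i with ⟨q, hq | hq⟩
  · have h := hsq (2 * a) (by omega) (2 * b) (by omega)
    have e : (i + 1) / 2 = q := by omega
    simp only [e]
    have e1 : 2 * (q + a) = i + 2 * a := by omega
    have e2 : 2 * (q + b) = i + 2 * b := by omega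
    have e3 : 2 * (q + 2 * m + a) = i + 4 * m + 2 * a := by omega
    have e4 : 2 * (q + 2 * m + b) = i + 4 * m + 2 * b := by omega
    rw [e1, e2, e3, e4]; exact h
  · have h := hsq (2 * a + 1) (by omega) (2 * b + 1) (by omega)
    have e : (i + 1) / 2 = q + 1 := by omega
    simp only [e]
    have e1 : 2 * (q + 1 + a) = i + (2 * a + 1) := by omega
    have e2 : 2 * (q + 1 + b) = i + (2 * b + 1) := by omega
    have e3 : 2 * (q + 1 + 2 * m + a) = i + 4 * m + (2 * a + 1) := by omega
    have e4 : 2 * (q + 1 + 2 * m + b) = i + 4 * m + (2 * b + 1) := by omega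
    rw [e1, e2, e3, e4]; exact h

/-- a square of length `4m` gives a square of length `2m` of the odd-indexed subsequence -/
lemma sq_odd (g : ℕ → ℚ) (i m : ℕ) (hsq : Sq g i (4 * m)) :
    Sq (fun j => g (2 * j + 1)) (i / 2) (2 * m) := by
  intro a ha b hb
  rcases Nat.even_or_odd' i with ⟨q, hq | hq⟩
  · have h := hsq (2 * a + 1) (by omega) (2 * b + 1) (by omega)
    have e : i / 2 = q := by omega
    simp only [e]
    have e1 : 2 * (q + a) + 1 = i + (2 * a + 1) := by omega
    have e2 : 2 * (q + b) + 1 = i + (2 * b + 1) := by omega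
    have e3 : 2 * (q + 2 * m + a) + 1 = i + 4 * m + (2 * a + 1) := by omega
    have e4 : 2 * (q + 2 * m + b) + 1 = i + 4 * m + (2 * b + 1) := by omega
    rw [e1, e2, e3, e4]; exact h
  · have h := hsq (2 * a) (by omega) (2 * b) (by omega)
    have e : i / 2 = q := by omega
    simp only [e]
    have e1 : 2 * (q + a) + 1 = i + 2 * a := by omega
    have e2 : 2 * (q + b) + 1 = i + 2 * b := by omega
    have e3 : 2 * (q + 2 * m + a) + 1 = i + 4 * m + 2 * a := by omega
    have e4 : 2 * (q + 2 * m + b) + 1 = i + 4 * m + 2 * b := by omega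
    rw [e1, e2, e3, e4]; exact h

lemma f_shape (i : ℕ) : ((f i < f (i + 1)) ↔ ¬ (f (i + 2) < f (i + 3))) := by
  have h1 := f_dir i
  have h2 := f_dir (i + 2)
  rw [h1, h2]; omega

/-- the sequence `f` has no squares -/
lemma f_nosq : ∀ ℓ, 2 ≤ ℓ → ∀ i, ¬ Sq f i ℓ := by
  intro ℓ
  induction ℓ using Nat.strong_induction_on with
  | _ ℓ ih =>
    intro hℓ i hsq
    have h4 := four_dvd f 0 (i + 2 * ℓ) (fun i _ _ => f_shape i) i ℓ hℓ (Nat.zero_le _) le_rfl hsq
    obtain ⟨m, rfl⟩ := h4
    have h1 := sq_odd f i m hsq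
    refine ih (2 * m) (by omega) (by omega) (i / 2) ?_
    intro a ha b hb
    have h2 := h1 a ha b hb
    simp only [f_odd] at h2
    constructor
    · intro h3
      have := h2.1 (by linarith)
      linarith
    · intro h3
      have := h2.2 (by linarith)
      linarith

/-- level lemma: the shape is violated exactly at the two ends -/
lemma level (g : ℕ → ℚ) (N : ℕ) (hN : N % 2 = 1)
    (hs : ∀ i, 1 ≤ i → i + 3 < N - 1 → ((g i < g (i + 1)) ↔ ¬ (g (i + 2) < g (i + 3))))
    (hL : (g 0 < g 1) ↔ (g 2 < g 3))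
    (hR : (g (N - 4) < g (N - 3)) ↔ (g (N - 2) < g (N - 1)))
    (i m : ℕ) (hm : 1 ≤ m) (hi : i + 4 * m ≤ N) (hsq : Sq g i (2 * m)) :
    (m = 1 ∧ i = 0) ∨ (m = 1 ∧ i + 4 = N) ∨ (1 ≤ i ∧ i + 4 * m ≤ N - 1 ∧ ∃ m', m = 2 * m') := by
  by_cases hi0 : i = 0
  · by_cases hm1 : m = 1
    · left; exact ⟨hm1, hi0⟩
    · exfalso
      subst hi0
      have d0 := hsq 0 (by omega) 1 (by omega)
      have d2 := hsq 2 (by omega) 3 (by omega)
      simp only [zero_add, add_zero] at d0 d2
      have h1 := hs (2 * m) (by omega) (by omega)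
      tauto
  · by_cases hiN : i + 4 * m = N
    · by_cases hm1 : m = 1
      · right; left; exact ⟨hm1, by omega⟩
      · exfalso
        have d0 := hsq (2 * m - 2) (by omega) (2 * m - 1) (by omega)
        have d2 := hsq (2 * m - 4) (by omega) (2 * m - 3) (by omega)
        have e1 : i + 2 * m + (2 * m - 2) = N - 2 := by omega
        have e2 : i + 2 * m + (2 * m - 1) = N - 1 := by omega
        have e3 : i + 2 * m + (2 * m - 4) = N - 4 := by omega
        have e4 : i + 2 * m + (2 * m - 3) = N - 3 := by omega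
        rw [e1, e2] at d0
        rw [e3, e4] at d2
        have h1 := hs (i + (2 * m - 4)) (by omega) (by omega)
        have e5 : i + (2 * m - 4) + 1 = i + (2 * m - 3) := by omega
        have e6 : i + (2 * m - 4) + 2 = i + (2 * m - 2) := by omega
        have e7 : i + (2 * m - 4) + 3 = i + (2 * m - 1) := by omega
        rw [e5, e6, e7] at h1
        tauto
    · right; right
      refine ⟨by omega, by omega, ?_⟩
      have h4 := four_dvd g 1 (N - 1) hs i (2 * m) (by omega) (by omega) (by omega) hsq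
      obtain ⟨c, hc⟩ := h4
      exact ⟨c, by omega⟩

end Pool.Agent.H450R3.Ext
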