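import Mathlib
import Pool.Agent.H450R3.Ext1

set_option autoImplicit false

namespace Pool.Agent.H450R3.Ext

/-- the extremal sequence of length `16 p + 13` -/
def s (p i : ℕ) : ℚ :=
  if i = 0 then -30 else if i = 2 then 18 else if i = 3 then -20 else if i = 5 then 15
  else if i = 13 then 1 / 2
  else if i = 16 * p - 1 then -(1 / 2) else if i = 16 * p + 7 then -15
  else if i = 16 * p + 9 then 20 else if i = 16 * p + 10 then -18 else if i = 16 * p + 12 then 30
  else if i % 4 = 1 then 100 - 1 / ((i : ℚ) + 1)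
  else if i % 4 = 3 then -100 - 1 / ((i : ℚ) + 1)
  else if i % 8 = 0 then 10 - 1 / ((i : ℚ) + 1)
  else if i % 8 = 4 then -10 - 1 / ((i : ℚ) + 1)
  else f (i / 4)

variable {p : ℕ}

lemma s_0 : s p 0 = -30 := by simp [s]
lemma s_2 : s p 2 = 18 := by simp [s]
lemma s_3 : s p 3 = -20 := by simp [s]
lemma s_5 : s p 5 = 15 := by simp [s]
lemma s_13 : s p 13 = 1 / 2 := by simp [s]

lemma s_r14 (hp : 1 ≤ p) : s p (16 * p - 1) = -(1 / 2) := by
  unfold s
  rw [if_neg (by omega), if_neg (by omega), if_neg (by omega), if_neg (by omega),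
    if_neg (by omega), if_pos rfl]
lemma s_r6 (hp : 1 ≤ p) : s p (16 * p + 7) = -15 := by
  unfold s
  rw [if_neg (by omega), if_neg (by omega), if_neg (by omega), if_neg (by omega),
    if_neg (by omega), if_neg (by omega), if_pos rfl]
lemma s_r4 (hp : 1 ≤ p) : s p (16 * p + 9) = 20 := by
  unfold s
  rw [if_neg (by omega), if_neg (by omega), if_neg (by omega), if_neg (by omega),
    if_neg (by omega), if_neg (by omega), if_neg (by omega), if_pos rfl]
lemma s_r3 (hp : 1 ≤ p) : s p (16 * p + 10) = -18 := by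
  unfold s
  rw [if_neg (by omega), if_neg (by omega), if_neg (by omega), if_neg (by omega),
    if_neg (by omega), if_neg (by omega), if_neg (by omega), if_neg (by omega), if_pos rfl]
lemma s_r1 (hp : 1 ≤ p) : s p (16 * p + 12) = 30 := by
  unfold s
  rw [if_neg (by omega), if_neg (by omega), if_neg (by omega), if_neg (by omega),
    if_neg (by omega), if_neg (by omega), if_neg (by omega), if_neg (by omega),
    if_neg (by omega), if_pos rfl]

lemma s_c1 (hp : 1 ≤ p) {i : ℕ} (h : i % 4 = 1) (h5 : i ≠ 5) (h13 : i ≠ 13) (h4 : i ≠ 16 * p + 9) :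
    s p i = 100 - 1 / ((i : ℚ) + 1) := by
  unfold s
  rw [if_neg (by omega), if_neg (by omega), if_neg (by omega), if_neg (by omega),
    if_neg (by omega), if_neg (by omega), if_neg (by omega), if_neg (by omega),
    if_neg (by omega), if_neg (by omega), if_pos h]

lemma s_c3 (hp : 1 ≤ p) {i : ℕ} (h : i % 4 = 3) (h3 : i ≠ 3) (h14 : i ≠ 16 * p - 1)
    (h6 : i ≠ 16 * p + 7) : s p i = -100 - 1 / ((i : ℚ) + 1) := by
  unfold s
  rw [if_neg (by omega), if_neg (by omega), if_neg (by omega), if_neg (by omega),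
    if_neg (by omega), if_neg (by omega), if_neg (by omega), if_neg (by omega),
    if_neg (by omega), if_neg (by omega), if_neg (by omega), if_pos h]

lemma s_c0 (hp : 1 ≤ p) {i : ℕ} (h : i % 8 = 0) (h0 : i ≠ 0) :
    s p i = 10 - 1 / ((i : ℚ) + 1) := by
  unfold s
  rw [if_neg (by omega), if_neg (by omega), if_neg (by omega), if_neg (by omega),
    if_neg (by omega), if_neg (by omega), if_neg (by omega), if_neg (by omega),
    if_neg (by omega), if_neg (by omega), if_neg (by omega), if_neg (by omega), if_pos h]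

lemma s_c4 (hp : 1 ≤ p) {i : ℕ} (h : i % 8 = 4) (h0 : i ≠ 16 * p + 12) :
    s p i = -10 - 1 / ((i : ℚ) + 1) := by
  unfold s
  rw [if_neg (by omega), if_neg (by omega), if_neg (by omega), if_neg (by omega),
    if_neg (by omega), if_neg (by omega), if_neg (by omega), if_neg (by omega),
    if_neg (by omega), if_neg (by omega), if_neg (by omega), if_neg (by omega),
    if_neg (by omega), if_pos h]

lemma s_c2 (hp : 1 ≤ p) {i : ℕ} (h : i % 4 = 2) (h2 : i ≠ 2) (h3 : i ≠ 16 * p + 10) :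
    s p i = f (i / 4) := by
  unfold s
  rw [if_neg (by omega), if_neg (by omega), if_neg (by omega), if_neg (by omega),
    if_neg (by omega), if_neg (by omega), if_neg (by omega), if_neg (by omega),
    if_neg (by omega), if_neg (by omega), if_neg (by omega), if_neg (by omega),
    if_neg (by omega), if_neg (by omega)]

lemma inv_bd1 {i : ℕ} (hi : 1 ≤ i) : 0 < 1 / ((i : ℚ) + 1) ∧ 1 / ((i : ℚ) + 1) ≤ 1 / 2 := by
  constructor
  · positivity
  · apply one_div_le_one_div_of_le (by norm_num)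
    have : (1 : ℚ) ≤ i := by exact_mod_cast hi
    linarith

/-- all the values, with their ranges -/
lemma s_cases (hp : 1 ≤ p) (i : ℕ) :
    (i = 0 ∧ s p i = -30) ∨ (i = 2 ∧ s p i = 18) ∨ (i = 3 ∧ s p i = -20) ∨
    (i = 5 ∧ s p i = 15) ∨ (i = 13 ∧ s p i = 1 / 2) ∨
    (i = 16 * p - 1 ∧ s p i = -(1 / 2)) ∨ (i = 16 * p + 7 ∧ s p i = -15) ∨
    (i = 16 * p + 9 ∧ s p i = 20) ∨ (i = 16 * p + 10 ∧ s p i = -18) ∨
    (i = 16 * p + 12 ∧ s p i = 30) ∨
    (i % 4 = 1 ∧ s p i = 100 - 1 / ((i : ℚ) + 1) ∧ 99 < s p i ∧ s p i < 100) ∨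
    (i % 4 = 3 ∧ s p i = -100 - 1 / ((i : ℚ) + 1) ∧ -101 < s p i ∧ s p i < -100) ∨
    (i % 8 = 0 ∧ i ≠ 0 ∧ s p i = 10 - 1 / ((i : ℚ) + 1) ∧ 9 < s p i ∧ s p i < 10) ∨
    (i % 8 = 4 ∧ s p i = -10 - 1 / ((i : ℚ) + 1) ∧ -11 < s p i ∧ s p i < -10) ∨
    (i % 4 = 2 ∧ s p i = f (i / 4) ∧ -(3 / 2) ≤ s p i ∧ s p i ≤ 3 / 2 ∧ s p i ≠ 1 / 2 ∧
      s p i ≠ -(1 / 2)) := by
  by_cases e0 : i = 0
  · left; exact ⟨e0, by rw [e0, s_0]⟩
  by_cases e2 : i = 2
  · right; left; exact ⟨e2, by rw [e2, s_2]⟩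
  by_cases e3 : i = 3
  · right; right; left; exact ⟨e3, by rw [e3, s_3]⟩
  by_cases e5 : i = 5
  · right; right; right; left; exact ⟨e5, by rw [e5, s_5]⟩
  by_cases e13 : i = 13
  · right; right; right; right; left; exact ⟨e13, by rw [e13, s_13]⟩
  by_cases r14 : i = 16 * p - 1
  · right; right; right; right; right; left; exact ⟨r14, by rw [r14, s_r14 hp]⟩
  by_cases r6 : i = 16 * p + 7
  · right; right; right; right; right; right; left; exact ⟨r6, by rw [r6, s_r6 hp]⟩
  by_cases r4 : i = 16 * p + 9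
  · right; right; right; right; right; right; right; left; exact ⟨r4, by rw [r4, s_r4 hp]⟩
  by_cases r3 : i = 16 * p + 10
  · right; right; right; right; right; right; right; right; left; exact ⟨r3, by rw [r3, s_r3 hp]⟩
  by_cases r1 : i = 16 * p + 12
  · right; right; right; right; right; right; right; right; right; left
    exact ⟨r1, by rw [r1, s_r1 hp]⟩
  right; right; right; right; right; right; right; right; right; right
  have hb := inv_bd1 (i := i) (by omega)
  have h5 : i % 4 = 1 ∨ i % 4 = 3 ∨ i % 8 = 0 ∨ i % 8 = 4 ∨ i % 4 = 2 := by omega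
  rcases h5 with h | h | h | h | h
  · left
    have := s_c1 hp h e5 e13 r4
    exact ⟨h, this, by rw [this]; linarith [hb.1, hb.2], by rw [this]; linarith [hb.1, hb.2]⟩
  · right; left
    have := s_c3 hp h e3 r14 r6
    exact ⟨h, this, by rw [this]; linarith [hb.1, hb.2], by rw [this]; linarith [hb.1, hb.2]⟩
  · right; right; left
    have := s_c0 hp h e0
    exact ⟨h, e0, this, by rw [this]; linarith [hb.1, hb.2], by rw [this]; linarith [hb.1, hb.2]⟩
  · right; right; right; left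
    have := s_c4 hp h r1
    exact ⟨h, this, by rw [this]; linarith [hb.1, hb.2], by rw [this]; linarith [hb.1, hb.2]⟩
  · right; right; right; right
    have := s_c2 hp h e2 r3
    have hb := f_bd (i / 4)
    refine ⟨h, this, by rw [this]; exact hb.1, by rw [this]; exact hb.2, ?_, ?_⟩
    · rw [this]
      intro hc
      by_cases ho : (i / 4) % 2 = 1
      · have := f_odd_bd ho; linarith [this.2]
      · by_cases h0 : (i / 4) % 4 = 0
        · have := f_min_bd h0; linarith [this.2]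
        · have := f_max_bd (n := i / 4) (by omega); linarith [this.1]
    · rw [this]
      intro hc
      by_cases ho : (i / 4) % 2 = 1
      · have := f_odd_bd ho; linarith [this.1]
      · by_cases h0 : (i / 4) % 4 = 0
        · have := f_min_bd h0; linarith [this.2]
        · have := f_max_bd (n := i / 4) (by omega); linarith [this.1]

lemma inv_inj {i j : ℕ} (h : 1 / ((i : ℚ) + 1) = 1 / ((j : ℚ) + 1)) : i = j := by
  have ha : (0 : ℚ) < (i : ℚ) + 1 := by positivity
  have hb : (0 : ℚ) < (j : ℚ) + 1 := by positivity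
  rw [div_eq_div_iff ha.ne' hb.ne'] at h
  have : (i : ℚ) = j := by linarith
  exact_mod_cast this

set_option maxHeartbeats 4000000 in
lemma s_inj (hp : 1 ≤ p) (i j : ℕ) (h : s p i = s p j) : i = j := by
  rcases s_cases hp i with ⟨a, b⟩ | ⟨a, b⟩ | ⟨a, b⟩ | ⟨a, b⟩ | ⟨a, b⟩ | ⟨a, b⟩ | ⟨a, b⟩ | ⟨a, b⟩ |
    ⟨a, b⟩ | ⟨a, b⟩ | ⟨a, b, b1, b2⟩ | ⟨a, b, b1, b2⟩ | ⟨a, a', b, b1, b2⟩ | ⟨a, b, b1, b2⟩ |
    ⟨a, b, b1, b2, b3, b4⟩ <;>
  rcases s_cases hp j with ⟨c, d⟩ | ⟨c, d⟩ | ⟨c, d⟩ | ⟨c, d⟩ | ⟨c, d⟩ | ⟨c, d⟩ | ⟨c, d⟩ | ⟨c, d⟩ |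
    ⟨c, d⟩ | ⟨c, d⟩ | ⟨c, d, d1, d2⟩ | ⟨c, d, d1, d2⟩ | ⟨c, c', d, d1, d2⟩ | ⟨c, d, d1, d2⟩ |
    ⟨c, d, d1, d2, d3, d4⟩ <;>
  first
  | (rw [a, c]; done)
  | (exfalso; linarith)
  | (exfalso; exact b3 (by linarith))
  | (exfalso; exact b4 (by linarith))
  | (exfalso; exact d3 (by linarith))
  | (exfalso; exact d4 (by linarith))
  | (apply inv_inj; linarith)
  | (have := f_inj (i / 4) (j / 4) (by linarith); omega)

end Pool.Agent.H450R3.Ext
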