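import Mathlib
import Pool.Agent.H450R3.Ext2

set_option autoImplicit false

namespace Pool.Agent.H450R3.Ext

variable {p : ℕ}

lemma s_14 (hp : 1 ≤ p) : s p 14 = f 3 := s_c2 hp (by norm_num) (by norm_num) (by omega)

lemma s_r15 (hp : 1 ≤ p) : s p (16 * p - 2) = f (4 * p - 1) := by
  rw [s_c2 hp (by omega) (by omega) (by omega)]
  congr 1; omega

lemma s_z (hp : 1 ≤ p) {t : ℕ} (h1 : 1 ≤ t) (h2 : t ≤ 4 * p + 1) : s p (4 * t + 2) = f t := by
  rw [s_c2 hp (by omega) (by omega) (by omega)]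
  congr 1; omega

set_option maxHeartbeats 4000000 in
lemma s_dir (hp : 1 ≤ p) (i : ℕ) (hi : i + 1 < 16 * p + 13) :
    (s p i < s p (i + 1) ↔ (i % 4 = 0 ∨ i % 4 = 3)) := by
  by_cases e13 : i = 13
  · subst e13
    rw [s_13, s_14 hp]
    have := f_odd_bd (n := 3) (by norm_num)
    constructor
    · intro h; exfalso; linarith [this.2]
    · intro h; omega
  by_cases r15 : i = 16 * p - 2
  · subst r15
    have e : 16 * p - 2 + 1 = 16 * p - 1 := by omega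
    rw [e, s_r14 hp, s_r15 hp]
    have := f_odd_bd (n := 4 * p - 1) (by omega)
    constructor
    · intro h; exfalso; linarith [this.1]
    · intro h; omega
  rcases s_cases hp i with ⟨a, b⟩ | ⟨a, b⟩ | ⟨a, b⟩ | ⟨a, b⟩ | ⟨a, b⟩ | ⟨a, b⟩ | ⟨a, b⟩ | ⟨a, b⟩ |
    ⟨a, b⟩ | ⟨a, b⟩ | ⟨a, b, b1, b2⟩ | ⟨a, b, b1, b2⟩ | ⟨a, a', b, b1, b2⟩ | ⟨a, b, b1, b2⟩ |
    ⟨a, b, b1, b2, b3, b4⟩ <;>
  rcases s_cases hp (i + 1) with ⟨c, d⟩ | ⟨c, d⟩ | ⟨c, d⟩ | ⟨c, d⟩ | ⟨c, d⟩ | ⟨c, d⟩ | ⟨c, d⟩ |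
    ⟨c, d⟩ | ⟨c, d⟩ | ⟨c, d⟩ | ⟨c, d, d1, d2⟩ | ⟨c, d, d1, d2⟩ | ⟨c, c', d, d1, d2⟩ |
    ⟨c, d, d1, d2⟩ | ⟨c, d, d1, d2, d3, d4⟩ <;>
  first
  | (exfalso; omega)
  | (constructor
     · intro _; omega
     · intro _; linarith)
  | (constructor
     · intro _; exfalso; linarith
     · intro _; exfalso; omega)

lemma s_shape (hp : 1 ≤ p) (i : ℕ) (hi : i + 3 < 16 * p + 13) :
    ((s p i < s p (i + 1)) ↔ ¬ (s p (i + 2) < s p (i + 3))) := by
  rw [s_dir hp i (by omega), s_dir hp (i + 2) (by omega)]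
  omega

set_option maxHeartbeats 4000000 in
lemma y_dir (hp : 1 ≤ p) (j : ℕ) (hj : 1 ≤ j) (hj2 : j + 1 ≤ 8 * p + 5) :
    (s p (2 * j) < s p (2 * (j + 1)) ↔ (j % 4 = 2 ∨ j % 4 = 3)) := by
  rcases s_cases hp (2 * j) with ⟨a, b⟩ | ⟨a, b⟩ | ⟨a, b⟩ | ⟨a, b⟩ | ⟨a, b⟩ | ⟨a, b⟩ | ⟨a, b⟩ |
    ⟨a, b⟩ | ⟨a, b⟩ | ⟨a, b⟩ | ⟨a, b, b1, b2⟩ | ⟨a, b, b1, b2⟩ | ⟨a, a', b, b1, b2⟩ |
    ⟨a, b, b1, b2⟩ | ⟨a, b, b1, b2, b3, b4⟩ <;>
  rcases s_cases hp (2 * (j + 1)) with ⟨c, d⟩ | ⟨c, d⟩ | ⟨c, d⟩ | ⟨c, d⟩ | ⟨c, d⟩ | ⟨c, d⟩ |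
    ⟨c, d⟩ | ⟨c, d⟩ | ⟨c, d⟩ | ⟨c, d⟩ | ⟨c, d, d1, d2⟩ | ⟨c, d, d1, d2⟩ | ⟨c, c', d, d1, d2⟩ |
    ⟨c, d, d1, d2⟩ | ⟨c, d, d1, d2, d3, d4⟩ <;>
  first
  | (exfalso; omega)
  | (constructor
     · intro _; omega
     · intro _; linarith)
  | (constructor
     · intro _; exfalso; linarith
     · intro _; exfalso; omega)

lemma y_level (hp : 1 ≤ p) (i m : ℕ) (hm : 1 ≤ m) (hi : i + 4 * m ≤ 8 * p + 7)
    (hsq : Sq (fun j => s p (2 * j)) i (2 * m)) :
    (m = 1 ∧ i = 0) ∨ (m = 1 ∧ i + 4 = 8 * p + 7) ∨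
      (1 ≤ i ∧ i + 4 * m ≤ 8 * p + 6 ∧ ∃ m', m = 2 * m') := by
  have e1 : 8 * p + 7 - 4 = 8 * p + 3 := by omega
  have e2 : 8 * p + 7 - 3 = 8 * p + 4 := by omega
  have e3 : 8 * p + 7 - 2 = 8 * p + 5 := by omega
  have e4 : 8 * p + 7 - 1 = 8 * p + 6 := by omega
  have h := level (fun j => s p (2 * j)) (8 * p + 7) (by omega) ?_ ?_ ?_ i m hm hi hsq
  · rw [e4] at h; exact h
  · intro j hj hj2
    have h1 := y_dir hp j hj (by omega)
    have h2 := y_dir hp (j + 2) (by omega) (by omega)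
    show s p (2 * j) < s p (2 * (j + 1)) ↔ ¬ (s p (2 * (j + 2)) < s p (2 * (j + 3)))
    have e : j + 2 + 1 = j + 3 := by ring
    rw [e] at h2
    rw [h1, h2]; omega
  · show s p (2 * 0) < s p (2 * 1) ↔ s p (2 * 2) < s p (2 * 3)
    have h0 : s p (2 * 0) = -30 := s_0
    have h1 : s p (2 * 1) = 18 := s_2
    have h2 := y_dir hp 2 (by norm_num) (by omega)
    rw [h0, h1]
    constructor
    · intro _; exact h2.2 (by norm_num)
    · intro _; norm_num
  · rw [e1, e2, e3, e4]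
    show s p (2 * (8 * p + 3)) < s p (2 * (8 * p + 4)) ↔ s p (2 * (8 * p + 5)) < s p (2 * (8 * p + 6))
    have h2 := y_dir hp (8 * p + 3) (by omega) (by omega)
    have h3 : s p (2 * (8 * p + 5)) = -18 := by
      rw [show 2 * (8 * p + 5) = 16 * p + 10 by ring]; exact s_r3 hp
    have h4 : s p (2 * (8 * p + 6)) = 30 := by
      rw [show 2 * (8 * p + 6) = 16 * p + 12 by ring]; exact s_r1 hp
    rw [h3, h4]
    constructor
    · intro _; norm_num
    · intro _; exact h2.2 (by omega)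

lemma z_level (hp : 1 ≤ p) (i m : ℕ) (hm : 1 ≤ m) (hi : i + 4 * m ≤ 4 * p + 3)
    (hsq : Sq (fun j => s p (2 * (2 * j + 1))) i (2 * m)) :
    (m = 1 ∧ i = 0) ∨ (m = 1 ∧ i + 4 = 4 * p + 3) ∨
      (1 ≤ i ∧ i + 4 * m ≤ 4 * p + 2 ∧ ∃ m', m = 2 * m') := by
  have hz : ∀ t, 1 ≤ t → t ≤ 4 * p + 1 → s p (2 * (2 * t + 1)) = f t := by
    intro t h1 h2
    rw [show 2 * (2 * t + 1) = 4 * t + 2 by ring]
    exact s_z hp h1 h2
  have e1 : 4 * p + 3 - 4 = 4 * p - 1 := by omega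
  have e2 : 4 * p + 3 - 3 = 4 * p := by omega
  have e3 : 4 * p + 3 - 2 = 4 * p + 1 := by omega
  have e4 : 4 * p + 3 - 1 = 4 * p + 2 := by omega
  have h := level (fun j => s p (2 * (2 * j + 1))) (4 * p + 3) (by omega) ?_ ?_ ?_ i m hm hi hsq
  · rw [e4] at h; exact h
  · intro j hj hj2
    show s p (2 * (2 * j + 1)) < s p (2 * (2 * (j + 1) + 1)) ↔
      ¬ (s p (2 * (2 * (j + 2) + 1)) < s p (2 * (2 * (j + 3) + 1)))
    rw [hz j hj (by omega), hz (j + 1) (by omega) (by omega), hz (j + 2) (by omega) (by omega),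
      hz (j + 3) (by omega) (by omega)]
    exact f_shape j
  · show s p (2 * (2 * 0 + 1)) < s p (2 * (2 * 1 + 1)) ↔
      s p (2 * (2 * 2 + 1)) < s p (2 * (2 * 3 + 1))
    rw [hz 1 (by omega) (by omega), hz 2 (by omega) (by omega), hz 3 (by omega) (by omega)]
    have h0 : s p (2 * (2 * 0 + 1)) = 18 := s_2
    rw [h0]
    have h1 := f_bd 1
    have h2 := f_dir 2
    constructor
    · intro h; exfalso; linarith [h1.2]
    · intro h; exfalso
      have := h2.1 h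
      omega
  · rw [e1, e2, e3, e4]
    show s p (2 * (2 * (4 * p - 1) + 1)) < s p (2 * (2 * (4 * p) + 1)) ↔
      s p (2 * (2 * (4 * p + 1) + 1)) < s p (2 * (2 * (4 * p + 2) + 1))
    rw [hz (4 * p - 1) (by omega) (by omega), hz (4 * p) (by omega) (by omega),
      hz (4 * p + 1) (by omega) (by omega)]
    have h3 : s p (2 * (2 * (4 * p + 2) + 1)) = -18 := by
      rw [show 2 * (2 * (4 * p + 2) + 1) = 16 * p + 10 by ring]; exact s_r3 hp
    rw [h3]
    have h1 := f_odd_bd (n := 4 * p - 1) (by omega)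
    have h2 := f_min_bd (n := 4 * p) (by omega)
    have h4 := f_bd (4 * p + 1)
    constructor
    · intro h; exfalso; linarith [h1.1, h2.2]
    · intro h; exfalso; linarith [h4.1]

/-- the sequence `s p` has no squares within its first `16 p + 13` terms -/
theorem s_nosq (hp : 1 ≤ p) (i ℓ : ℕ) (hℓ : 2 ≤ ℓ) (hi : i + 2 * ℓ ≤ 16 * p + 13) :
    ¬ Sq (s p) i ℓ := by
  intro hsq
  obtain ⟨m, rfl⟩ := four_dvd (s p) 0 (16 * p + 13)
    (fun i _ h => s_shape hp i h) i ℓ hℓ (Nat.zero_le _) hi hsq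
  have h1 := sq_even (s p) i m hsq
  rcases y_level hp ((i + 1) / 2) m (by omega) (by omega) h1 with ⟨hm, h0⟩ | ⟨hm, h0⟩ |
    ⟨h0, h0', m', hm'⟩
  · subst hm
    have hi0 : i = 0 := by omega
    subst hi0
    have h2 := hsq 0 (by norm_num) 3 (by norm_num)
    norm_num at h2
    rw [s_0, s_3] at h2
    have h3 := h2.1 (by norm_num)
    have h7 := s_c3 hp (i := 7) (by norm_num) (by norm_num) (by omega) (by omega)
    have h4 := s_c4 hp (i := 4) (by norm_num) (by omega)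
    rw [h7, h4] at h3
    norm_num at h3
  · subst hm
    have hi0 : i = 16 * p + 5 := by omega
    subst hi0
    have h2 := hsq 0 (by norm_num) 3 (by norm_num)
    rw [show 16 * p + 5 + 0 = 16 * p + 5 by ring, show 16 * p + 5 + 3 = 16 * p + 8 by ring,
      show 16 * p + 5 + 4 * 1 + 0 = 16 * p + 9 by ring,
      show 16 * p + 5 + 4 * 1 + 3 = 16 * p + 12 by ring, s_r4 hp, s_r1 hp] at h2
    have h3 := h2.2 (by norm_num)
    have h5 := s_c1 hp (i := 16 * p + 5) (by omega) (by omega) (by omega) (by omega)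
    have h8 := s_c0 hp (i := 16 * p + 8) (by omega) (by omega)
    have b5 := inv_bd1 (i := 16 * p + 5) (by omega)
    have b8 := inv_bd1 (i := 16 * p + 8) (by omega)
    rw [h5, h8] at h3
    linarith [b5.2, b8.1]
  · subst hm'
    have e : 2 * (2 * m') = 4 * m' := by ring
    rw [e] at h1
    have h2 := sq_odd (fun j => s p (2 * j)) ((i + 1) / 2) m' h1
    rcases z_level hp ((i + 1) / 2 / 2) m' (by omega) (by omega) h2 with ⟨hm, h3⟩ | ⟨hm, h3⟩ |
      ⟨h3, h3', m'', hm''⟩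
    · subst hm
      have hi1 : (i + 1) / 2 = 1 := by omega
      rw [hi1] at h1
      have h4 := h1 0 (by norm_num) 3 (by norm_num)
      norm_num at h4
      rw [s_2] at h4
      have h8 := s_c0 hp (i := 8) (by norm_num) (by norm_num)
      have h16 := s_c0 hp (i := 16) (by norm_num) (by norm_num)
      have h10 : s p 10 = f 2 := s_z hp (t := 2) (by norm_num) (by omega)
      rw [h8, h16, h10] at h4
      have hf2 := f_bd 2
      norm_num at h4
      linarith [hf2.2]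
    · subst hm
      have hi1 : (i + 1) / 2 = 8 * p - 2 := by omega
      rw [hi1] at h1
      have h4 := h1 0 (by norm_num) 3 (by norm_num)
      simp only at h4
      rw [show 2 * (8 * p - 2 + 0) = 16 * p - 4 by omega,
        show 2 * (8 * p - 2 + 3) = 4 * (4 * p) + 2 by omega,
        show 2 * (8 * p - 2 + 4 * 1 + 0) = 16 * p + 4 by omega,
        show 2 * (8 * p - 2 + 4 * 1 + 3) = 16 * p + 10 by omega, s_r3 hp,
        s_z hp (t := 4 * p) (by omega) (by omega)] at h4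
      have h12 := s_c4 hp (i := 16 * p - 4) (by omega) (by omega)
      have h4' := s_c4 hp (i := 16 * p + 4) (by omega) (by omega)
      have b4 := inv_bd1 (i := 16 * p + 4) (by omega)
      have b12 := inv_bd1 (i := 16 * p - 4) (by omega)
      rw [h12, h4'] at h4
      have hf := f_bd (4 * p)
      have := h4.1 (by linarith [hf.1, b12.1])
      linarith [b4.2]
    · subst hm''
      refine f_nosq (2 * (2 * m'')) (by omega) ((i + 1) / 2 / 2) ?_
      intro a ha b hb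
      have h5 := h2 a ha b hb
      simp only at h5
      have hz : ∀ t, 1 ≤ t → t ≤ 4 * p + 1 → s p (2 * (2 * t + 1)) = f t := by
        intro t h1 h2
        rw [show 2 * (2 * t + 1) = 4 * t + 2 by ring]
        exact s_z hp h1 h2
      rw [hz _ (by omega) (by omega), hz _ (by omega) (by omega), hz _ (by omega) (by omega),
        hz _ (by omega) (by omega)] at h5
      exact h5

end Pool.Agent.H450R3.Ext
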