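import Mathlib
import Pool.Agent.H450R3.Ext3

set_option autoImplicit false

namespace Pool.Agent.H450R3.Ext

/-- insertion of the value `x` before position `k` -/
def ins (g : ℕ → ℚ) (k : ℕ) (x : ℚ) (j : ℕ) : ℚ :=
  if j < k then g j else if j = k then x else g (j - 1)

lemma sq2 (g : ℕ → ℚ) (i : ℕ) (h1 : g i ≠ g (i + 1)) (h2 : g (i + 2) ≠ g (i + 3))
    (h : g i < g (i + 1) ↔ g (i + 2) < g (i + 3)) : Sq g i 2 := by
  intro a ha b hb
  interval_cases a <;> interval_cases b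
  · simp
  · simpa using h
  · show g (i + 1) < g (i + 0) ↔ g (i + 2 + 1) < g (i + 2 + 0)
    simp only [add_zero]
    show g (i + 1) < g i ↔ g (i + 3) < g (i + 2)
    constructor
    · intro h3
      rcases lt_trichotomy (g (i + 2)) (g (i + 3)) with h4 | h4 | h4
      · exact absurd (h.2 h4) (not_lt.2 h3.le)
      · exact absurd h4 h2
      · exact h4
    · intro h3
      rcases lt_trichotomy (g i) (g (i + 1)) with h4 | h4 | h4
      · exact absurd (h.1 h4) (not_lt.2 h3.le)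
      · exact absurd h4 h1
      · exact h4
  · simp

lemma mid_ins (g : ℕ → ℚ) (n k : ℕ) (x : ℚ) (hk : 3 ≤ k) (hkn : k + 3 ≤ n)
    (hinj : ∀ i, i + 1 < n → g i ≠ g (i + 1)) (hx : ∀ i, i < n → g i ≠ x)
    (hs : ∀ i, i + 3 < n → ((g i < g (i + 1)) ↔ ¬ (g (i + 2) < g (i + 3)))) :
    ∃ i ℓ, 2 ≤ ℓ ∧ i + 2 * ℓ ≤ n + 1 ∧ Sq (ins g k x) i ℓ := by
  obtain ⟨c, rfl⟩ : ∃ c, k = c + 3 := ⟨k - 3, by omega⟩
  have v0 : ins g (c + 3) x c = g c := by simp [ins]
  have v1 : ins g (c + 3) x (c + 1) = g (c + 1) := by simp [ins]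
  have v2 : ins g (c + 3) x (c + 2) = g (c + 2) := by simp [ins]
  have v3 : ins g (c + 3) x (c + 3) = x := by simp [ins]
  have v4 : ins g (c + 3) x (c + 4) = g (c + 3) := by simp [ins]
  have v5 : ins g (c + 3) x (c + 5) = g (c + 4) := by simp [ins]
  have v6 : ins g (c + 3) x (c + 6) = g (c + 5) := by simp [ins]
  have s1 := hs c (by omega)
  have s2 := hs (c + 1) (by omega)
  have s3 := hs (c + 2) (by omega)
  have n0 := hinj c (by omega)
  have n1 := hinj (c + 1) (by omega)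
  have n3 := hinj (c + 3) (by omega)
  have n4 := hinj (c + 4) (by omega)
  have x2 := hx (c + 2) (by omega)
  have x3 := hx (c + 3) (by omega)
  by_cases q0 : (g c < g (c + 1) ↔ g (c + 2) < x)
  · refine ⟨c, 2, le_rfl, by omega, sq2 _ _ ?_ ?_ ?_⟩
    · rw [v0, v1]; exact n0
    · rw [v2, v3]; exact x2
    · rw [v0, v1, v2, v3]; exact q0
  by_cases q1 : (g (c + 1) < g (c + 2) ↔ x < g (c + 3))
  · refine ⟨c + 1, 2, le_rfl, by omega, sq2 _ _ ?_ ?_ ?_⟩
    · show ins g (c + 3) x (c + 1) ≠ ins g (c + 3) x (c + 2)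
      rw [v1, v2]; exact n1
    · show ins g (c + 3) x (c + 3) ≠ ins g (c + 3) x (c + 4)
      rw [v3, v4]; exact fun h => x3 h.symm
    · show ins g (c + 3) x (c + 1) < ins g (c + 3) x (c + 2) ↔
        ins g (c + 3) x (c + 3) < ins g (c + 3) x (c + 4)
      rw [v1, v2, v3, v4]; exact q1
  by_cases q2 : (g (c + 2) < x ↔ g (c + 3) < g (c + 4))
  · refine ⟨c + 2, 2, le_rfl, by omega, sq2 _ _ ?_ ?_ ?_⟩
    · show ins g (c + 3) x (c + 2) ≠ ins g (c + 3) x (c + 3)
      rw [v2, v3]; exact x2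
    · show ins g (c + 3) x (c + 4) ≠ ins g (c + 3) x (c + 5)
      rw [v4, v5]; exact n3
    · show ins g (c + 3) x (c + 2) < ins g (c + 3) x (c + 3) ↔
        ins g (c + 3) x (c + 4) < ins g (c + 3) x (c + 5)
      rw [v2, v3, v4, v5]; exact q2
  by_cases q3 : (x < g (c + 3) ↔ g (c + 4) < g (c + 5))
  · refine ⟨c + 3, 2, le_rfl, by omega, sq2 _ _ ?_ ?_ ?_⟩
    · show ins g (c + 3) x (c + 3) ≠ ins g (c + 3) x (c + 4)
      rw [v3, v4]; exact fun h => x3 h.symm
    · show ins g (c + 3) x (c + 5) ≠ ins g (c + 3) x (c + 6)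
      rw [v5, v6]; exact n4
    · show ins g (c + 3) x (c + 3) < ins g (c + 3) x (c + 4) ↔
        ins g (c + 3) x (c + 5) < ins g (c + 3) x (c + 6)
      rw [v3, v4, v5, v6]; exact q3
  exfalso
  have s1' : (g c < g (c + 1)) ↔ ¬ (g (c + 2) < g (c + 3)) := s1
  have s2' : (g (c + 1) < g (c + 2)) ↔ ¬ (g (c + 3) < g (c + 4)) := s2
  have s3' : (g (c + 2) < g (c + 3)) ↔ ¬ (g (c + 4) < g (c + 5)) := s3
  clear s1 s2 s3 n0 n1 n3 n4 x2 x3 v0 v1 v2 v3 v4 v5 v6 hs hx hinj
  generalize (g c < g (c + 1)) = A at *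
  generalize (g (c + 1) < g (c + 2)) = B at *
  generalize (g (c + 2) < g (c + 3)) = E at *
  generalize (g (c + 3) < g (c + 4)) = C at *
  generalize (g (c + 4) < g (c + 5)) = D at *
  generalize (g (c + 2) < x) = a at *
  generalize (x < g (c + 3)) = b at *
  by_cases hA : A <;> by_cases hB : B <;> by_cases hC : C <;> by_cases hD : D <;>
    by_cases hE : E <;> by_cases ha : a <;> by_cases hb : b <;> simp_all

set_option maxHeartbeats 4000000 in
/-- the left end: insertions in the slots 0, 1, 2 -/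
lemma left_ins (g : ℕ → ℚ) (n : ℕ) (hn : 16 ≤ n) (k : ℕ) (x : ℚ) (hk : k ≤ 2)
    (x0 : g 0 ≠ x) (x1 : g 1 ≠ x) (x2 : g 2 ≠ x)
    (a1 : g 0 < g 3) (a2 : g 3 < g 4) (a3 : g 4 < g 6) (a4 : g 6 < g 5) (a5 : g 5 < g 2)
    (a6 : g 2 < g 1)
    (b1 : g 7 < g 11) (b2 : g 11 < g 12) (b3 : g 12 < g 14) (b4 : g 14 < g 13)
    (b5 : g 13 < g 10) (b6 : g 10 < g 8) (b7 : g 8 < g 9) :
    ∃ i ℓ, 2 ≤ ℓ ∧ i + 2 * ℓ ≤ n ∧ Sq (ins g k x) i ℓ := by
  interval_cases k
  · -- slot 0
    rcases lt_or_gt_of_ne x0 with h | h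
    · -- g 0 < x
      refine ⟨0, 2, le_rfl, by omega, sq2 _ _ ?_ ?_ ?_⟩ <;> simp [ins]
      · exact fun h' => x0 h'.symm
      · exact a6.ne'
      · constructor
        · intro h'; exfalso; linarith
        · intro h'; exfalso; linarith
    · refine ⟨0, 4, by norm_num, by omega, ?_⟩
      intro a ha b hb
      interval_cases a <;> interval_cases b <;> simp [ins] <;>
        (constructor <;> intro h' <;> linarith)
  · -- slot 1
    rcases lt_or_gt_of_ne x0 with h | h
    · rcases lt_or_gt_of_ne x1 with h1 | h1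
      · -- g 1 < x
        refine ⟨1, 2, le_rfl, by omega, sq2 _ _ ?_ ?_ ?_⟩ <;> simp [ins]
        · exact fun h' => x1 h'.symm
        · exact fun h' => by linarith
        · constructor
          · intro h'; exfalso; linarith
          · intro h'; exfalso; linarith
      · rcases lt_or_gt_of_ne x2 with h2 | h2
        · -- g 2 < x < g 1
          refine ⟨0, 8, by norm_num, by omega, ?_⟩
          intro a ha b hb
          interval_cases a <;> interval_cases b <;> simp [ins] <;>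
            (constructor <;> intro h' <;> linarith)
        · -- g 0 < x < g 2
          refine ⟨0, 4, by norm_num, by omega, ?_⟩
          intro a ha b hb
          interval_cases a <;> interval_cases b <;> simp [ins] <;>
            (constructor <;> intro h' <;> linarith)
    · -- x < g 0
      refine ⟨0, 2, le_rfl, by omega, sq2 _ _ ?_ ?_ ?_⟩ <;> simp [ins]
      · exact x0
      · exact a6.ne'
      · constructor
        · intro h'; exfalso; linarith
        · intro h'; exfalso; linarith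
  · -- slot 2
    rcases lt_or_gt_of_ne x1 with h1 | h1
    · -- g 1 < x
      refine ⟨0, 8, by norm_num, by omega, ?_⟩
      intro a ha b hb
      interval_cases a <;> interval_cases b <;> simp [ins] <;>
        (constructor <;> intro h' <;> linarith)
    · -- x < g 1
      refine ⟨1, 2, le_rfl, by omega, sq2 _ _ ?_ ?_ ?_⟩ <;> simp [ins]
      · exact x1
      · exact fun h' => by linarith
      · constructor
        · intro h'; exfalso; linarith
        · intro h'; exfalso; linarith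

/-- reversal -/
lemma sq_rev (h : ℕ → ℚ) (n i ℓ : ℕ) (hi : i + 2 * ℓ ≤ n + 1)
    (hsq : Sq (fun j => -h (n - j)) i ℓ) : Sq h (n + 1 - i - 2 * ℓ) ℓ := by
  intro a ha b hb
  have := hsq (ℓ - 1 - b) (by omega) (ℓ - 1 - a) (by omega)
  simp only [neg_lt_neg_iff] at this
  rw [show n - (i + (ℓ - 1 - a)) = n + 1 - i - 2 * ℓ + ℓ + a by omega,
    show n - (i + (ℓ - 1 - b)) = n + 1 - i - 2 * ℓ + ℓ + b by omega,
    show n - (i + ℓ + (ℓ - 1 - a)) = n + 1 - i - 2 * ℓ + a by omega,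
    show n - (i + ℓ + (ℓ - 1 - b)) = n + 1 - i - 2 * ℓ + b by omega] at this
  exact this.symm

lemma sq_congr (g h : ℕ → ℚ) (n i ℓ : ℕ) (hi : i + 2 * ℓ ≤ n) (hgh : ∀ j < n, g j = h j)
    (hsq : Sq g i ℓ) : Sq h i ℓ := by
  intro a ha b hb
  have := hsq a ha b hb
  rw [hgh _ (by omega), hgh _ (by omega), hgh _ (by omega), hgh _ (by omega)] at this
  exact this

lemma ins_rev (g : ℕ → ℚ) (n k : ℕ) (hn : 1 ≤ n) (hk : k ≤ n) (x : ℚ) (j : ℕ) (hj : j < n + 1) :
    ins (fun i => -g (n - 1 - i)) (n - k) (-x) j = -ins g k x (n - j) := by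
  unfold ins
  by_cases h1 : j < n - k
  · rw [if_pos h1, if_neg (by omega), if_neg (by omega)]
    show -g (n - 1 - j) = -g (n - j - 1)
    rw [show n - j - 1 = n - 1 - j by omega]
  · by_cases h2 : j = n - k
    · rw [if_neg h1, if_pos h2, if_neg (by omega), if_pos (by omega)]
    · rw [if_neg h1, if_neg h2, if_pos (by omega)]
      show -g (n - 1 - (j - 1)) = -g (n - j)
      rw [show n - 1 - (j - 1) = n - j by omega]

variable {p : ℕ}

lemma left_s (hp : 1 ≤ p) (k : ℕ) (x : ℚ) (hk : k ≤ 2) (hx : ∀ i < 16 * p + 13, s p i ≠ x) :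
    ∃ i ℓ, 2 ≤ ℓ ∧ i + 2 * ℓ ≤ 16 * p + 13 ∧ Sq (ins (s p) k x) i ℓ := by
  have h1 := s_c1 hp (i := 1) (by norm_num) (by norm_num) (by norm_num) (by omega)
  have h4 := s_c4 hp (i := 4) (by norm_num) (by omega)
  have h6 : s p 6 = f 1 := s_z hp (t := 1) (by norm_num) (by omega)
  have h7 := s_c3 hp (i := 7) (by norm_num) (by norm_num) (by omega) (by omega)
  have h8 := s_c0 hp (i := 8) (by norm_num) (by norm_num)
  have h9 := s_c1 hp (i := 9) (by norm_num) (by norm_num) (by norm_num) (by omega)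
  have h10 : s p 10 = f 2 := s_z hp (t := 2) (by norm_num) (by omega)
  have h11 := s_c3 hp (i := 11) (by norm_num) (by norm_num) (by omega) (by omega)
  have h12 := s_c4 hp (i := 12) (by norm_num) (by omega)
  have h14 := s_14 hp
  have f1 := f_odd_bd (n := 1) (by norm_num)
  have f2 := f_max_bd (n := 2) (by norm_num)
  have f3 := f_odd_bd (n := 3) (by norm_num)
  norm_num at h1 h4 h7 h8 h9 h11 h12
  refine left_ins (s p) (16 * p + 13) (by omega) k x hk (hx 0 (by omega)) (hx 1 (by omega))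
    (hx 2 (by omega)) ?_ ?_ ?_ ?_ ?_ ?_ ?_ ?_ ?_ ?_ ?_ ?_ ?_ <;>
  simp only [s_0, s_2, s_3, s_5, s_13, h1, h4, h6, h7, h8, h9, h10, h11, h12, h14] <;>
  linarith [f1.1, f1.2, f2.1, f2.2, f3.1, f3.2]

lemma right_s (hp : 1 ≤ p) (k : ℕ) (x : ℚ) (hk : 16 * p + 11 ≤ k) (hk2 : k ≤ 16 * p + 13)
    (hx : ∀ i < 16 * p + 13, s p i ≠ x) :
    ∃ i ℓ, 2 ≤ ℓ ∧ i + 2 * ℓ ≤ 16 * p + 13 + 1 ∧ Sq (ins (s p) k x) i ℓ := by
  set n := 16 * p + 13 with hn
  have r1 := s_c3 hp (i := n - 1 - 1) (by omega) (by omega) (by omega) (by omega)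
  have r4 := s_c0 hp (i := n - 1 - 4) (by omega) (by omega)
  have r6 : s p (n - 1 - 6) = f (4 * p + 1) := by
    rw [show n - 1 - 6 = 4 * (4 * p + 1) + 2 by omega]
    exact s_z hp (by omega) (by omega)
  have r7 := s_c1 hp (i := n - 1 - 7) (by omega) (by omega) (by omega) (by omega)
  have r8 := s_c4 hp (i := n - 1 - 8) (by omega) (by omega)
  have r9 := s_c3 hp (i := n - 1 - 9) (by omega) (by omega) (by omega) (by omega)
  have r10 : s p (n - 1 - 10) = f (4 * p) := by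
    rw [show n - 1 - 10 = 4 * (4 * p) + 2 by omega]
    exact s_z hp (by omega) (by omega)
  have r11 := s_c1 hp (i := n - 1 - 11) (by omega) (by omega) (by omega) (by omega)
  have r12 := s_c0 hp (i := n - 1 - 12) (by omega) (by omega)
  have r14 : s p (n - 1 - 14) = f (4 * p - 1) := by
    rw [show n - 1 - 14 = 16 * p - 2 by omega]
    exact s_r15 hp
  have r0 : s p (n - 1 - 0) = 30 := by
    rw [show n - 1 - 0 = 16 * p + 12 by omega]; exact s_r1 hp
  have r2 : s p (n - 1 - 2) = -18 := by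
    rw [show n - 1 - 2 = 16 * p + 10 by omega]; exact s_r3 hp
  have r3 : s p (n - 1 - 3) = 20 := by
    rw [show n - 1 - 3 = 16 * p + 9 by omega]; exact s_r4 hp
  have r5 : s p (n - 1 - 5) = -15 := by
    rw [show n - 1 - 5 = 16 * p + 7 by omega]; exact s_r6 hp
  have r13 : s p (n - 1 - 13) = -(1 / 2) := by
    rw [show n - 1 - 13 = 16 * p - 1 by omega]; exact s_r14 hp
  have f1 := f_odd_bd (n := 4 * p + 1) (by omega)
  have f2 := f_min_bd (n := 4 * p) (by omega)
  have f3 := f_odd_bd (n := 4 * p - 1) (by omega)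
  have i1 := inv_bd1 (i := n - 1 - 1) (by omega)
  have i4 := inv_bd1 (i := n - 1 - 4) (by omega)
  have i7 := inv_bd1 (i := n - 1 - 7) (by omega)
  have i8 := inv_bd1 (i := n - 1 - 8) (by omega)
  have i9 := inv_bd1 (i := n - 1 - 9) (by omega)
  have i11 := inv_bd1 (i := n - 1 - 11) (by omega)
  have i12 := inv_bd1 (i := n - 1 - 12) (by omega)
  have i711 : 1 / (((n - 1 - 7 : ℕ) : ℚ) + 1) < 1 / (((n - 1 - 11 : ℕ) : ℚ) + 1) := by
    apply one_div_lt_one_div_of_lt (by positivity)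
    have : (n - 1 - 11 : ℕ) < (n - 1 - 7 : ℕ) := by omega
    have : ((n - 1 - 11 : ℕ) : ℚ) < ((n - 1 - 7 : ℕ) : ℚ) := by exact_mod_cast this
    linarith
  have hx' : ∀ i < n, -s p (n - 1 - i) ≠ -x := by
    intro i hi h
    exact hx (n - 1 - i) (by omega) (by linarith)
  obtain ⟨i, ℓ, h2, hi, hsq⟩ := left_ins (fun i => -s p (n - 1 - i)) (n + 1) (by omega) (n - k) (-x)
    (by omega) (hx' 0 (by omega)) (hx' 1 (by omega)) (hx' 2 (by omega))
    (by simp only [r0, r3]; norm_num)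
    (by simp only [r3, r4]; linarith [i4.1, i4.2])
    (by simp only [r4, r6]; linarith [i4.1, i4.2, f1.1, f1.2])
    (by simp only [r6, r5]; linarith [f1.1, f1.2])
    (by simp only [r5, r2]; norm_num)
    (by simp only [r2, r1]; linarith [i1.1, i1.2])
    (by simp only [r7, r11]; linarith)
    (by simp only [r11, r12]; linarith [i11.1, i11.2, i12.1, i12.2])
    (by simp only [r12, r14]; linarith [i12.1, i12.2, f3.1, f3.2])
    (by simp only [r14, r13]; linarith [f3.1, f3.2])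
    (by simp only [r13, r10]; linarith [f2.1, f2.2])
    (by simp only [r10, r8]; linarith [f2.1, f2.2, i8.1, i8.2])
    (by simp only [r8, r9]; linarith [i8.1, i8.2, i9.1, i9.2])
  refine ⟨n + 1 - i - 2 * ℓ, ℓ, h2, by omega, ?_⟩
  apply sq_rev (ins (s p) k x) n i ℓ hi
  exact sq_congr _ _ (n + 1) i ℓ hi
    (fun j hj => ins_rev (s p) n k (by omega) hk2 x j hj) hsq

/-- every insertion creates a square -/
theorem s_ins (hp : 1 ≤ p) (k : ℕ) (x : ℚ) (hk : k ≤ 16 * p + 13)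
    (hx : ∀ i < 16 * p + 13, s p i ≠ x) :
    ∃ i ℓ, 2 ≤ ℓ ∧ i + 2 * ℓ ≤ 16 * p + 13 + 1 ∧ Sq (ins (s p) k x) i ℓ := by
  by_cases h1 : k ≤ 2
  · obtain ⟨i, ℓ, h2, hi, hsq⟩ := left_s hp k x h1 hx
    exact ⟨i, ℓ, h2, by omega, hsq⟩
  · by_cases h2 : 16 * p + 11 ≤ k
    · exact right_s hp k x h2 hk hx
    · exact mid_ins (s p) (16 * p + 13) k x (by omega) (by omega)
        (fun i _ h => by have := s_inj hp _ _ h; omega) hx
        (fun i hi => s_shape hp i hi)

end Pool.Agent.H450R3.Ext
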