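import Mathlib

set_option autoImplicit false
open scoped BigOperators
open Matrix

namespace Pool.Agent.H450R3.Fg

variable {ι : Type} [Fintype ι] [DecidableEq ι]

lemma var_row (p : ι → ℝ) (hp : ∑ b, p b = 1) (y : ι → ℝ) :
    ∑ b, ∑ b', p b * p b' * (y b - y b') ^ 2 = 2 * ∑ b, p b * y b ^ 2 - 2 * (∑ b, p b * y b) ^ 2 := by
  have h : ∀ b b', p b * p b' * (y b - y b') ^ 2 =
      (p b * y b ^ 2) * p b' + p b * (p b' * y b' ^ 2) - 2 * ((p b * y b) * (p b' * y b')) := by
    intro b b'; ring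
  simp only [h, Finset.sum_sub_distrib, Finset.sum_add_distrib, ← Finset.mul_sum, ← Finset.sum_mul,
    hp]
  ring

lemma var_id {B : Matrix ι ι ℝ} (hB : B ∈ doublyStochastic ℝ ι) (y : ι → ℝ) :
    ∑ b, y b ^ 2 - ∑ a, (∑ b, B a b * y b) ^ 2 =
      (1 / 2) * ∑ a, ∑ b, ∑ b', B a b * B a b' * (y b - y b') ^ 2 := by
  have h1 : ∀ a, ∑ b, ∑ b', B a b * B a b' * (y b - y b') ^ 2 =
      2 * ∑ b, B a b * y b ^ 2 - 2 * (∑ b, B a b * y b) ^ 2 := fun a =>
    var_row (fun b => B a b) (sum_row_of_mem_doublyStochastic hB a) y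
  simp only [h1, Finset.sum_sub_distrib, ← Finset.mul_sum]
  have h2 : ∑ a, ∑ b, B a b * y b ^ 2 = ∑ b, y b ^ 2 := by
    rw [Finset.sum_comm]
    apply Finset.sum_congr rfl
    intro b _
    rw [← Finset.sum_mul, sum_col_of_mem_doublyStochastic hB, one_mul]
  rw [h2]; ring

/-- contraction -/
lemma sq_contr {B : Matrix ι ι ℝ} (hB : B ∈ doublyStochastic ℝ ι) (y : ι → ℝ) :
    ∑ a, (∑ b, B a b * y b) ^ 2 ≤ ∑ b, y b ^ 2 := by
  have h := var_id hB y
  have h2 : 0 ≤ ∑ a, ∑ b, ∑ b', B a b * B a b' * (y b - y b') ^ 2 := by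
    refine Finset.sum_nonneg fun a _ => Finset.sum_nonneg fun b _ => Finset.sum_nonneg fun b' _ => ?_
    have h1 : 0 ≤ B a b := nonneg_of_mem_doublyStochastic hB
    have h3 : 0 ≤ B a b' := nonneg_of_mem_doublyStochastic hB
    positivity
  linarith

/-- equality in the contraction -/
lemma sq_contr_eq {B : Matrix ι ι ℝ} (hB : B ∈ doublyStochastic ℝ ι) (y : ι → ℝ)
    (h : ∑ b, y b ^ 2 ≤ ∑ a, (∑ b, B a b * y b) ^ 2) (a b b' : ι) (hb : 0 < B a b)
    (hb' : 0 < B a b') : y b = y b' := by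
  have h1 := var_id hB y
  have hnn : ∀ a b b', 0 ≤ B a b * B a b' * (y b - y b') ^ 2 := by
    intro a b b'
    have h1 : 0 ≤ B a b := nonneg_of_mem_doublyStochastic hB
    have h3 : 0 ≤ B a b' := nonneg_of_mem_doublyStochastic hB
    positivity
  have h2 : B a b * B a b' * (y b - y b') ^ 2 ≤
      ∑ a, ∑ b, ∑ b', B a b * B a b' * (y b - y b') ^ 2 := by
    refine le_trans ?_ (Finset.single_le_sum (fun a _ => Finset.sum_nonneg fun b _ =>
      Finset.sum_nonneg fun b' _ => hnn a b b') (Finset.mem_univ a))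
    refine le_trans ?_ (Finset.single_le_sum (fun b _ =>
      Finset.sum_nonneg fun b' _ => hnn a b b') (Finset.mem_univ b))
    exact Finset.single_le_sum (f := fun b' => B a b * B a b' * (y b - y b') ^ 2)
      (fun b' _ => hnn a b b') (Finset.mem_univ b')
  have h3 : B a b * B a b' * (y b - y b') ^ 2 ≤ 0 := by linarith
  have h4 : 0 < B a b * B a b' := by positivity
  have h5 : (y b - y b') ^ 2 ≤ 0 := by
    by_contra hc
    push Not at hc
    have := mul_pos h4 hc
    linarith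
  have h6 : y b - y b' = 0 := by
    have : (y b - y b') ^ 2 = 0 := le_antisymm h5 (sq_nonneg _)
    exact pow_eq_zero_iff (two_ne_zero) |>.mp this
  linarith

/-- idempotent doubly stochastic matrices -/
structure Avg (E : Matrix ι ι ℝ) : Prop where
  ds : E ∈ doublyStochastic ℝ ι
  idem : E * E = E

lemma Avg.transpose {E : Matrix ι ι ℝ} (hE : Avg E) : Avg Eᵀ :=
  ⟨transpose_mem_doublyStochastic_iff.2 hE.ds, by rw [← Matrix.transpose_mul, hE.idem]⟩

lemma Avg.nn {E : Matrix ι ι ℝ} (hE : Avg E) (a b : ι) : 0 ≤ E a b :=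
  nonneg_of_mem_doublyStochastic hE.ds

lemma Avg.row {E : Matrix ι ι ℝ} (hE : Avg E) (a : ι) : ∑ b, E a b = 1 :=
  sum_row_of_mem_doublyStochastic hE.ds a

lemma Avg.col {E : Matrix ι ι ℝ} (hE : Avg E) (b : ι) : ∑ a, E a b = 1 :=
  sum_col_of_mem_doublyStochastic hE.ds b

/-- rows of related indices agree -/
lemma Avg.row_eq {E : Matrix ι ι ℝ} (hE : Avg E) {a b : ι} (h : 0 < E a b) (c : ι) :
    E a c = E b c := by
  have hid : ∀ a, ∑ b, E a b * E b c = E a c := fun a => by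
    have := congrFun (congrFun hE.idem a) c
    rwa [Matrix.mul_apply] at this
  have h1 : ∀ b', 0 < E a b' → E b c = E b' c := by
    intro b' hb'
    refine sq_contr_eq hE.ds (fun b => E b c) ?_ a b b' h hb'
    simp only [hid]
    exact le_rfl
  rw [← hid a]
  have h2 : ∀ b' ∈ Finset.univ, E a b' * E b' c = E a b' * E b c := by
    intro b' _
    rcases (hE.nn a b').lt_or_eq with h3 | h3
    · rw [h1 b' h3]
    · rw [← h3]; simp
  rw [Finset.sum_congr rfl h2, ← Finset.sum_mul, hE.row, one_mul]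

lemma Avg.diag_pos {E : Matrix ι ι ℝ} (hE : Avg E) (b : ι) : 0 < E b b := by
  obtain ⟨a, ha⟩ : ∃ a, 0 < E a b := by
    by_contra hc
    push Not at hc
    have : ∑ a, E a b = 0 := Finset.sum_eq_zero fun a _ => le_antisymm (hc a) (hE.nn a b)
    rw [hE.col] at this
    exact one_ne_zero this
  rw [← hE.row_eq ha b]
  exact ha

lemma Avg.col_eq {E : Matrix ι ι ℝ} (hE : Avg E) {a b : ι} (h : 0 < E a b) (c : ι) :
    E c a = E c b := by
  have := hE.transpose.row_eq (a := b) (b := a) (by simpa using h) c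
  simpa using this.symm

lemma Avg.pos_symm {E : Matrix ι ι ℝ} (hE : Avg E) {a b : ι} (h : 0 < E a b) : 0 < E b a := by
  rw [← hE.row_eq h a]; exact hE.diag_pos a

lemma Avg.symm {E : Matrix ι ι ℝ} (hE : Avg E) (a b : ι) : E a b = E b a := by
  rcases (hE.nn a b).lt_or_eq with h | h
  · have h1 := hE.row_eq h a   -- E a a = E b a
    have h2 := hE.col_eq h a   -- E a a = E a b
    rw [← h1, ← h2]
  · rcases (hE.nn b a).lt_or_eq with h' | h'
    · have := hE.pos_symm h'
      linarith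
    · rw [← h, ← h']

lemma Avg.diag_eq {E : Matrix ι ι ℝ} (hE : Avg E) {a b : ι} (h : 0 < E a b) : E a b = E a a :=
  (hE.col_eq h a).symm

lemma Avg.diag_eq' {E : Matrix ι ι ℝ} (hE : Avg E) {a b : ι} (h : 0 < E a b) : E b b = E a a := by
  rw [← hE.diag_eq h, hE.row_eq h b]

lemma Avg.trans {E : Matrix ι ι ℝ} (hE : Avg E) {a b c : ι} (h : 0 < E a b) (h' : 0 < E b c) :
    0 < E a c := by
  rw [hE.row_eq h c]; exact h'

/-- the setoid of an averaging matrix -/
def rel (E : Matrix ι ι ℝ) (hE : Avg E) : Setoid ι where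
  r a b := 0 < E a b
  iseqv := ⟨fun a => hE.diag_pos a, fun h => hE.pos_symm h, fun h h' => hE.trans h h'⟩

/-- class sizes -/
lemma Avg.card_class {E : Matrix ι ι ℝ} (hE : Avg E) (a : ι) [DecidablePred fun b => 0 < E a b] :
    ((Finset.univ.filter (fun b => 0 < E a b)).card : ℝ) * E a a = 1 := by
  rw [← hE.row a, ← nsmul_eq_mul, ← Finset.sum_const, Finset.sum_filter]
  apply Finset.sum_congr rfl
  intro b _
  split_ifs with h
  · exact (hE.diag_eq h).symm
  · exact le_antisymm (hE.nn a b) (not_lt.1 h)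

end Pool.Agent.H450R3.Fg
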