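import Mathlib
import Pool.Agent.Helper886.HCube.Perm

set_option autoImplicit false
open scoped BigOperators

namespace Pool.Agent.H450R3.Fg

open Pool.Agent.Helper886.HCube

/-- `(k/(k+1))^k` -/
noncomputable def gg (k : ℕ) : ℝ := ((k : ℝ) / (k + 1)) ^ k

lemma gg_zero : gg 0 = 1 := by simp [gg]

lemma gg_pos (k : ℕ) : 0 < gg k := by
  unfold gg
  rcases Nat.eq_zero_or_pos k with h | h
  · subst h; simp
  · have : (0 : ℝ) < k := by exact_mod_cast h
    positivity

lemma gg_le_one (k : ℕ) : gg k ≤ 1 := by
  unfold gg
  apply pow_le_one₀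
  · positivity
  · rw [div_le_one (by positivity)]; linarith

lemma prod_tangent_aux (s : Multiset ℝ) (a : ℝ) (ha : 0 < a) (hs : ∀ x ∈ s, 0 ≤ x) :
    (s.map (fun x => 1 + x)).prod ≤
      a ^ (Multiset.card s) * Real.exp (((Multiset.card s : ℝ) + s.sum) / a - Multiset.card s) := by
  induction s using Multiset.induction with
  | empty => simp
  | cons x s ih =>
    have hx : 0 ≤ x := hs x (Multiset.mem_cons_self x s)
    have ih' := ih (fun y hy => hs y (Multiset.mem_cons_of_mem hy))
    rw [Multiset.map_cons, Multiset.prod_cons, Multiset.card_cons, Multiset.sum_cons]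
    have h1 : 1 + x ≤ a * Real.exp ((1 + x) / a - 1) := by
      have h2 := Real.add_one_le_exp ((1 + x) / a - 1)
      have h3 : a * ((1 + x) / a - 1 + 1) ≤ a * Real.exp ((1 + x) / a - 1) :=
        mul_le_mul_of_nonneg_left h2 ha.le
      have h4 : a * ((1 + x) / a - 1 + 1) = 1 + x := by field_simp; ring
      linarith
    have h5 : 0 ≤ (s.map (fun x => 1 + x)).prod := by
      apply Multiset.prod_nonneg
      intro y hy
      obtain ⟨z, hz, rfl⟩ := Multiset.mem_map.1 hy
      have := hs z (Multiset.mem_cons_of_mem hz)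
      linarith
    calc (1 + x) * (s.map (fun x => 1 + x)).prod ≤ (a * Real.exp ((1 + x) / a - 1)) *
          (a ^ (Multiset.card s) *
            Real.exp (((Multiset.card s : ℝ) + s.sum) / a - Multiset.card s)) :=
          mul_le_mul h1 ih' h5 (by positivity)
      _ = a ^ (Multiset.card s + 1) * (Real.exp ((1 + x) / a - 1) *
            Real.exp (((Multiset.card s : ℝ) + s.sum) / a - Multiset.card s)) := by
          rw [pow_succ]; ring
      _ = _ := by
          rw [← Real.exp_add]
          congr 2
          push_cast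
          field_simp
          ring

lemma prod_tangent (s : Multiset ℝ) (a : ℝ) (ha : 0 < a) (m : ℕ) (hcard : Multiset.card s ≤ m)
    (hs : ∀ x ∈ s, 0 ≤ x) (hsum : (m : ℝ) + s.sum ≤ m * a) :
    (s.map (fun x => 1 + x)).prod ≤ a ^ m := by
  have h := prod_tangent_aux (s + Multiset.replicate (m - Multiset.card s) 0) a ha (by
    intro x hx
    rcases Multiset.mem_add.1 hx with h | h
    · exact hs x h
    · rw [Multiset.eq_of_mem_replicate h])
  have hc : Multiset.card (s + Multiset.replicate (m - Multiset.card s) (0 : ℝ)) = m := by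
    rw [Multiset.card_add, Multiset.card_replicate]; omega
  rw [hc] at h
  rw [Multiset.map_add, Multiset.prod_add, Multiset.map_replicate, Multiset.prod_replicate] at h
  rw [add_zero, one_pow, mul_one, Multiset.sum_add, Multiset.sum_replicate, smul_zero,
    add_zero] at h
  refine h.trans ?_
  have h2 : ((m : ℝ) + s.sum) / a - m ≤ 0 := by
    rw [sub_nonpos, div_le_iff₀ ha]
    exact hsum
  calc a ^ m * Real.exp (((m : ℝ) + s.sum) / a - m) ≤ a ^ m * 1 := by
        apply mul_le_mul_of_nonneg_left _ (by positivity)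
        exact Real.exp_le_one_iff.2 h2
    _ = a ^ m := mul_one _

/-- sharp growth lemma -/
lemma lemC' (h : Polynomial ℂ) (k : ℕ) (hdeg : h.natDegree ≤ k + 1)
    (hroot : ∀ u, h.eval u = 0 → ‖u‖ + u.re ≤ 0) (c : ℝ) (hc : 0 < c)
    (hg : ∀ t : ℝ, 0 < t → c * t ≤ ‖h.eval (t : ℂ)‖) : c * gg k ≤ ‖h.coeff 1‖ := by
  have hh0 : h ≠ 0 := by
    rintro rfl
    have := hg 1 one_pos
    simp at this
    linarith
  by_cases h0 : h.eval 0 = 0
  · -- h = X * g
    have hco : h.coeff 0 = 0 := by rw [← Polynomial.coeff_zero_eq_eval_zero] at h0; exact h0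
    have hX : h = Polynomial.X * h.divX := by
      have := Polynomial.divX_mul_X_add h
      rw [hco, map_zero, add_zero, mul_comm] at this
      exact this.symm
    have h1 : h.coeff 1 = h.divX.eval 0 := by
      rw [← Polynomial.coeff_zero_eq_eval_zero, Polynomial.coeff_divX]
    have h2 : ∀ t : ℝ, 0 < t → c ≤ ‖h.divX.eval (t : ℂ)‖ := by
      intro t ht
      have h3 := hg t ht
      rw [hX, Polynomial.eval_mul, Polynomial.eval_X, norm_mul, Complex.norm_real,
        Real.norm_of_nonneg ht.le] at h3
      have h4 : t * c ≤ t * ‖h.divX.eval (t : ℂ)‖ := by linarith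
      exact le_of_mul_le_mul_left h4 ht
    have h3 : c ≤ ‖h.divX.eval ((0 : ℝ) : ℂ)‖ := by
      have hcont : Continuous (fun t : ℝ => ‖h.divX.eval (t : ℂ)‖) := by
        exact (h.divX.continuous.comp Complex.continuous_ofReal).norm
      have ht : Filter.Tendsto (fun t : ℝ => ‖h.divX.eval (t : ℂ)‖) (nhdsWithin 0 (Set.Ioi 0))
          (nhds ‖h.divX.eval ((0 : ℝ) : ℂ)‖) := (hcont.tendsto 0).mono_left nhdsWithin_le_nhds
      refine ge_of_tendsto ht ?_
      filter_upwards [self_mem_nhdsWithin] with t ht
      exact h2 t ht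
    rw [h1]
    calc c * gg k ≤ c * 1 := mul_le_mul_of_nonneg_left (gg_le_one k) hc.le
      _ = c := mul_one c
      _ ≤ _ := by simpa using h3
  · rcases Nat.eq_zero_or_pos k with hk | hk
    · subst hk
      rw [gg_zero, mul_one]
      by_contra hcon
      push Not at hcon
      have hev : ∀ t : ℝ, 0 < t → ‖h.eval (t : ℂ)‖ ≤ ‖h.coeff 0‖ + ‖h.coeff 1‖ * t := by
        intro t ht
        rw [Polynomial.eval_eq_sum_range' (n := 2) (by omega), Finset.sum_range_succ,
          Finset.sum_range_one]
        simp only [pow_zero, mul_one, pow_one]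
        refine (norm_add_le _ _).trans ?_
        rw [norm_mul, Complex.norm_real, Real.norm_of_nonneg ht.le]
      have hpos : 0 < c - ‖h.coeff 1‖ := by linarith
      have hN : 0 ≤ ‖h.coeff 0‖ := norm_nonneg _
      have h1 := (hg ((‖h.coeff 0‖ + 1) / (c - ‖h.coeff 1‖)) (by positivity)).trans
        (hev _ (by positivity))
      have h2 : (c - ‖h.coeff 1‖) * ((‖h.coeff 0‖ + 1) / (c - ‖h.coeff 1‖)) = ‖h.coeff 0‖ + 1 := by
        field_simp
      nlinarith
    have hs := IsAlgClosed.splits h
    have hneg : ∀ z ∈ h.roots, z = -((‖z‖ : ℝ) : ℂ) ∧ 0 < ‖z‖ := by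
      intro z hz
      have hz' : h.eval z = 0 := (Polynomial.mem_roots hh0).mp hz
      have h1 := hroot z hz'
      have h2 : z ≠ 0 := by rintro rfl; exact h0 hz'
      have h3 : 0 < ‖z‖ := norm_pos_iff.mpr h2
      refine ⟨?_, h3⟩
      have h4 : z.re = -‖z‖ := by
        have := Complex.abs_re_le_norm z
        have := neg_abs_le z.re
        linarith
      have h5 : z.im = 0 := by
        have h6 : ‖z‖ ^ 2 = z.re ^ 2 + z.im ^ 2 := by
          rw [← Complex.normSq_eq_norm_sq, Complex.normSq_apply]; ring
        rw [h4] at h6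
        have : z.im ^ 2 = 0 := by linarith [h6]
        exact pow_eq_zero_iff (two_ne_zero) |>.mp this
      apply Complex.ext
      · rw [h4]; simp
      · rw [h5]; simp
    set S : ℝ := (h.roots.map fun z => 1 / ‖z‖).sum with hS
    have hd : h.coeff 1 = h.eval 0 * (S : ℂ) := by
      have h1 : h.coeff 1 = h.derivative.eval 0 := by
        rw [← Polynomial.coeff_zero_eq_eval_zero, Polynomial.coeff_derivative]; simp
      rw [h1, hs.eval_derivative_eq_eval_mul_sum h0, hS]
      congr 1
      rw [← Complex.ofRealHom_eq_coe, map_multiset_sum, Multiset.map_map]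
      congr 1
      apply Multiset.map_congr rfl
      intro z hz
      simp only [Function.comp_apply, Complex.ofRealHom_eq_coe]
      push_cast
      congr 1
      rw [zero_sub]
      have := (hneg z hz).1
      nth_rewrite 1 [this]
      simp
    have hS0 : 0 ≤ S := by
      apply Multiset.sum_nonneg
      intro x hx
      obtain ⟨z, _, rfl⟩ := Multiset.mem_map.mp hx
      positivity
    have hcard : Multiset.card h.roots ≤ k + 1 := (Polynomial.card_roots' h).trans hdeg
    -- factorisation
    have hval : ∀ t : ℝ, 0 ≤ t → ‖h.eval (t : ℂ)‖ =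
        ‖h.eval 0‖ * ((h.roots.map fun z => t * (1 / ‖z‖)).map (fun x => 1 + x)).prod := by
      intro t ht
      rw [hs.eval_eq_prod_roots, hs.eval_eq_prod_roots, norm_mul, norm_mul, mul_assoc]
      congr 1
      rw [norm_multiset_prod, norm_multiset_prod, Multiset.map_map, Multiset.map_map,
        Multiset.map_map, ← Multiset.prod_map_mul]
      congr 1
      apply Multiset.map_congr rfl
      intro z hz
      simp only [Function.comp_apply, zero_sub, norm_neg]
      obtain ⟨h1, h2⟩ := hneg z hz
      have h3 : ‖(t : ℂ) - z‖ = t + ‖z‖ := by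
        nth_rewrite 1 [h1]
        rw [sub_neg_eq_add, ← Complex.ofReal_add, Complex.norm_real]
        exact Real.norm_of_nonneg (by linarith)
      rw [h3]
      field_simp
      ring
    have hSpos : 0 < S := by
      rcases hS0.lt_or_eq with h1 | h1
      · exact h1
      · exfalso
        have hroots : h.roots = 0 := by
          by_contra hne
          obtain ⟨z, hz⟩ := Multiset.exists_mem_of_ne_zero hne
          have h2 : 0 < 1 / ‖z‖ := by have := (hneg z hz).2; positivity
          have h3 : 1 / ‖z‖ ≤ S := by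
            rw [hS]
            apply Multiset.single_le_sum
            · intro x hx
              obtain ⟨w, _, rfl⟩ := Multiset.mem_map.mp hx
              positivity
            · exact Multiset.mem_map_of_mem (fun z : ℂ => 1 / ‖z‖) hz
          linarith
        have hN : 0 < ‖h.eval 0‖ := norm_pos_iff.mpr h0
        have h2 := hval (2 * ‖h.eval 0‖ / c) (by positivity)
        have h3 := hg (2 * ‖h.eval 0‖ / c) (by positivity)
        rw [hroots] at h2
        simp only [Multiset.map_zero, Multiset.prod_zero, mul_one] at h2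
        have h4 : c * (2 * ‖h.eval 0‖ / c) = 2 * ‖h.eval 0‖ := by field_simp
        rw [h4] at h3
        linarith
    have hkr : (0 : ℝ) < k := by exact_mod_cast hk
    set a : ℝ := ((k : ℝ) + 1) / k with ha
    have hapos : 0 < a := by positivity
    set t : ℝ := a / S with ht
    have htpos : 0 < t := by positivity
    have h1 := hval t htpos.le
    have h2 := hg t htpos
    have h3 : ((h.roots.map fun z => t * (1 / ‖z‖)).map (fun x => 1 + x)).prod ≤ a ^ (k + 1) := by
      apply prod_tangent _ a hapos (k + 1)
      · rw [Multiset.card_map]; exact hcard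
      · intro x hx
        obtain ⟨z, _, rfl⟩ := Multiset.mem_map.mp hx
        positivity
      · rw [Multiset.sum_map_mul_left, ← hS, ht]
        apply le_of_eq
        rw [ha]
        push_cast
        field_simp
    have h4 : c * t ≤ ‖h.eval 0‖ * a ^ (k + 1) := by
      rw [h1] at h2
      exact h2.trans (mul_le_mul_of_nonneg_left h3 (norm_nonneg _))
    rw [hd, norm_mul, Complex.norm_real, Real.norm_of_nonneg hS0]
    have h5 : gg k * a ^ k = 1 := by
      unfold gg
      rw [← mul_pow, ha]
      have : (k : ℝ) / (k + 1) * (((k : ℝ) + 1) / k) = 1 := by field_simp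
      rw [this, one_pow]
    have h6 : c ≤ ‖h.eval 0‖ * S * a ^ k := by
      have h7 : c * a ≤ ‖h.eval 0‖ * a ^ (k + 1) * S := by
        have := mul_le_mul_of_nonneg_right h4 hS0
        calc c * a = c * t * S := by rw [ht]; field_simp
          _ ≤ _ := this
      have h8 : c * a ≤ (‖h.eval 0‖ * S * a ^ k) * a := by
        rw [pow_succ] at h7; linarith
      exact le_of_mul_le_mul_right h8 hapos
    calc c * gg k ≤ (‖h.eval 0‖ * S * a ^ k) * gg k :=
          mul_le_mul_of_nonneg_right h6 (gg_pos k).le
      _ = ‖h.eval 0‖ * S * (gg k * a ^ k) := by ring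
      _ = _ := by rw [h5, mul_one]

end Pool.Agent.H450R3.Fg
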