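import Mathlib
import Pool.Agent.H450R3.FgVdw

set_option autoImplicit false
open scoped BigOperators

namespace Pool.Agent.H450R3.Fg

open Pool.Agent.Helper886.HCube MvPolynomial

lemma up_natDegree {k n : ℕ} {f : MvPolynomial (Fin (k + 1)) ℂ} (hf : f.IsHomogeneous n)
    (y : Fin k → ℂ) : (up f y).natDegree ≤ n := by
  unfold up
  refine Polynomial.natDegree_map_le.trans ?_
  rw [natDegree_finSuccEquiv]
  exact (degreeOf_le_totalDegree f 0).trans hf.totalDegree_le

/-- roots of the univariate restriction -/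
lemma up_roots {k n : ℕ} {f : MvPolynomial (Fin (k + 1)) ℂ} (hf : f.IsHomogeneous n)
    (hs : Stab f) (x : Fin k → ℝ) (hx : ∀ i, 0 < x i) (u : ℂ)
    (hu : (up f (fun i => (x i : ℂ))).eval u = 0) : ‖u‖ + u.re ≤ 0 := by
  by_contra hcon
  push Not at hcon
  rw [up_eval] at hu
  have h2 := hom_eval hf (((‖u‖ : ℝ) : ℂ) + (starRingEnd ℂ) u)
    (Fin.cons u (fun i => (x i : ℂ)) : Fin (k + 1) → ℂ)
  rw [hu, mul_zero] at h2
  refine hs _ ?_ h2
  intro i
  refine Fin.cases ?_ (fun j => ?_) i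
  · simp only [Fin.cons_zero]
    have h3 : ((((‖u‖ : ℝ) : ℂ) + (starRingEnd ℂ) u) * u).re = ‖u‖ * (‖u‖ + u.re) := by
      rw [add_mul, Complex.add_re, Complex.re_ofReal_mul, mul_comm ((starRingEnd ℂ) u),
        Complex.mul_conj, Complex.ofReal_re, Complex.normSq_eq_norm_sq]
      ring
    rw [h3]
    have h4 : u ≠ 0 := by
      rintro rfl
      simp at hcon
    exact mul_pos (norm_pos_iff.mpr h4) hcon
  · simp only [Fin.cons_succ]
    rw [mul_comm, Complex.re_ofReal_mul]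
    apply mul_pos (hx j)
    simp
    exact hcon

lemma cap_grow {k : ℕ} {f : MvPolynomial (Fin (k + 1)) ℂ} {c : ℝ}
    (hcap : ∀ x : Fin (k + 1) → ℝ, (∀ i, 0 < x i) →
      c * ∏ i, x i ≤ ‖eval (fun i => (x i : ℂ)) f‖) (x : Fin k → ℝ) (hx : ∀ i, 0 < x i)
    (t : ℝ) (ht : 0 < t) :
    (c * ∏ i, x i) * t ≤ ‖(up f (fun i => (x i : ℂ))).eval (t : ℂ)‖ := by
  rw [up_eval]
  have h1 := hcap (Fin.cons t x : Fin (k + 1) → ℝ) (by
    intro i
    refine Fin.cases ?_ (fun j => ?_) i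
    · exact ht
    · exact hx j)
  rw [Fin.prod_univ_succ] at h1
  simp only [Fin.cons_zero, Fin.cons_succ] at h1
  have h2 : (fun i => (((Fin.cons t x : Fin (k + 1) → ℝ) i : ℝ) : ℂ)) =
      (Fin.cons (t : ℂ) (fun i => (x i : ℂ)) : Fin (k + 1) → ℂ) := by
    funext i
    refine Fin.cases ?_ (fun j => ?_) i <;> simp
  rw [h2] at h1
  calc (c * ∏ i, x i) * t = c * (t * ∏ i, x i) := by ring
    _ ≤ _ := h1

/-- the coefficient of the first power of the first variable -/
noncomputable def qq {k : ℕ} (f : MvPolynomial (Fin (k + 1)) ℂ) : MvPolynomial (Fin k) ℂ :=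
  (finSuccEquiv ℂ k f).coeff 1

lemma qq_hom {k : ℕ} {f : MvPolynomial (Fin (k + 1)) ℂ} (hf : f.IsHomogeneous (k + 1)) :
    (qq f).IsHomogeneous k := hf.finSuccEquiv_coeff_isHomogeneous 1 k (by omega)

lemma qq_ev {k : ℕ} (f : MvPolynomial (Fin (k + 1)) ℂ) (y : Fin k → ℂ) :
    eval y (qq f) = (up f y).coeff 1 := by
  rw [up, Polynomial.coeff_map, qq]

lemma qq_ev2 {k : ℕ} (f : MvPolynomial (Fin (k + 1)) ℂ) (y : Fin k → ℂ) :
    eval y (qq f) = eval (Fin.cons 0 y : Fin (k + 1) → ℂ) (dd f) := by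
  rw [qq_ev, ← up_eval, up_dd, ← Polynomial.coeff_zero_eq_eval_zero,
    Polynomial.coeff_derivative]
  simp

lemma qq_cap {k : ℕ} {f : MvPolynomial (Fin (k + 1)) ℂ} (hf : f.IsHomogeneous (k + 1))
    (hs : Stab f) {c : ℝ} (hc : 0 < c)
    (hcap : ∀ x : Fin (k + 1) → ℝ, (∀ i, 0 < x i) →
      c * ∏ i, x i ≤ ‖eval (fun i => (x i : ℂ)) f‖) (x : Fin k → ℝ) (hx : ∀ i, 0 < x i) :
    c * gg k * ∏ i, x i ≤ ‖eval (fun i => (x i : ℂ)) (qq f)‖ := by
  rw [qq_ev]
  have hP : 0 < ∏ i, x i := Finset.prod_pos fun i _ => hx i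
  have h1 := lemC' (up f (fun i => (x i : ℂ))) k (up_natDegree hf _) (up_roots hf hs x hx)
    (c * ∏ i, x i) (by positivity) (cap_grow hcap x hx)
  calc c * gg k * ∏ i, x i = (c * ∏ i, x i) * gg k := by ring
    _ ≤ _ := h1

lemma qq_stab {k : ℕ} {f : MvPolynomial (Fin (k + 1)) ℂ} (hf : f.IsHomogeneous (k + 1))
    (hs : Stab f) {c : ℝ} (hc : 0 < c)
    (hcap : ∀ x : Fin (k + 1) → ℝ, (∀ i, 0 < x i) →
      c * ∏ i, x i ≤ ‖eval (fun i => (x i : ℂ)) f‖) : Stab (qq f) := by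
  have hgrow := cap_grow hcap
  have hdstab : Stab (dd f) := by
    intro z hz
    have hz' : z = (Fin.cons (z 0) (Fin.tail z) : Fin (k + 1) → ℂ) := (Fin.cons_self_tail z).symm
    rw [hz', ← up_eval, up_dd]
    have hst : ∀ u : ℂ, 0 < u.re → (up f (Fin.tail z)).eval u ≠ 0 := by
      intro u hu
      rw [up_eval]
      apply hs
      intro i
      refine Fin.cases ?_ (fun j => ?_) i
      · exact hu
      · exact hz _
    apply lemD _ hst _ _ (hz 0)
    -- non constant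
    intro hroots
    have hsp := IsAlgClosed.splits (up f (Fin.tail z))
    have hconst : ∀ u, (up f (Fin.tail z)).eval u = (up f (Fin.tail z)).leadingCoeff := by
      intro u
      rw [hsp.eval_eq_prod_roots, hroots]; simp
    set L := ‖(up f (Fin.tail z)).leadingCoeff‖ with hL
    set P := c * ∏ i, (Fin.tail z i).re with hP
    have hPpos : 0 < P := by
      apply mul_pos hc
      exact Finset.prod_pos fun i _ => hz _
    have hb : ∀ t : ℝ, 0 < t → P * t ≤ L := by
      intro t ht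
      have h1 := hgrow (fun i => (Fin.tail z i).re) (fun i => hz _) t ht
      have h2 := lemA hf hs (Fin.cons (t : ℂ) (Fin.tail z) : Fin (k + 1) → ℂ) (by
        intro i
        refine Fin.cases ?_ (fun j => ?_) i
        · simpa using ht
        · exact hz _)
      have h3 : (fun i => ((((Fin.cons (t : ℂ) (Fin.tail z) : Fin (k + 1) → ℂ) i).re : ℝ) : ℂ)) =
          (Fin.cons (t : ℂ) (fun i => (((Fin.tail z i).re : ℝ) : ℂ)) : Fin (k + 1) → ℂ) := by
        funext i
        refine Fin.cases ?_ (fun j => ?_) i <;> simp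
      rw [h3, ← up_eval, ← up_eval, hconst] at h2
      exact h1.trans h2
    have h4 := hb ((L + 1) / P) (by
      have : 0 ≤ L := norm_nonneg _
      positivity)
    rw [mul_div_cancel₀ _ hPpos.ne'] at h4
    linarith
  intro y hy
  have hhom := dd_hom hf
  have h1 : ∀ t : ℝ, 0 < t →
      ‖eval (Fin.cons (t : ℂ) (fun i => ((y i).re : ℂ)) : Fin (k + 1) → ℂ) (dd f)‖ ≤
      ‖eval (Fin.cons (t : ℂ) y : Fin (k + 1) → ℂ) (dd f)‖ := by
    intro t ht
    have h2 := lemA hhom hdstab (Fin.cons (t : ℂ) y : Fin (k + 1) → ℂ) (by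
      intro i
      refine Fin.cases ?_ (fun j => ?_) i
      · simpa using ht
      · exact hy _)
    have h3 : (fun i => ((((Fin.cons (t : ℂ) y : Fin (k + 1) → ℂ) i).re : ℝ) : ℂ)) =
        (Fin.cons (t : ℂ) (fun i => (((y i).re : ℝ) : ℂ)) : Fin (k + 1) → ℂ) := by
      funext i
      refine Fin.cases ?_ (fun j => ?_) i <;> simp
    rw [h3] at h2
    exact h2
  have hcont : ∀ w : Fin k → ℂ, Continuous
      (fun t : ℝ => ‖eval (Fin.cons (t : ℂ) w : Fin (k + 1) → ℂ) (dd f)‖) := by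
    intro w
    simp only [← up_eval]
    exact ((up (dd f) w).continuous.comp Complex.continuous_ofReal).norm
  have h2 : ‖eval (Fin.cons ((0 : ℝ) : ℂ) (fun i => ((y i).re : ℂ)) : Fin (k + 1) → ℂ) (dd f)‖ ≤
      ‖eval (Fin.cons ((0 : ℝ) : ℂ) y : Fin (k + 1) → ℂ) (dd f)‖ := by
    have ht1 := ((hcont (fun i => ((y i).re : ℂ))).tendsto 0).mono_left
      (nhdsWithin_le_nhds (s := Set.Ioi 0))
    have ht2 := ((hcont y).tendsto 0).mono_left (nhdsWithin_le_nhds (s := Set.Ioi 0))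
    refine le_of_tendsto_of_tendsto ht1 ht2 ?_
    filter_upwards [self_mem_nhdsWithin] with t ht
    exact h1 t ht
  rw [Complex.ofReal_zero, ← qq_ev2, ← qq_ev2] at h2
  have h3 := qq_cap hf hs hc hcap (fun i => (y i).re) hy
  have h4 : 0 < c * gg k * ∏ i, (y i).re := by
    have : 0 < ∏ i, (y i).re := Finset.prod_pos fun i _ => hy i
    have := gg_pos k
    positivity
  intro h0
  rw [h0, norm_zero] at h2
  linarith

lemma qq_coeff {k : ℕ} (f : MvPolynomial (Fin (k + 1)) ℂ) :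
    coeff (Finsupp.equivFunOnFinite.symm (fun _ => 1) : Fin k →₀ ℕ) (qq f) =
      coeff (Finsupp.equivFunOnFinite.symm (fun _ => 1) : Fin (k + 1) →₀ ℕ) f := by
  rw [qq, finSuccEquiv_coeff_coeff]
  congr 1
  ext i
  refine Fin.cases ?_ (fun j => ?_) i <;> simp

/-- the product of the constants -/
noncomputable def GG (k : ℕ) : ℝ := ∏ i ∈ Finset.range k, gg i

lemma GG_pos (k : ℕ) : 0 < GG k := Finset.prod_pos fun i _ => gg_pos i

lemma GG_succ (k : ℕ) : GG (k + 1) = GG k * gg k := Finset.prod_range_succ _ _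

/-- Gurvits' inequality -/
theorem gurvits (k : ℕ) : ∀ (f : MvPolynomial (Fin k) ℂ), f.IsHomogeneous k → Stab f →
    ∀ c : ℝ, 0 < c → (∀ x : Fin k → ℝ, (∀ i, 0 < x i) →
      c * ∏ i, x i ≤ ‖eval (fun i => (x i : ℂ)) f‖) →
    c * GG k ≤ ‖coeff (Finsupp.equivFunOnFinite.symm (fun _ => 1)) f‖ := by
  induction k with
  | zero =>
    intro f hf hs c hc hcap
    have h1 := hcap (fun i => i.elim0) (fun i => i.elim0)
    simp only [Finset.univ_eq_empty, Finset.prod_empty, mul_one] at h1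
    have h2 : f = C (coeff 0 f) := MvPolynomial.eq_C_of_isEmpty f
    have h3 : (Finsupp.equivFunOnFinite.symm (fun _ => 1) : Fin 0 →₀ ℕ) = 0 := by
      ext i; exact i.elim0
    rw [h3]
    rw [h2, eval_C] at h1
    simpa [GG] using h1
  | succ k ih =>
    intro f hf hs c hc hcap
    have hfin := ih (qq f) (qq_hom hf) (qq_stab hf hs hc hcap) (c * gg k)
      (mul_pos hc (gg_pos k)) (qq_cap hf hs hc hcap)
    rw [qq_coeff] at hfin
    rw [GG_succ]
    calc c * (GG k * gg k) = c * gg k * GG k := by ring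
      _ ≤ _ := hfin

end Pool.Agent.H450R3.Fg
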