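import Mathlib
import Pool.Agent.H450R3.FgVdw2

set_option autoImplicit false
open scoped BigOperators

namespace Pool.Agent.H450R3.Fg

open Pool.Agent.Helper886.HCube MvPolynomial

lemma per_eq {n : ℕ} (A : Matrix (Fin n) (Fin n) ℝ) :
    A.permanent = ∑ σ : Equiv.Perm (Fin n), ∏ i, A i (σ i) := by
  rw [← Matrix.permanent_transpose]; rfl

/-- the product polynomial -/
noncomputable def pol {n : ℕ} (A : Matrix (Fin n) (Fin n) ℝ) : MvPolynomial (Fin n) ℂ :=
  ∏ i, ∑ j, C ((A i j : ℝ) : ℂ) * X j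

lemma pol_ev {n : ℕ} (A : Matrix (Fin n) (Fin n) ℝ) (z : Fin n → ℂ) :
    eval z (pol A) = ∏ i, ∑ j, ((A i j : ℝ) : ℂ) * z j := by
  rw [pol, map_prod]
  simp

lemma pol_hom {n : ℕ} (A : Matrix (Fin n) (Fin n) ℝ) : (pol A).IsHomogeneous n := by
  have h1 := IsHomogeneous.prod Finset.univ (fun i : Fin n => ∑ j, C ((A i j : ℝ) : ℂ) * X j)
    (fun _ => 1) (fun i _ => IsHomogeneous.sum _ _ _ fun j _ => isHomogeneous_C_mul_X _ _)
  have h2 : ∑ i : Fin n, 1 = n := by simp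
  rw [h2] at h1
  exact h1

lemma pol_stab {n : ℕ} {A : Matrix (Fin n) (Fin n) ℝ} (hA : A ∈ doublyStochastic ℝ (Fin n)) :
    Stab (pol A) := by
  have h0 : ∀ i j, 0 ≤ A i j := fun i j => nonneg_of_mem_doublyStochastic hA
  have hr : ∀ i, ∑ j, A i j = 1 := sum_row_of_mem_doublyStochastic hA
  intro z hz
  rw [pol_ev, Finset.prod_ne_zero_iff]
  intro i _ h1
  have h2 : (∑ j, ((A i j : ℝ) : ℂ) * z j).re = ∑ j, A i j * (z j).re := by
    rw [Complex.re_sum]
    apply Finset.sum_congr rfl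
    intro j _
    rw [Complex.re_ofReal_mul]
  rw [h1, Complex.zero_re] at h2
  have h3 : ∀ j ∈ Finset.univ, A i j * (z j).re = 0 :=
    (Finset.sum_eq_zero_iff_of_nonneg (fun j _ => mul_nonneg (h0 i j) (hz j).le)).mp h2.symm
  have h4 : ∑ j, A i j = 0 := by
    apply Finset.sum_eq_zero
    intro j hj
    rcases mul_eq_zero.mp (h3 j hj) with h | h
    · exact h
    · exact absurd h (hz j).ne'
  rw [hr i] at h4
  exact one_ne_zero h4

lemma amgm_cap {n : ℕ} {A : Matrix (Fin n) (Fin n) ℝ} (hA : A ∈ doublyStochastic ℝ (Fin n))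
    (x : Fin n → ℝ) (hx : ∀ i, 0 < x i) : ∏ i, x i ≤ ∏ i, ∑ j, A i j * x j := by
  have h0 : ∀ i j, 0 ≤ A i j := fun i j => nonneg_of_mem_doublyStochastic hA
  have hr : ∀ i, ∑ j, A i j = 1 := sum_row_of_mem_doublyStochastic hA
  have hc : ∀ j, ∑ i, A i j = 1 := sum_col_of_mem_doublyStochastic hA
  calc ∏ j, x j = ∏ j, x j ^ (∑ i, A i j) := by
        apply Finset.prod_congr rfl
        intro j _
        rw [hc j, Real.rpow_one]
    _ = ∏ j, ∏ i, x j ^ (A i j) := by
        apply Finset.prod_congr rfl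
        intro j _
        rw [Real.rpow_sum_of_pos (hx j)]
    _ = ∏ i, ∏ j, x j ^ (A i j) := Finset.prod_comm
    _ ≤ ∏ i, ∑ j, A i j * x j := by
        apply Finset.prod_le_prod
        · intro i _
          exact Finset.prod_nonneg fun j _ => Real.rpow_nonneg (hx j).le _
        · intro i _
          exact Real.geom_mean_le_arith_mean_weighted _ _ _ (fun j _ => h0 i j) (hr i)
            (fun j _ => (hx j).le)

lemma pol_cap {n : ℕ} {A : Matrix (Fin n) (Fin n) ℝ} (hA : A ∈ doublyStochastic ℝ (Fin n))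
    (x : Fin n → ℝ) (hx : ∀ i, 0 < x i) :
    1 * ∏ i, x i ≤ ‖eval (fun i => (x i : ℂ)) (pol A)‖ := by
  rw [pol_ev, one_mul]
  have h1 : ∏ i, ∑ j, ((A i j : ℝ) : ℂ) * (x j : ℂ) = ((∏ i, ∑ j, A i j * x j : ℝ) : ℂ) := by
    push_cast; rfl
  rw [h1, Complex.norm_real]
  exact (amgm_cap hA x hx).trans (le_abs_self _)

lemma pol_coeff {n : ℕ} (A : Matrix (Fin n) (Fin n) ℝ) :
    coeff (Finsupp.equivFunOnFinite.symm (fun _ => 1) : Fin n →₀ ℕ) (pol A) =
      ((∑ σ : Equiv.Perm (Fin n), ∏ i, A i (σ i) : ℝ) : ℂ) := by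
  classical
  rw [pol, Finset.prod_univ_sum, coeff_sum]
  have h1 : ∀ g ∈ Fintype.piFinset (fun _ : Fin n => (Finset.univ : Finset (Fin n))),
      coeff (Finsupp.equivFunOnFinite.symm (fun _ => 1) : Fin n →₀ ℕ)
        (∏ i, C ((A i (g i) : ℝ) : ℂ) * X (g i)) =
      if Function.Bijective g then ((∏ i, A i (g i) : ℝ) : ℂ) else 0 := by
    intro g _
    have h2 : (∏ i, C ((A i (g i) : ℝ) : ℂ) * X (g i) : MvPolynomial (Fin n) ℂ) =
        C ((∏ i, A i (g i) : ℝ) : ℂ) * monomial (∑ i, Finsupp.single (g i) 1) 1 := by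
      rw [Finset.prod_mul_distrib]
      congr 1
      · push_cast
        rw [map_prod]
      · exact (monomial_sum_one Finset.univ (fun i => Finsupp.single (g i) 1)).symm
    rw [h2, coeff_C_mul, coeff_monomial]
    have h3 : (∑ i, Finsupp.single (g i) 1 = (Finsupp.equivFunOnFinite.symm (fun _ => 1) :
        Fin n →₀ ℕ)) ↔ Function.Bijective g := by
      constructor
      · intro h
        rw [← Finite.surjective_iff_bijective]
        intro j
        by_contra hj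
        push Not at hj
        have h4 := DFunLike.congr_fun h j
        rw [Finsupp.finsetSum_apply] at h4
        simp only [Finsupp.equivFunOnFinite_symm_apply_apply] at h4
        rw [Finset.sum_eq_zero] at h4
        · exact zero_ne_one h4
        · intro i _
          exact Finsupp.single_eq_of_ne (fun e => hj i e.symm)
      · intro h
        ext j
        rw [Finsupp.finsetSum_apply]
        have h4 : ∑ i, (Finsupp.single (g i) 1 : Fin n →₀ ℕ) j =
            ∑ i, (Finsupp.single i 1 : Fin n →₀ ℕ) j :=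
          h.sum_comp (fun i => (Finsupp.single i 1 : Fin n →₀ ℕ) j)
        rw [h4]
        simp [Finsupp.single_apply]
    by_cases hb : Function.Bijective g
    · rw [if_pos hb, if_pos (h3.mpr hb), mul_one]
    · rw [if_neg hb, if_neg (fun h => hb (h3.mp h)), mul_zero]
  rw [Finset.sum_congr rfl h1, Fintype.piFinset_univ, ← Finset.sum_filter]
  push_cast
  symm
  apply Finset.sum_bij (fun (σ : Equiv.Perm (Fin n)) _ => (σ : Fin n → Fin n))
  · intro σ _
    exact Finset.mem_filter.mpr ⟨Finset.mem_univ _, σ.bijective⟩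
  · intro σ _ τ _ h
    exact DFunLike.coe_injective h
  · intro g hg
    exact ⟨Equiv.ofBijective g (Finset.mem_filter.mp hg).2, Finset.mem_univ _, rfl⟩
  · intro σ _
    rfl

lemma pol_coeff_norm {n : ℕ} {A : Matrix (Fin n) (Fin n) ℝ}
    (hA : A ∈ doublyStochastic ℝ (Fin n)) :
    ‖coeff (Finsupp.equivFunOnFinite.symm (fun _ => 1) : Fin n →₀ ℕ) (pol A)‖ = A.permanent := by
  rw [pol_coeff, Complex.norm_real, per_eq, Real.norm_of_nonneg]
  exact Finset.sum_nonneg fun σ _ =>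
    Finset.prod_nonneg fun i _ => nonneg_of_mem_doublyStochastic hA

/-- van der Waerden's inequality -/
theorem vdw {n : ℕ} {A : Matrix (Fin n) (Fin n) ℝ} (hA : A ∈ doublyStochastic ℝ (Fin n)) :
    GG n ≤ A.permanent := by
  have h := gurvits n (pol A) (pol_hom A) (pol_stab hA) 1 one_pos (pol_cap hA)
  rwa [pol_coeff_norm hA, one_mul] at h

lemma GG_eq (n : ℕ) : GG n = (n.factorial : ℝ) / (n : ℝ) ^ n := by
  induction n with
  | zero => simp [GG]
  | succ k ih =>
    rw [GG_succ, ih, gg, Nat.factorial_succ]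
    rcases Nat.eq_zero_or_pos k with hk | hk
    · subst hk; simp
    have : (0 : ℝ) < k := by exact_mod_cast hk
    push_cast
    rw [div_pow, pow_succ]
    field_simp

/-! ### uniqueness -/

/-- linear forms without the first variable -/
def LL {k : ℕ} (A : Matrix (Fin (k + 1)) (Fin (k + 1)) ℝ) (i : Fin (k + 1)) (x : Fin k → ℝ) : ℝ :=
  ∑ j, A i j.succ * x j

/-- the partial derivative in the first variable at zero -/
def Qr {k : ℕ} (A : Matrix (Fin (k + 1)) (Fin (k + 1)) ℝ) (x : Fin k → ℝ) : ℝ :=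
  ∑ i, (∏ j ∈ Finset.univ.erase i, LL A j x) * A i 0

lemma up_pol {k : ℕ} (A : Matrix (Fin (k + 1)) (Fin (k + 1)) ℝ) (x : Fin k → ℝ) :
    up (pol A) (fun i => (x i : ℂ)) =
      ∏ i, (Polynomial.C ((A i 0 : ℝ) : ℂ) * Polynomial.X + Polynomial.C ((LL A i x : ℝ) : ℂ)) := by
  apply Polynomial.funext
  intro t
  rw [up_eval, pol_ev, Polynomial.eval_prod]
  apply Finset.prod_congr rfl
  intro i _
  rw [Fin.sum_univ_succ]
  simp only [Fin.cons_zero, Fin.cons_succ, Polynomial.eval_add, Polynomial.eval_mul,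
    Polynomial.eval_C, Polynomial.eval_X, LL]
  push_cast
  rfl

lemma qq_pol {k : ℕ} (A : Matrix (Fin (k + 1)) (Fin (k + 1)) ℝ) (x : Fin k → ℝ) :
    eval (fun i => (x i : ℂ)) (qq (pol A)) = ((Qr A x : ℝ) : ℂ) := by
  rw [qq_ev, up_pol]
  have h1 : ∀ p : Polynomial ℂ, p.coeff 1 = p.derivative.eval 0 := by
    intro p
    rw [← Polynomial.coeff_zero_eq_eval_zero, Polynomial.coeff_derivative]; simp
  rw [h1, Polynomial.derivative_prod_finset, Polynomial.eval_finset_sum, Qr]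
  push_cast
  apply Finset.sum_congr rfl
  intro i _
  rw [Polynomial.eval_mul, Polynomial.eval_prod]
  congr 1
  · apply Finset.prod_congr rfl
    intro j _
    simp
  · simp

lemma LL_nonneg {k : ℕ} {A : Matrix (Fin (k + 1)) (Fin (k + 1)) ℝ}
    (hA : A ∈ doublyStochastic ℝ (Fin (k + 1))) (i : Fin (k + 1)) (x : Fin k → ℝ)
    (hx : ∀ i, 0 ≤ x i) : 0 ≤ LL A i x :=
  Finset.sum_nonneg fun j _ => mul_nonneg (nonneg_of_mem_doublyStochastic hA) (hx j)

lemma Qr_nonneg {k : ℕ} {A : Matrix (Fin (k + 1)) (Fin (k + 1)) ℝ}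
    (hA : A ∈ doublyStochastic ℝ (Fin (k + 1))) (x : Fin k → ℝ)
    (hx : ∀ i, 0 ≤ x i) : 0 ≤ Qr A x :=
  Finset.sum_nonneg fun i _ => mul_nonneg (Finset.prod_nonneg fun j _ => LL_nonneg hA j x hx)
    (nonneg_of_mem_doublyStochastic hA)

/-- U1 -/
lemma U1 {k : ℕ} {A : Matrix (Fin (k + 1)) (Fin (k + 1)) ℝ}
    (hA : A ∈ doublyStochastic ℝ (Fin (k + 1))) (c : ℝ) (hc : 0 < c)
    (h : ∀ x : Fin k → ℝ, (∀ i, 0 < x i) → c * ∏ i, x i ≤ Qr A x) :
    c * GG k ≤ A.permanent := by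
  have h1 := gurvits k (qq (pol A)) (qq_hom (pol_hom A))
    (qq_stab (pol_hom A) (pol_stab hA) one_pos (pol_cap hA)) c hc (by
      intro x hx
      rw [qq_pol, Complex.norm_real]
      exact (h x hx).trans (le_abs_self _))
  rwa [qq_coeff, pol_coeff_norm hA] at h1

lemma gg_lt (m : ℕ) : gg (m + 1) < gg m := by
  rcases Nat.eq_zero_or_pos m with hm | hm
  · subst hm; norm_num [gg]
  have hmr : (0 : ℝ) < m := by exact_mod_cast hm
  set x : ℝ := 1 / ((m : ℝ) + 1) ^ 2 with hx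
  have hx0 : 0 < x := by positivity
  have hx1 : x ≤ 1 := by
    rw [hx, div_le_one (by positivity)]; nlinarith
  have h1 : 1 - (m + 1 : ℝ) * x < (1 - x) ^ (m + 1) := by
    have h2 := one_add_mul_le_pow (a := -x) (by linarith) m
    have h3 : (1 + (m : ℝ) * -x) * (1 - x) ≤ (1 + -x) ^ m * (1 - x) :=
      mul_le_mul_of_nonneg_right h2 (by linarith)
    have h4 : (1 + -x) ^ m * (1 - x) = (1 - x) ^ (m + 1) := by
      rw [pow_succ]; ring
    have h5 : 0 < (m : ℝ) * x ^ 2 := by positivity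
    nlinarith
  -- gg (m+1) = ((m+1)/(m+2))^(m+1), gg m = (m/(m+1))^m
  unfold gg
  push_cast
  have h6 : (1 - x) = (m : ℝ) / (m + 1) * (((m : ℝ) + 1 + 1) / (m + 1)) := by
    rw [hx]; field_simp; ring
  have h7 : 1 - (m + 1 : ℝ) * x = (m : ℝ) / (m + 1) := by
    rw [hx]; field_simp; ring
  rw [h7, h6, mul_pow, pow_succ] at h1
  have h8 : 0 < (m : ℝ) / (m + 1) := by positivity
  have h9 : 1 < ((m : ℝ) / (m + 1)) ^ m * (((m : ℝ) + 1 + 1) / (m + 1)) ^ (m + 1) := by
    have : (m : ℝ) / (m + 1) * 1 < (m : ℝ) / (m + 1) *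
        (((m : ℝ) / (m + 1)) ^ m * (((m : ℝ) + 1 + 1) / (m + 1)) ^ (m + 1)) := by
      rw [mul_one]
      calc (m : ℝ) / (m + 1) < _ := h1
        _ = _ := by ring
    exact lt_of_mul_lt_mul_left this h8.le
  have h10 : (((m : ℝ) + 1) / (m + 1 + 1)) ^ (m + 1) * (((m : ℝ) + 1 + 1) / (m + 1)) ^ (m + 1) = 1 := by
    rw [← mul_pow]
    have : ((m : ℝ) + 1) / (m + 1 + 1) * (((m : ℝ) + 1 + 1) / (m + 1)) = 1 := by field_simp
    rw [this, one_pow]
  have h11 : 0 < (((m : ℝ) + 1) / (m + 1 + 1)) ^ (m + 1) := by positivity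
  calc (((m : ℝ) + 1) / (m + 1 + 1)) ^ (m + 1) = (((m : ℝ) + 1) / (m + 1 + 1)) ^ (m + 1) * 1 := by ring
    _ < (((m : ℝ) + 1) / (m + 1 + 1)) ^ (m + 1) *
        (((m : ℝ) / (m + 1)) ^ m * (((m : ℝ) + 1 + 1) / (m + 1)) ^ (m + 1)) :=
        mul_lt_mul_of_pos_left h9 h11
    _ = ((m : ℝ) / (m + 1)) ^ m * ((((m : ℝ) + 1) / (m + 1 + 1)) ^ (m + 1) *
        (((m : ℝ) + 1 + 1) / (m + 1)) ^ (m + 1)) := by ring
    _ = _ := by rw [h10, mul_one]

/-- U2: no zero entries in the first column -/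
lemma U2 {k : ℕ} {A : Matrix (Fin (k + 2)) (Fin (k + 2)) ℝ}
    (hA : A ∈ doublyStochastic ℝ (Fin (k + 2))) (hper : A.permanent ≤ GG (k + 2))
    (i₀ : Fin (k + 2)) : 0 < A i₀ 0 := by
  rcases (nonneg_of_mem_doublyStochastic hA : 0 ≤ A i₀ 0).lt_or_eq with h | h
  · exact h
  exfalso
  have hdeg : ∀ x : Fin (k + 1) → ℝ, (up (pol A) (fun i => (x i : ℂ))).natDegree ≤ k + 1 := by
    intro x
    rw [up_pol, ← Finset.mul_prod_erase _ _ (Finset.mem_univ i₀), ← h]
    simp only [Complex.ofReal_zero, map_zero, zero_mul, zero_add]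
    refine (Polynomial.natDegree_C_mul_le _ _).trans ?_
    refine (Polynomial.natDegree_prod_le _ _).trans ?_
    refine (Finset.sum_le_card_nsmul _ _ 1 ?_).trans ?_
    · intro j _
      exact Polynomial.natDegree_linear_le
    · rw [Finset.card_erase_of_mem (Finset.mem_univ _), Finset.card_univ, Fintype.card_fin]
      simp
  have h1 := U1 hA (gg k) (gg_pos k) (by
    intro x hx
    have hP : 0 < ∏ i, x i := Finset.prod_pos fun i _ => hx i
    have h2 := lemC' (up (pol A) (fun i => (x i : ℂ))) k (hdeg x)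
      (up_roots (pol_hom A) (pol_stab hA) x hx) (1 * ∏ i, x i) (by positivity)
      (cap_grow (pol_cap hA) x hx)
    rw [← qq_ev, qq_pol, Complex.norm_real, Real.norm_of_nonneg
      (Qr_nonneg hA x fun i => (hx i).le)] at h2
    linarith)
  rw [GG_succ] at hper
  have h2 := h1.trans hper
  have h3 : GG (k + 1) * gg (k + 1) < GG (k + 1) * gg k :=
    mul_lt_mul_of_pos_left (gg_lt k) (GG_pos _)
  linarith

end Pool.Agent.H450R3.Fg
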