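import Mathlib
import Pool.Agent.H450R3.FgVdw3

set_option autoImplicit false
open scoped BigOperators

namespace Pool.Agent.H450R3.Fg

lemma LL_smul {k : ℕ} (A : Matrix (Fin (k + 1)) (Fin (k + 1)) ℝ) (i : Fin (k + 1)) (s : ℝ)
    (x : Fin k → ℝ) : LL A i (fun j => s * x j) = s * LL A i x := by
  unfold LL
  rw [Finset.mul_sum]
  apply Finset.sum_congr rfl; intro j _; ring

lemma Qr_smul {k : ℕ} (A : Matrix (Fin (k + 1)) (Fin (k + 1)) ℝ) (s : ℝ)
    (x : Fin k → ℝ) : Qr A (fun j => s * x j) = s ^ k * Qr A x := by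
  unfold Qr
  rw [Finset.mul_sum]
  apply Finset.sum_congr rfl
  intro i _
  simp only [LL_smul, Finset.prod_mul_distrib, Finset.prod_const]
  rw [Finset.card_erase_of_mem (Finset.mem_univ _), Finset.card_univ, Fintype.card_fin,
    Nat.add_sub_cancel]
  ring

lemma Qr_cont {k : ℕ} (A : Matrix (Fin (k + 1)) (Fin (k + 1)) ℝ) : Continuous (Qr A) := by
  unfold Qr LL
  fun_prop

/-- U3 -/
lemma U3 {k : ℕ} (hk : 0 < k) {A : Matrix (Fin (k + 1)) (Fin (k + 1)) ℝ}
    (hA : A ∈ doublyStochastic ℝ (Fin (k + 1))) (hper : A.permanent ≤ GG (k + 1))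
    (hpos : ∀ i j, 0 < A i j) :
    ∃ x : Fin k → ℝ, (∀ i, 0 < x i) ∧ Qr A x ≤ gg k * ∏ i, x i := by
  haveI : NeZero k := ⟨hk.ne'⟩
  by_contra hcon
  push Not at hcon
  have hF : Continuous (fun x : Fin k → ℝ => Qr A x - gg k * ∏ i, x i) := by
    apply (Qr_cont A).sub
    fun_prop
  have hcomp : IsCompact (stdSimplex ℝ (Fin k)) := isCompact_stdSimplex ℝ (Fin k)
  have hne : (stdSimplex ℝ (Fin k)).Nonempty := ⟨_, single_mem_stdSimplex ℝ (0 : Fin k)⟩
  obtain ⟨x0, hx0, hmin⟩ := hcomp.exists_isMinOn hne hF.continuousOn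
  have hposF : ∀ x ∈ stdSimplex ℝ (Fin k), 0 < Qr A x - gg k * ∏ i, x i := by
    intro x hx
    by_cases hall : ∀ i, 0 < x i
    · have := hcon x hall
      linarith
    · push Not at hall
      obtain ⟨j, hj⟩ := hall
      have hj0 : x j = 0 := le_antisymm hj (hx.1 j)
      have hP : ∏ i, x i = 0 := Finset.prod_eq_zero (Finset.mem_univ j) hj0
      rw [hP, mul_zero, sub_zero]
      have hL : ∀ i, 0 < LL A i x := by
        intro i
        unfold LL
        obtain ⟨l, hl⟩ : ∃ l, 0 < x l := by
          by_contra hc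
          push Not at hc
          have : ∑ l, x l = 0 := Finset.sum_eq_zero fun l _ => le_antisymm (hc l) (hx.1 l)
          rw [hx.2] at this
          exact one_ne_zero this
        refine Finset.sum_pos' (fun l _ => mul_nonneg (hpos i l.succ).le (hx.1 l)) ⟨l, Finset.mem_univ l, ?_⟩
        exact mul_pos (hpos i l.succ) hl
      unfold Qr
      refine Finset.sum_pos (fun i _ => mul_pos (Finset.prod_pos fun l _ => hL l) (hpos i 0)) ?_
      exact ⟨0, Finset.mem_univ _⟩
  set ε := Qr A x0 - gg k * ∏ i, x0 i with hε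
  have hε0 : 0 < ε := hposF x0 hx0
  have h1 := U1 hA (gg k + ε) (by have := gg_pos k; linarith) (by
    intro x hx
    set s : ℝ := ∑ i, x i with hs
    have hs0 : 0 < s := Finset.sum_pos (fun i _ => hx i) ⟨0, Finset.mem_univ _⟩
    set y : Fin k → ℝ := fun i => s⁻¹ * x i with hy
    have hymem : y ∈ stdSimplex ℝ (Fin k) := by
      constructor
      · intro i
        have := hx i
        simp only [hy]; positivity
      · simp only [hy]
        rw [← Finset.mul_sum, ← hs]
        field_simp
    have hy1 : x = fun i => s * y i := by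
      funext i
      simp only [hy]
      field_simp
    have hm : ε ≤ Qr A y - gg k * ∏ i, y i := hmin hymem
    have hle : ∀ i, y i ≤ 1 := by
      intro i
      have := hymem.2
      rw [← this]
      exact Finset.single_le_sum (fun l _ => hymem.1 l) (Finset.mem_univ i)
    have hprod : ∏ i, y i ≤ 1 := Finset.prod_le_one (fun i _ => hymem.1 i) (fun i _ => hle i)
    rw [hy1, Qr_smul, Finset.prod_mul_distrib, Finset.prod_const, Finset.card_univ,
      Fintype.card_fin]
    have h2 : (gg k + ε) * ∏ i, y i ≤ Qr A y := by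
      have : ε * ∏ i, y i ≤ ε * 1 := mul_le_mul_of_nonneg_left hprod hε0.le
      linarith
    have h3 : 0 ≤ s ^ k := by positivity
    calc (gg k + ε) * (s ^ k * ∏ i, y i) = s ^ k * ((gg k + ε) * ∏ i, y i) := by ring
      _ ≤ s ^ k * Qr A y := mul_le_mul_of_nonneg_left h2 h3)
  rw [GG_succ] at hper
  have h2 := GG_pos k
  nlinarith

/-- strict tangent inequality -/
lemma prod_strict {ι : Type} [Fintype ι] (y : ι → ℝ) (a : ℝ) (ha : 0 < a) (hy : ∀ i, 0 < y i)
    (hsum : ∑ i, y i = Fintype.card ι * a) (i₀ : ι) (hne : y i₀ ≠ a) :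
    ∏ i, y i < a ^ (Fintype.card ι) := by
  have h1 : ∏ i, y i < ∏ i, (a * Real.exp (y i / a - 1)) := by
    apply Finset.prod_lt_prod (fun i _ => hy i)
    · intro i _
      have h2 := Real.add_one_le_exp (y i / a - 1)
      have h3 : a * (y i / a - 1 + 1) ≤ a * Real.exp (y i / a - 1) :=
        mul_le_mul_of_nonneg_left h2 ha.le
      have h4 : a * (y i / a - 1 + 1) = y i := by field_simp; ring
      linarith
    · refine ⟨i₀, Finset.mem_univ _, ?_⟩
      have hne' : y i₀ / a - 1 ≠ 0 := by
        intro h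
        apply hne
        have : y i₀ / a = 1 := by linarith
        rwa [div_eq_one_iff_eq ha.ne'] at this
      have h2 := Real.add_one_lt_exp hne'
      have h3 : a * (y i₀ / a - 1 + 1) < a * Real.exp (y i₀ / a - 1) :=
        mul_lt_mul_of_pos_left h2 ha
      have h4 : a * (y i₀ / a - 1 + 1) = y i₀ := by field_simp; ring
      linarith
  rw [Finset.prod_mul_distrib, Finset.prod_const, ← Real.exp_sum, Finset.card_univ] at h1
  have h5 : ∑ i, (y i / a - 1) = 0 := by
    rw [Finset.sum_sub_distrib, ← Finset.sum_div, hsum]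
    simp
    field_simp
    ring
  rwa [h5, Real.exp_zero, mul_one] at h1

/-- U4 -/
lemma U4 {k : ℕ} (hk : 0 < k) {A : Matrix (Fin (k + 1)) (Fin (k + 1)) ℝ}
    (hA : A ∈ doublyStochastic ℝ (Fin (k + 1))) (hper : A.permanent ≤ GG (k + 1))
    (hpos : ∀ i j, 0 < A i j) :
    ∃ w : Fin k → ℝ, (∀ j, 0 < w j) ∧ ∀ i, A i 0 = ∑ j, w j * A i j.succ := by
  haveI : NeZero k := ⟨hk.ne'⟩
  obtain ⟨x, hx, hQ⟩ := U3 hk hA hper hpos
  have hL : ∀ i, 0 < LL A i x := fun i =>
    Finset.sum_pos (fun j _ => mul_pos (hpos i j.succ) (hx j)) ⟨0, Finset.mem_univ _⟩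
  set u : Fin (k + 1) → ℝ := fun i => A i 0 / LL A i x with hu
  have hupos : ∀ i, 0 < u i := fun i => div_pos (hpos i 0) (hL i)
  set S : ℝ := ∑ i, u i with hS
  have hSpos : 0 < S := Finset.sum_pos (fun i _ => hupos i) ⟨0, Finset.mem_univ _⟩
  set Λ : ℝ := ∏ i, LL A i x with hΛ
  have hΛpos : 0 < Λ := Finset.prod_pos fun i _ => hL i
  set P : ℝ := ∏ i, x i with hP
  have hPpos : 0 < P := Finset.prod_pos fun i _ => hx i
  have hQ2 : Qr A x = Λ * S := by
    rw [Qr, hS, Finset.mul_sum]
    apply Finset.sum_congr rfl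
    intro i _
    rw [hΛ, ← Finset.mul_prod_erase _ _ (Finset.mem_univ i), hu]
    have := (hL i).ne'
    field_simp
  have hkr : (0 : ℝ) < k := by exact_mod_cast hk
  set a : ℝ := ((k : ℝ) + 1) / k with ha
  have hapos : 0 < a := by positivity
  have hgg : gg k * a ^ k = 1 := by
    unfold gg
    rw [← mul_pow, ha]
    have : (k : ℝ) / (k + 1) * (((k : ℝ) + 1) / k) = 1 := by field_simp
    rw [this, one_pow]
  set t : ℝ := a / S with ht
  have htpos : 0 < t := by positivity
  have hcap : t * P ≤ Λ * ∏ i, (1 + t * u i) := by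
    have h1 := amgm_cap hA (Fin.cons t x : Fin (k + 1) → ℝ) (by
      intro i
      refine Fin.cases ?_ (fun j => ?_) i
      · exact htpos
      · exact hx j)
    rw [Fin.prod_univ_succ] at h1
    simp only [Fin.cons_zero, Fin.cons_succ] at h1
    refine h1.trans (le_of_eq ?_)
    rw [hΛ, ← Finset.prod_mul_distrib]
    apply Finset.prod_congr rfl
    intro i _
    rw [Fin.sum_univ_succ]
    simp only [Fin.cons_zero, Fin.cons_succ]
    have h2 : ∑ j : Fin k, A i j.succ * x j = LL A i x := rfl
    rw [h2, hu]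
    have := (hL i).ne'
    field_simp
    ring
  have hall : ∀ i, 1 + t * u i = a := by
    intro i
    by_contra hne
    have h1 := prod_strict (fun i => 1 + t * u i) a hapos (fun i => by
      have := hupos i; positivity) (by
      rw [Finset.sum_add_distrib, ← Finset.mul_sum, ← hS, ht, Fintype.card_fin]
      simp only [Finset.sum_const, Finset.card_univ, Fintype.card_fin, nsmul_eq_mul, mul_one]
      rw [ha]
      push_cast
      field_simp) i hne
    rw [Fintype.card_fin] at h1
    have h2 : t * P < Λ * a ^ (k + 1) := hcap.trans_lt (mul_lt_mul_of_pos_left h1 hΛpos)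
    have h3 : Λ * S * a ^ k ≤ P := by
      rw [hQ2] at hQ
      have h4 : Λ * S * a ^ k ≤ gg k * P * a ^ k := mul_le_mul_of_nonneg_right hQ (by positivity)
      calc Λ * S * a ^ k ≤ gg k * P * a ^ k := h4
        _ = P * (gg k * a ^ k) := by ring
        _ = P := by rw [hgg, mul_one]
    have h5 : t * (Λ * S * a ^ k) ≤ t * P := mul_le_mul_of_nonneg_left h3 htpos.le
    have h6 : t * (Λ * S * a ^ k) = Λ * a ^ (k + 1) := by
      rw [ht, pow_succ]; field_simp
    linarith
  have hτ : ∀ i, u i = (a - 1) / t := by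
    intro i
    have := hall i
    field_simp
    linarith
  have ha1 : 0 < a - 1 := by
    rw [ha]
    have : ((k : ℝ) + 1) / k - 1 = 1 / k := by field_simp; ring
    rw [this]; positivity
  refine ⟨fun j => (a - 1) / t * x j, fun j => by have := hx j; positivity, ?_⟩
  intro i
  have h1 : A i 0 = u i * LL A i x := by
    rw [hu]
    have := (hL i).ne'
    field_simp
  rw [h1, hτ i, LL, Finset.mul_sum]
  apply Finset.sum_congr rfl
  intro j _
  ring

/-- permuting the columns of a doubly stochastic matrix -/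
lemma ds_permcols {n : ℕ} {A : Matrix (Fin n) (Fin n) ℝ} (hA : A ∈ doublyStochastic ℝ (Fin n))
    (π : Equiv.Perm (Fin n)) : A.submatrix id π ∈ doublyStochastic ℝ (Fin n) := by
  rw [mem_doublyStochastic_iff_sum]
  refine ⟨fun i j => nonneg_of_mem_doublyStochastic hA, fun i => ?_, fun j => ?_⟩
  · simp only [Matrix.submatrix_apply, id]
    rw [Equiv.sum_comp π (fun j => A i j)]
    exact sum_row_of_mem_doublyStochastic hA i
  · simp only [Matrix.submatrix_apply, id]
    exact sum_col_of_mem_doublyStochastic hA _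

/-- uniqueness in van der Waerden's inequality -/
theorem vdw_unique {n : ℕ} {A : Matrix (Fin n) (Fin n) ℝ} (hA : A ∈ doublyStochastic ℝ (Fin n))
    (hper : A.permanent ≤ GG n) (i j : Fin n) : A i j = 1 / n := by
  obtain ⟨m, rfl⟩ : ∃ m, n = m + 1 := ⟨n - 1, by have := i.pos; omega⟩
  rcases Nat.eq_zero_or_pos m with hm | hm
  · subst hm
    have h1 := sum_row_of_mem_doublyStochastic hA i
    have h2 : ∀ l : Fin (0 + 1), l = j := fun l => Fin.ext (by have := l.2; have := j.2; omega)
    rw [Finset.sum_eq_single j (fun l _ hl => absurd (h2 l) hl)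
      (fun hj => absurd (Finset.mem_univ j) hj)] at h1
    rw [h1]; simp
  obtain ⟨k, rfl⟩ : ∃ k, m = k + 1 := ⟨m - 1, by omega⟩
  have hperm : ∀ π : Equiv.Perm (Fin (k + 1 + 1)), (A.submatrix id π).permanent = A.permanent := by
    intro π
    exact Matrix.permanent_permute_rows π A
  have hpos : ∀ i j, 0 < A i j := by
    intro i j
    have := U2 (ds_permcols hA (Equiv.swap 0 j)) (by rw [hperm]; exact hper) i
    simpa using this
  have hcol : ∀ j, ∃ w : Fin (k + 1) → ℝ, (∀ l, 0 < w l) ∧
      ∀ i, A i j = ∑ l, w l * A i (Equiv.swap 0 j l.succ) := by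
    intro j
    obtain ⟨w, hw, h⟩ := U4 (Nat.succ_pos k) (ds_permcols hA (Equiv.swap 0 j))
      (by rw [hperm]; exact hper) (fun i l => hpos _ _)
    refine ⟨w, hw, fun i => ?_⟩
    have := h i
    simpa using this
  -- every row is constant
  have hconst : ∀ i, ∃ c, ∀ l, A i l = c := by
    intro i
    obtain ⟨j, hj⟩ := Finite.exists_max (fun l => A i l)
    refine ⟨A i j, ?_⟩
    obtain ⟨w, hw, h⟩ := hcol j
    have hw1 : ∑ l, w l = 1 := by
      have h1 : ∑ i, A i j = ∑ i, ∑ l, w l * A i (Equiv.swap 0 j l.succ) :=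
        Finset.sum_congr rfl fun i _ => h i
      rw [sum_col_of_mem_doublyStochastic hA, Finset.sum_comm] at h1
      simp only [← Finset.mul_sum, sum_col_of_mem_doublyStochastic hA, mul_one] at h1
      exact h1.symm
    have hle : ∀ l : Fin (k + 1), A i (Equiv.swap 0 j l.succ) = A i j := by
      by_contra hc
      push Not at hc
      obtain ⟨l0, hl0⟩ := hc
      have hlt : ∑ l, w l * A i (Equiv.swap 0 j l.succ) < ∑ l, w l * A i j := by
        apply Finset.sum_lt_sum
        · intro l _
          exact mul_le_mul_of_nonneg_left (hj _) (hw l).le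
        · exact ⟨l0, Finset.mem_univ _, mul_lt_mul_of_pos_left
            (lt_of_le_of_ne (hj _) hl0) (hw l0)⟩
      rw [← Finset.sum_mul, hw1, one_mul, ← h i] at hlt
      exact lt_irrefl _ hlt
    intro l
    by_cases hlj : l = j
    · rw [hlj]
    · -- l = swap 0 j (succ l')
      have h1 : Equiv.swap 0 j l ≠ 0 := by
        intro h0
        apply hlj
        have := congrArg (Equiv.swap 0 j) h0
        simpa using this
      obtain ⟨l', hl'⟩ := Fin.exists_succ_eq.2 h1
      have h2 := hle l'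
      rw [hl'] at h2
      simpa using h2
  obtain ⟨c, hc⟩ := hconst i
  have h1 := sum_row_of_mem_doublyStochastic hA i
  simp only [hc, Finset.sum_const, Finset.card_univ, Fintype.card_fin, nsmul_eq_mul] at h1
  rw [hc j]
  field_simp
  linarith

end Pool.Agent.H450R3.Fg
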