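import Mathlib
import Pool.Agent.H450R3.FgAvg
import Pool.Agent.H450R3.FgVdw4

set_option autoImplicit false
open scoped BigOperators
open Matrix

namespace Pool.Agent.H450R3.Fg

variable {ι : Type} [Fintype ι] [DecidableEq ι]

lemma per_reindex {κ κ' : Type} [Fintype κ] [DecidableEq κ] [Fintype κ'] [DecidableEq κ']
    (e : κ ≃ κ') (M : Matrix κ' κ' ℝ) : (M.submatrix e e).permanent = M.permanent := by
  unfold Matrix.permanent
  refine Fintype.sum_equiv (Equiv.permCongr e) _ _ ?_
  intro σ
  refine Fintype.prod_equiv e _ _ ?_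
  intro i
  simp [Matrix.submatrix_apply, Equiv.permCongr_apply]

/-- the permanent of a block diagonal matrix -/
lemma per_block {Q : Type} [Fintype Q] [DecidableEq Q] (q : ι → Q) (M : Matrix ι ι ℝ)
    (hM : ∀ a b, q a ≠ q b → M a b = 0) :
    M.permanent = ∏ c, (M.submatrix (Subtype.val : {a // q a = c} → ι) Subtype.val).permanent := by
  unfold Matrix.permanent
  rw [Finset.prod_univ_sum, Fintype.piFinset_univ]
  have h1 : ∑ σ : Equiv.Perm ι, ∏ i, M (σ i) i =
      ∑ σ ∈ Finset.univ.filter (fun σ : Equiv.Perm ι => ∀ i, q (σ i) = q i), ∏ i, M (σ i) i := by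
    symm
    apply Finset.sum_subset (Finset.filter_subset _ _)
    intro σ _ hσ
    rw [Finset.mem_filter] at hσ
    push Not at hσ
    obtain ⟨i, hi⟩ := hσ (Finset.mem_univ _)
    exact Finset.prod_eq_zero (Finset.mem_univ i) (hM _ _ hi)
  rw [h1]
  refine Finset.sum_bij' (fun σ hσ => fun c => σ.subtypePerm (p := fun a => q a = c)
      (fun x => by rw [(Finset.mem_filter.1 hσ).2 x]))
    (fun τ _ => (Equiv.sigmaFiberEquiv q).permCongr (Equiv.sigmaCongrRight τ)) ?_ ?_ ?_ ?_ ?_
  · intro σ hσ; exact Finset.mem_univ _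
  · intro τ _
    rw [Finset.mem_filter]
    refine ⟨Finset.mem_univ _, fun i => ?_⟩
    have : (Equiv.sigmaFiberEquiv q).permCongr (Equiv.sigmaCongrRight τ) i =
      ((τ (q i)) ⟨i, rfl⟩).1 := rfl
    rw [this]
    exact ((τ (q i)) ⟨i, rfl⟩).2
  · intro σ hσ
    ext i
    rfl
  · intro τ _
    funext c
    ext x
    obtain ⟨x, rfl⟩ := x
    rfl
  · intro σ hσ
    rw [← (Equiv.sigmaFiberEquiv q).prod_comp, Fintype.prod_sigma]
    rfl

section vdw

variable {κ : Type} [Fintype κ] [DecidableEq κ]

lemma ds_reindex {κ' : Type} [Fintype κ'] [DecidableEq κ'] (e : κ' ≃ κ) {M : Matrix κ κ ℝ}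
    (hM : M ∈ doublyStochastic ℝ κ) : M.submatrix e e ∈ doublyStochastic ℝ κ' := by
  rw [mem_doublyStochastic_iff_sum]
  refine ⟨fun i j => nonneg_of_mem_doublyStochastic hM, fun i => ?_, fun j => ?_⟩
  · simp only [Matrix.submatrix_apply]
    rw [Equiv.sum_comp e (fun j => M (e i) j)]
    exact sum_row_of_mem_doublyStochastic hM _
  · simp only [Matrix.submatrix_apply]
    rw [Equiv.sum_comp e (fun i => M i (e j))]
    exact sum_col_of_mem_doublyStochastic hM _

theorem vdw' {M : Matrix κ κ ℝ} (hM : M ∈ doublyStochastic ℝ κ) :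
    GG (Fintype.card κ) ≤ M.permanent := by
  have e := (Fintype.equivFin κ).symm
  rw [← per_reindex e M]
  exact vdw (ds_reindex e hM)

theorem vdw_unique' {M : Matrix κ κ ℝ} (hM : M ∈ doublyStochastic ℝ κ)
    (hper : M.permanent ≤ GG (Fintype.card κ)) (i j : κ) : M i j = 1 / Fintype.card κ := by
  have e := (Fintype.equivFin κ).symm
  rw [← per_reindex e M] at hper
  have h := vdw_unique (ds_reindex e hM) hper (e.symm i) (e.symm j)
  simpa using h

lemma per_const (c : ℝ) (M : Matrix κ κ ℝ) (hM : ∀ i j, M i j = c) :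
    M.permanent = (Fintype.card κ).factorial * c ^ (Fintype.card κ) := by
  unfold Matrix.permanent
  simp only [hM, Finset.prod_const, Finset.sum_const, Finset.card_univ, Fintype.card_perm,
    nsmul_eq_mul]

end vdw

lemma sum_sub (p : ι → Prop) [DecidablePred p] (f : ι → ℝ) (hf : ∀ a, ¬ p a → f a = 0) :
    ∑ x : {a // p a}, f x = ∑ a, f a := by
  rw [← Finset.sum_subtype (Finset.univ.filter p) (by simp) f]
  apply Finset.sum_subset (Finset.subset_univ _)
  intro x _ hx
  exact hf x (fun h => hx (Finset.mem_filter.2 ⟨Finset.mem_univ _, h⟩))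

/-- lower bound and uniqueness for block diagonal doubly stochastic matrices -/
theorem block_vdw {E : Matrix ι ι ℝ} (hE : Avg E) {M : Matrix ι ι ℝ}
    (hM : M ∈ doublyStochastic ℝ ι) (hsupp : ∀ a b, E a b = 0 → M a b = 0) :
    E.permanent ≤ M.permanent ∧ (M.permanent ≤ E.permanent → M = E) := by
  classical
  let r := rel E hE
  let Q := Quotient r
  haveI : Fintype Q := Quotient.fintype r
  let q : ι → Q := fun a => Quotient.mk r a
  have hq : ∀ a b, q a = q b ↔ 0 < E a b := fun a b => Quotient.eq (r := r)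
  have hq0 : ∀ a b, q a ≠ q b → E a b = 0 := by
    intro a b h
    rcases (hE.nn a b).lt_or_eq with h1 | h1
    · exact absurd ((hq a b).2 h1) h
    · exact h1.symm
  have hEb := per_block q E hq0
  have hMb := per_block q M (fun a b h => hsupp a b (hq0 a b h))
  -- class data
  have hcard : ∀ (c : Q) (x : {a // q a = c}), (Fintype.card {a // q a = c} : ℝ) * E x x = 1 := by
    rintro c ⟨x, rfl⟩
    have h := hE.card_class x
    rw [Fintype.card_subtype]
    rw [← h]
    congr 2
    congr 1
    ext b
    simp only [Finset.mem_filter, Finset.mem_univ, true_and]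
    rw [← hq x b]
    exact eq_comm
  have hEc : ∀ (c : Q), (E.submatrix (Subtype.val : {a // q a = c} → ι) Subtype.val).permanent =
      GG (Fintype.card {a // q a = c}) := by
    intro c
    rw [per_const (1 / (Fintype.card {a // q a = c} : ℝ)) _ (by
      intro x y
      rw [Matrix.submatrix_apply]
      have h1 : 0 < E x y := (hq _ _).1 (x.2.trans y.2.symm)
      rw [hE.diag_eq h1]
      have h2 := hcard c x
      have h3 : (Fintype.card {a // q a = c} : ℝ) ≠ 0 := by
        intro h0; rw [h0, zero_mul] at h2; exact zero_ne_one h2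
      field_simp
      linarith), GG_eq]
    rw [one_div, inv_pow]
    rfl
  have hMds : ∀ c : Q, (M.submatrix (Subtype.val : {a // q a = c} → ι) Subtype.val) ∈
      doublyStochastic ℝ {a // q a = c} := by
    intro c
    rw [mem_doublyStochastic_iff_sum]
    refine ⟨fun i j => nonneg_of_mem_doublyStochastic hM, fun i => ?_, fun j => ?_⟩
    · rw [← sum_row_of_mem_doublyStochastic hM i.1]
      simp only [Matrix.submatrix_apply]
      exact sum_sub (fun a => q a = c) (fun b => M i b) (fun b hb =>
        hsupp _ _ (hq0 _ _ (fun h => hb (h.symm.trans i.2))))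
    · rw [← sum_col_of_mem_doublyStochastic hM j.1]
      simp only [Matrix.submatrix_apply]
      exact sum_sub (fun a => q a = c) (fun b => M b j) (fun b hb =>
        hsupp _ _ (hq0 _ _ (fun h => hb (h.trans j.2))))
  have hMc : ∀ c : Q, GG (Fintype.card {a // q a = c}) ≤
      (M.submatrix (Subtype.val : {a // q a = c} → ι) Subtype.val).permanent := fun c =>
    vdw' (hMds c)
  simp only [hEc] at hEb
  refine ⟨?_, ?_⟩
  · rw [hEb, hMb]
    exact Finset.prod_le_prod (fun c _ => (GG_pos _).le) (fun c _ => hMc c)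
  · intro hle
    have hall : ∀ c : Q, (M.submatrix (Subtype.val : {a // q a = c} → ι) Subtype.val).permanent ≤
        GG (Fintype.card {a // q a = c}) := by
      intro c
      by_contra hcon
      push Not at hcon
      have := Finset.prod_lt_prod (s := Finset.univ) (f := fun c : Q => GG (Fintype.card {a // q a = c}))
        (g := fun c : Q => (M.submatrix (Subtype.val : {a // q a = c} → ι) Subtype.val).permanent)
        (fun c _ => GG_pos _) (fun c _ => hMc c) ⟨c, Finset.mem_univ _, hcon⟩
      rw [← hEb, ← hMb] at this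
      linarith
    ext a b
    by_cases hab : q a = q b
    · have h1 := vdw_unique' (hMds (q b)) (hall (q b)) ⟨a, hab⟩ ⟨b, rfl⟩
      rw [Matrix.submatrix_apply] at h1
      have h2 := hcard (q b) ⟨a, hab⟩
      have h3 : E a b = E a a := hE.diag_eq ((hq a b).1 hab)
      have h4 : (Fintype.card {a // q a = q b} : ℝ) ≠ 0 := by
        intro h0; rw [h0, zero_mul] at h2; exact zero_ne_one h2
      have h5 : M a b = 1 / (Fintype.card {a // q a = q b} : ℝ) := h1
      have h6 : (Fintype.card {a // q a = q b} : ℝ) * E a a = 1 := h2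
      rw [h5, h3]
      field_simp
      linarith
    · rw [hq0 a b hab, hsupp a b (hq0 a b hab)]

end Pool.Agent.H450R3.Fg
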