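import Mathlib
import Pool.Agent.H450R3.FgAvg

set_option autoImplicit false
open scoped BigOperators
open Matrix

namespace Pool.Agent.H450R3.Fg

variable {ι : Type} [Fintype ι] [DecidableEq ι]

/-- sum over all functions of a product -/
lemma sum_fun (φ : ι → ι → ℝ) : ∑ g : ι → ι, ∏ k, φ k (g k) = ∏ k, ∑ b, φ k b := by
  rw [Finset.prod_univ_sum, Fintype.piFinset_univ]

/-- second moment of a sum of independent centred variables -/
lemma second_moment (p u : ι → ι → ℝ) (hp : ∀ i, ∑ b, p i b = 1)
    (hu : ∀ i, ∑ b, p i b * u i b = 0) :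
    ∑ g : ι → ι, (∏ i, p i (g i)) * (∑ i, u i (g i)) ^ 2 = ∑ i, ∑ b, p i b * u i b ^ 2 := by
  have h1 : ∀ g : ι → ι, (∏ i, p i (g i)) * (∑ i, u i (g i)) ^ 2 =
      ∑ i, ∑ j, ∏ k, (p k (g k) * (if k = i then u i (g k) else 1) *
        (if k = j then u j (g k) else 1)) := by
    intro g
    rw [sq, Finset.sum_mul_sum, Finset.mul_sum]
    apply Finset.sum_congr rfl; intro i _
    rw [Finset.mul_sum]
    apply Finset.sum_congr rfl; intro j _
    rw [Finset.prod_mul_distrib, Finset.prod_mul_distrib, Finset.prod_ite_eq' Finset.univ i,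
      Finset.prod_ite_eq' Finset.univ j, if_pos (Finset.mem_univ i), if_pos (Finset.mem_univ j)]
    ring
  simp only [h1]
  rw [Finset.sum_comm]
  apply Finset.sum_congr rfl
  intro i _
  rw [Finset.sum_comm]
  rw [Finset.sum_eq_single i]
  · rw [sum_fun (fun k b => p k b * (if k = i then u i b else 1) * (if k = i then u i b else 1))]
    rw [← Finset.mul_prod_erase _ _ (Finset.mem_univ i)]
    rw [Finset.prod_eq_one, mul_one]
    · apply Finset.sum_congr rfl; intro b _
      rw [if_pos rfl]; ring
    · intro k hk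
      have hk' : k ≠ i := (Finset.mem_erase.1 hk).1
      simp only [if_neg hk', mul_one]
      exact hp k
  · intro j _ hj
    rw [sum_fun (fun k b => p k b * (if k = i then u i b else 1) * (if k = j then u j b else 1))]
    apply Finset.prod_eq_zero (Finset.mem_univ i)
    have : i ≠ j := fun h => hj h.symm
    simp only [if_pos, if_neg this, mul_one, ite_true]
    exact hu i
  · intro h; exact absurd (Finset.mem_univ i) h

/-- squared Frobenius norm -/
def fr (M : Matrix ι ι ℝ) : ℝ := ∑ a, ∑ b, M a b ^ 2

lemma fr_nonneg (M : Matrix ι ι ℝ) : 0 ≤ fr M :=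
  Finset.sum_nonneg fun _ _ => Finset.sum_nonneg fun _ _ => sq_nonneg _

/-- upper bound for the permanent of a block constant matrix -/
theorem per_up {E : Matrix ι ι ℝ} (hE : Avg E) {X : Matrix ι ι ℝ}
    (hX : X ∈ doublyStochastic ℝ ι) (hEX : E * X = X) :
    X.permanent ≤ E.permanent * (1 - (fr E - fr X) / (Fintype.card ι : ℝ) ^ 3) := by
  classical
  set n : ℝ := (Fintype.card ι : ℝ) with hn
  have hXn : ∀ a b, 0 ≤ X a b := fun a b => nonneg_of_mem_doublyStochastic hX
  have hXc : ∀ b, ∑ a, X a b = 1 := sum_col_of_mem_doublyStochastic hX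
  have hXr : ∀ a, ∑ b, X a b = 1 := sum_row_of_mem_doublyStochastic hX
  have hEXe : ∀ a i, ∑ b, E a b * X b i = X a i := fun a i => by
    have := congrFun (congrFun hEX a) i
    rwa [Matrix.mul_apply] at this
  set w : (ι → ι) → ℝ := fun g => ∏ i, X (g i) i with hw
  have hw0 : ∀ g, 0 ≤ w g := fun g => Finset.prod_nonneg fun i _ => hXn _ _
  have hw1 : ∑ g, w g = 1 := by
    rw [hw, sum_fun (fun k b => X b k)]
    exact Finset.prod_eq_one fun i _ => hXc i
  -- expansion
  have hexp : X.permanent = ∑ g : ι → ι, w g * (E.submatrix id g).permanent := by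
    unfold Matrix.permanent
    have h1 : ∀ σ : Equiv.Perm ι, ∏ i, X (σ i) i = ∑ g : ι → ι, ∏ i, (E (σ i) (g i) * X (g i) i) := by
      intro σ
      rw [sum_fun (fun k b => E (σ k) b * X b k)]
      apply Finset.prod_congr rfl; intro i _
      exact (hEXe _ _).symm
    simp only [h1]
    rw [Finset.sum_comm]
    apply Finset.sum_congr rfl; intro g _
    rw [Finset.mul_sum]
    apply Finset.sum_congr rfl; intro σ _
    rw [Finset.prod_mul_distrib, hw]
    simp only [Matrix.submatrix_apply, id]
    ring
  set Z : ι → (ι → ι) → ℝ := fun c g => ∑ i, E c (g i) with hZ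
  have hZ0 : ∀ c g, 0 ≤ Z c g := fun c g => Finset.sum_nonneg fun i _ => hE.nn _ _
  have hE1 : ∀ a b, E a b ≤ 1 := fun a b => le_one_of_mem_doublyStochastic hE.ds
  have hZn : ∀ c g, Z c g ≤ n := by
    intro c g
    calc Z c g ≤ ∑ i : ι, (1 : ℝ) := Finset.sum_le_sum fun i _ => hE1 _ _
      _ = n := by simp [hn]
  have hpE : 0 ≤ E.permanent := Finset.sum_nonneg fun σ _ => Finset.prod_nonneg fun i _ => hE.nn _ _
  rcases isEmpty_or_nonempty ι with hemp | hne
  · have h1 : fr E = 0 := by simp [fr]
    have h2 : fr X = 0 := by simp [fr]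
    rw [h1, h2]
    simp [Matrix.permanent_isEmpty]
  have hn1 : 1 ≤ n := by
    rw [hn]; exact_mod_cast Fintype.card_pos
  have hn0 : 0 < n := by linarith
  -- bound for each g
  have hg : ∀ g, (E.submatrix id g).permanent ≤ E.permanent * (1 - (∑ c, (Z c g - 1) ^ 2) / n ^ 3) := by
    intro g
    by_cases hb : ∃ σ : Equiv.Perm ι, ∀ i, 0 < E (σ i) (g i)
    · obtain ⟨σ, hσ⟩ := hb
      have h1 : ∀ c i, E c (g i) = E c (σ i) := fun c i => (hE.col_eq (hσ i) c).symm
      have h2 : E.submatrix id g = E.submatrix id σ := by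
        ext a i; simp [h1]
      have h3 : ∀ c, Z c g = 1 := by
        intro c
        rw [hZ]
        simp only [h1]
        rw [Equiv.sum_comp σ (fun i => E c i)]
        exact hE.row c
      have h4 : (E.submatrix id σ).permanent = E.permanent := Matrix.permanent_permute_rows σ E
      rw [h2, h4]
      simp [h3]
    · push Not at hb
      have h1 : (E.submatrix id g).permanent = 0 := by
        unfold Matrix.permanent
        apply Finset.sum_eq_zero
        intro σ _
        obtain ⟨i, hi⟩ := hb σ
        apply Finset.prod_eq_zero (Finset.mem_univ i)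
        exact le_antisymm hi (hE.nn _ _)
      rw [h1]
      apply mul_nonneg hpE
      have h2 : ∑ c, (Z c g - 1) ^ 2 ≤ n ^ 3 := by
        calc ∑ c, (Z c g - 1) ^ 2 ≤ ∑ c : ι, n ^ 2 := by
              apply Finset.sum_le_sum; intro c _
              apply sq_le_sq'
              · have := hZ0 c g; linarith
              · have := hZn c g; linarith
          _ = n ^ 3 := by simp [hn]; ring
      rw [sub_nonneg, div_le_one (by positivity)]
      exact h2
  -- second moments
  have hsec : ∀ c, ∑ g, w g * (Z c g - 1) ^ 2 = ∑ b, E c b ^ 2 - ∑ i, X c i ^ 2 := by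
    intro c
    have h1 := second_moment (fun i b => X b i) (fun i b => E c b - X c i) (fun i => hXc i) (by
      intro i
      simp only [mul_sub, Finset.sum_sub_distrib]
      rw [← Finset.sum_mul, hXc, one_mul]
      have := hEXe c i
      rw [← this]
      rw [sub_eq_zero]
      apply Finset.sum_congr rfl; intro b _; ring)
    have h2 : ∀ g : ι → ι, ∑ i, (E c (g i) - X c i) = Z c g - 1 := by
      intro g
      rw [Finset.sum_sub_distrib, hXr]
    simp only [h2] at h1
    rw [hw, h1]
    have h3 : ∀ i, ∑ b, X b i * (E c b - X c i) ^ 2 = ∑ b, X b i * E c b ^ 2 - X c i ^ 2 := by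
      intro i
      have h4 : ∀ b, X b i * (E c b - X c i) ^ 2 =
          X b i * E c b ^ 2 - 2 * X c i * (E c b * X b i) + X c i ^ 2 * X b i := by
        intro b; ring
      simp only [h4, Finset.sum_add_distrib, Finset.sum_sub_distrib, ← Finset.mul_sum, hEXe, hXc]
      ring
    simp only [h3, Finset.sum_sub_distrib]
    rw [Finset.sum_comm]
    congr 1
    apply Finset.sum_congr rfl; intro b _
    rw [← Finset.sum_mul, hXr, one_mul]
  calc X.permanent = ∑ g : ι → ι, w g * (E.submatrix id g).permanent := hexp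
    _ ≤ ∑ g, w g * (E.permanent * (1 - (∑ c, (Z c g - 1) ^ 2) / n ^ 3)) :=
        Finset.sum_le_sum fun g _ => mul_le_mul_of_nonneg_left (hg g) (hw0 g)
    _ = E.permanent * (1 - (fr E - fr X) / n ^ 3) := by
        have h1 : ∀ g, w g * (E.permanent * (1 - (∑ c, (Z c g - 1) ^ 2) / n ^ 3)) =
            E.permanent * (w g - (∑ c, w g * (Z c g - 1) ^ 2) / n ^ 3) := by
          intro g
          rw [← Finset.mul_sum]; ring
        simp only [h1]
        rw [← Finset.mul_sum, Finset.sum_sub_distrib, hw1, ← Finset.sum_div, Finset.sum_comm]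
        simp only [hsec, Finset.sum_sub_distrib]
        rfl

end Pool.Agent.H450R3.Fg
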