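import Mathlib
import Pool.Agent.H450R3.FgUp

set_option autoImplicit false
open scoped BigOperators
open Matrix

namespace Pool.Agent.H450R3.Fg

variable {ι : Type} [Fintype ι] [DecidableEq ι]

/-- first order expansion of a product -/
lemma prod_exp1 (s : Finset ι) (x r : ι → ℝ) (ρ : ℝ) (hρ0 : 0 ≤ ρ) (hρ : ρ ≤ 1)
    (hx : ∀ i, |x i| ≤ 1) (hr : ∀ i, |r i| ≤ ρ) :
    |∏ i ∈ s, (x i + r i) - ∏ i ∈ s, x i - ∑ i ∈ s, r i * ∏ j ∈ s.erase i, x j| ≤
      4 ^ s.card * ρ ^ 2 := by
  induction s using Finset.induction_on with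
  | empty => simp; positivity
  | insert a s ha ih =>
    rw [Finset.prod_insert ha, Finset.prod_insert ha, Finset.sum_insert ha,
      Finset.erase_insert ha, Finset.card_insert_of_notMem ha]
    have h1 : ∑ i ∈ s, r i * ∏ j ∈ (insert a s).erase i, x j =
        x a * ∑ i ∈ s, r i * ∏ j ∈ s.erase i, x j := by
      rw [Finset.mul_sum]
      apply Finset.sum_congr rfl
      intro i hi
      have hia : i ≠ a := fun h => ha (h ▸ hi)
      rw [Finset.erase_insert_of_ne hia.symm, Finset.prod_insert (by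
        rw [Finset.mem_erase]; exact fun h => ha h.2)]
      ring
    rw [h1]
    set P := ∏ i ∈ s, x i
    set L := ∑ i ∈ s, r i * ∏ j ∈ s.erase i, x j
    set T := ∏ i ∈ s, (x i + r i)
    have h2 : (x a + r a) * T - x a * P - (r a * P + x a * L) =
        (x a + r a) * (T - P - L) + r a * L := by ring
    rw [h2]
    have hL : |L| ≤ s.card * ρ := by
      refine (Finset.abs_sum_le_sum_abs _ _).trans ?_
      calc ∑ i ∈ s, |r i * ∏ j ∈ s.erase i, x j| ≤ ∑ i ∈ s, ρ := by
            apply Finset.sum_le_sum; intro i _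
            rw [abs_mul, Finset.abs_prod]
            have h3 : ∏ j ∈ s.erase i, |x j| ≤ 1 :=
              Finset.prod_le_one (fun j _ => abs_nonneg _) (fun j _ => hx j)
            have h4 : 0 ≤ ∏ j ∈ s.erase i, |x j| := Finset.prod_nonneg fun j _ => abs_nonneg _
            calc |r i| * ∏ j ∈ s.erase i, |x j| ≤ ρ * 1 :=
                  mul_le_mul (hr i) h3 h4 hρ0
              _ = ρ := mul_one ρ
        _ = s.card * ρ := by simp
    have hxr : |x a + r a| ≤ 2 := by
      refine (abs_add_le _ _).trans ?_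
      have := hx a; have := hr a; linarith
    have hcard : (s.card : ℝ) ≤ 2 * 4 ^ s.card := by
      have h5 : s.card < 4 ^ s.card := Nat.lt_pow_self (by norm_num)
      have h6 : (s.card : ℝ) < 4 ^ s.card := by exact_mod_cast h5
      have h7 : (0 : ℝ) < 4 ^ s.card := by positivity
      linarith
    calc |(x a + r a) * (T - P - L) + r a * L| ≤ |x a + r a| * |T - P - L| + |r a| * |L| := by
          refine (abs_add_le _ _).trans ?_
          rw [abs_mul, abs_mul]
      _ ≤ 2 * (4 ^ s.card * ρ ^ 2) + ρ * (s.card * ρ) := by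
          apply add_le_add
          · exact mul_le_mul hxr ih (abs_nonneg _) (by norm_num)
          · exact mul_le_mul (hr a) hL (abs_nonneg _) hρ0
      _ ≤ 2 * (4 ^ s.card * ρ ^ 2) + (2 * 4 ^ s.card) * ρ ^ 2 := by
          have : ρ * (s.card * ρ) = s.card * ρ ^ 2 := by ring
          rw [this]
          have := mul_le_mul_of_nonneg_right hcard (sq_nonneg ρ)
          linarith
      _ = 4 ^ (s.card + 1) * ρ ^ 2 := by rw [pow_succ]; ring

/-- second order expansion of a product -/
lemma prod_exp2 (s : Finset ι) (h : ι → ℝ) :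
    |∏ i ∈ s, (1 + h i) - 1 - ∑ i ∈ s, h i - ((∑ i ∈ s, h i) ^ 2 - ∑ i ∈ s, h i ^ 2) / 2| ≤
      (2 + ∑ i ∈ s, |h i|) ^ s.card * (∑ i ∈ s, |h i|) ^ 3 := by
  induction s using Finset.induction_on with
  | empty => simp
  | insert a s ha ih =>
    rw [Finset.prod_insert ha, Finset.sum_insert ha, Finset.sum_insert ha, Finset.sum_insert ha,
      Finset.card_insert_of_notMem ha]
    set P := ∏ i ∈ s, (1 + h i)
    set S := ∑ i ∈ s, h i
    set Q := ∑ i ∈ s, h i ^ 2
    set T := ∑ i ∈ s, |h i|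
    have hT : 0 ≤ T := Finset.sum_nonneg fun i _ => abs_nonneg _
    have hST : |S| ≤ T := Finset.abs_sum_le_sum_abs _ _
    have hQ0 : 0 ≤ Q := Finset.sum_nonneg fun i _ => sq_nonneg _
    have hQT : Q ≤ T ^ 2 := by
      have : Q = ∑ i ∈ s, |h i| ^ 2 := Finset.sum_congr rfl fun i _ => (sq_abs _).symm
      rw [this]
      exact Finset.sum_sq_le_sq_sum_of_nonneg fun i _ => abs_nonneg _
    have h1 : (1 + h a) * P - 1 - (h a + S) - ((h a + S) ^ 2 - (h a ^ 2 + Q)) / 2 =
        (1 + h a) * (P - 1 - S - (S ^ 2 - Q) / 2) + h a * ((S ^ 2 - Q) / 2) := by ring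
    rw [h1]
    have h2 : |(S ^ 2 - Q) / 2| ≤ T ^ 2 := by
      have hS2 : S ^ 2 ≤ T ^ 2 := by
        rw [← sq_abs]; exact pow_le_pow_left₀ (abs_nonneg _) hST 2
      rw [abs_le]
      constructor <;> nlinarith [sq_nonneg S, sq_nonneg T]
    have h3 : |1 + h a| ≤ 2 + (|h a| + T) := by
      refine (abs_add_le _ _).trans ?_
      rw [abs_one]
      have := abs_nonneg (h a)
      linarith
    have hb : 0 ≤ |h a| := abs_nonneg _
    have hK : (1 : ℝ) ≤ (2 + (|h a| + T)) ^ (s.card + 1) := one_le_pow₀ (by linarith)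
    have hK2 : (2 + T) ^ s.card ≤ (2 + (|h a| + T)) ^ s.card :=
      pow_le_pow_left₀ (by linarith) (by linarith) _
    calc |(1 + h a) * (P - 1 - S - (S ^ 2 - Q) / 2) + h a * ((S ^ 2 - Q) / 2)| ≤
          |1 + h a| * |P - 1 - S - (S ^ 2 - Q) / 2| + |h a| * |(S ^ 2 - Q) / 2| := by
          refine (abs_add_le _ _).trans ?_
          rw [abs_mul, abs_mul]
      _ ≤ (2 + (|h a| + T)) * ((2 + (|h a| + T)) ^ s.card * T ^ 3) + |h a| * T ^ 2 := by
          apply add_le_add
          · apply mul_le_mul h3 _ (abs_nonneg _) (by linarith)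
            refine ih.trans ?_
            exact mul_le_mul_of_nonneg_right hK2 (by positivity)
          · exact mul_le_mul_of_nonneg_left h2 hb
      _ ≤ (2 + (|h a| + T)) ^ (s.card + 1) * (|h a| + T) ^ 3 := by
          rw [pow_succ (2 + (|h a| + T)) s.card]
          rw [pow_succ (2 + (|h a| + T)) s.card] at hK
          set K := (2 + (|h a| + T)) ^ s.card * (2 + (|h a| + T))
          have h5 : (2 + (|h a| + T)) * ((2 + (|h a| + T)) ^ s.card * T ^ 3) = K * T ^ 3 := by
            ring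
          rw [h5]
          have h6 : T ^ 3 + |h a| * T ^ 2 ≤ (|h a| + T) ^ 3 := by
            have h7 : 0 ≤ |h a| * T ^ 2 := by positivity
            have h8 : 0 ≤ |h a| ^ 2 * T := by positivity
            have h9 : 0 ≤ |h a| ^ 3 := by positivity
            nlinarith
          have h7 : |h a| * T ^ 2 ≤ K * (|h a| * T ^ 2) := by
            have : 0 ≤ |h a| * T ^ 2 := by positivity
            nlinarith
          calc K * T ^ 3 + |h a| * T ^ 2 ≤ K * T ^ 3 + K * (|h a| * T ^ 2) := by linarith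
            _ = K * (T ^ 3 + |h a| * T ^ 2) := by ring
            _ ≤ K * (|h a| + T) ^ 3 := mul_le_mul_of_nonneg_left h6 (by linarith)

/-! ### cofactors -/

/-- permanental cofactor -/
noncomputable def cc (X : Matrix ι ι ℝ) (a i : ι) : ℝ :=
  ∑ σ : Equiv.Perm ι, if σ i = a then ∏ j ∈ Finset.univ.erase i, X (σ j) j else 0

lemma cc_expand (X : Matrix ι ι ℝ) (v : ι → ℝ) (i : ι) :
    ∑ σ : Equiv.Perm ι, v (σ i) * ∏ j ∈ Finset.univ.erase i, X (σ j) j = ∑ a, v a * cc X a i := by
  unfold cc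
  simp only [Finset.mul_sum]
  rw [Finset.sum_comm]
  apply Finset.sum_congr rfl
  intro σ _
  simp

lemma cc_row {X : Matrix ι ι ℝ} {a a' : ι} (h : ∀ j, X a j = X a' j) (i : ι) :
    cc X a i = cc X a' i := by
  unfold cc
  rw [← Equiv.sum_comp (Equiv.mulLeft (Equiv.swap a a'))]
  apply Finset.sum_congr rfl
  intro σ _
  have h1 : (Equiv.mulLeft (Equiv.swap a a')) σ = Equiv.swap a a' * σ := rfl
  rw [h1]
  have h2 : ((Equiv.swap a a' * σ) i = a) ↔ (σ i = a') := by
    rw [Equiv.Perm.mul_apply]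
    constructor
    · intro h3
      have := congrArg (Equiv.swap a a') h3
      simpa using this
    · intro h3; rw [h3]; simp
  have h3 : ∀ b j, X (Equiv.swap a a' b) j = X b j := by
    intro b j
    rcases eq_or_ne b a with hb | hb
    · rw [hb, Equiv.swap_apply_left]; exact (h j).symm
    · rcases eq_or_ne b a' with hb' | hb'
      · rw [hb', Equiv.swap_apply_right]; exact h j
      · rw [Equiv.swap_apply_of_ne_of_ne hb hb']
  rw [Equiv.Perm.mul_apply] at h2
  simp only [Equiv.Perm.mul_apply, h3]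
  by_cases hc : σ i = a'
  · rw [if_pos (h2.2 hc), if_pos hc]
  · rw [if_neg (fun h => hc (h2.1 h)), if_neg hc]

lemma cc_transpose (X : Matrix ι ι ℝ) (a i : ι) : cc Xᵀ i a = cc X a i := by
  unfold cc
  rw [← Equiv.sum_comp (Equiv.inv (Equiv.Perm ι))]
  apply Finset.sum_congr rfl
  intro σ _
  have h0 : (Equiv.inv (Equiv.Perm ι)) σ = σ⁻¹ := rfl
  rw [h0]
  have h1 : (σ⁻¹ a = i) ↔ (σ i = a) := by
    constructor
    · intro h; rw [← h]; simp
    · intro h; rw [← h]; simp
  by_cases h2 : σ i = a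
  · rw [if_pos (h1.2 h2), if_pos h2]
    refine Finset.prod_bij' (fun j _ => σ⁻¹ j) (fun j _ => σ j) ?_ ?_ ?_ ?_ ?_
    · intro j hj
      rw [Finset.mem_erase] at hj ⊢
      refine ⟨fun h => hj.1 ?_, Finset.mem_univ _⟩
      rw [← h2, ← h]; simp
    · intro j hj
      rw [Finset.mem_erase] at hj ⊢
      refine ⟨fun h => hj.1 ?_, Finset.mem_univ _⟩
      apply σ.injective
      rw [h, h2]
    · intro j _; simp
    · intro j _; simp
    · intro j _; simp
  · rw [if_neg (fun h => h2 (h1.1 h)), if_neg h2]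

lemma cc_col {X : Matrix ι ι ℝ} {i i' : ι} (h : ∀ a, X a i = X a i') (a : ι) :
    cc X a i = cc X a i' := by
  rw [← cc_transpose X a i, ← cc_transpose X a i']
  exact cc_row (X := Xᵀ) (fun j => h j) a

/-- the linear term vanishes -/
lemma lin_zero {E : Matrix ι ι ℝ} (hE : Avg E) {X R : Matrix ι ι ℝ} (h1 : E * X = X)
    (h2 : X * E = X) (h3 : E * R * E = 0) : ∑ i, ∑ a, R a i * cc X a i = 0 := by
  have hrow : ∀ a b, 0 < E a b → ∀ j, X a j = X b j := by
    intro a b hab j
    have e1 : (E * X) a j = (E * X) b j := by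
      rw [Matrix.mul_apply, Matrix.mul_apply]
      apply Finset.sum_congr rfl; intro c _
      rw [hE.row_eq hab c]
    rwa [h1] at e1
  have hcol : ∀ a b, 0 < E a b → ∀ j, X j a = X j b := by
    intro a b hab j
    have e1 : (X * E) j a = (X * E) j b := by
      rw [Matrix.mul_apply, Matrix.mul_apply]
      apply Finset.sum_congr rfl; intro c _
      rw [hE.col_eq hab c]
    rwa [h2] at e1
  -- class averaging
  have key : ∀ (i : ι), ∑ a, R a i * cc X a i = ∑ a, (E * R) a i * cc X a i := by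
    intro i
    have h4 : ∑ a, (E * R) a i * cc X a i = ∑ a, ∑ b, E a b * R b i * cc X b i := by
      apply Finset.sum_congr rfl; intro a _
      rw [Matrix.mul_apply, Finset.sum_mul]
      apply Finset.sum_congr rfl; intro b _
      rcases (hE.nn a b).lt_or_eq with hab | hab
      · rw [cc_row (hrow a b hab) i]
      · rw [← hab]; ring
    rw [h4, Finset.sum_comm]
    apply Finset.sum_congr rfl; intro b _
    have h5 : ∑ a, E a b * R b i * cc X b i = (∑ a, E a b) * (R b i * cc X b i) := by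
      rw [Finset.sum_mul]
      apply Finset.sum_congr rfl; intro a _; ring
    rw [h5, hE.col, one_mul]
  have key2 : ∀ (a : ι) (S : Matrix ι ι ℝ), ∑ i, S a i * cc X a i = ∑ i, (S * E) a i * cc X a i := by
    intro a S
    have h4 : ∑ i, (S * E) a i * cc X a i = ∑ i, ∑ b, S a b * E b i * cc X a b := by
      apply Finset.sum_congr rfl; intro i _
      rw [Matrix.mul_apply, Finset.sum_mul]
      apply Finset.sum_congr rfl; intro b _
      rcases (hE.nn b i).lt_or_eq with hab | hab
      · rw [cc_col (hcol b i hab) a]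
      · rw [← hab]; ring
    rw [h4, Finset.sum_comm]
    apply Finset.sum_congr rfl; intro b _
    have h5 : ∑ i, S a b * E b i * cc X a b = (∑ i, E b i) * (S a b * cc X a b) := by
      rw [Finset.sum_mul]
      apply Finset.sum_congr rfl; intro i _; ring
    rw [h5, hE.row, one_mul]
  simp only [key]
  rw [Finset.sum_comm]
  simp only [key2 _ (E * R), h3]
  simp

/-- second order perturbation bound -/
theorem per_pert {E : Matrix ι ι ℝ} (hE : Avg E) {X R : Matrix ι ι ℝ}
    (hX : X ∈ doublyStochastic ℝ ι) (h1 : E * X = X)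
    (h2 : X * E = X) (h3 : E * R * E = 0) (ρ : ℝ) (hρ0 : 0 ≤ ρ) (hρ : ρ ≤ 1)
    (hR : ∀ a b, |R a b| ≤ ρ) :
    (X + R).permanent ≤ X.permanent +
      (Fintype.card ι).factorial * 4 ^ (Fintype.card ι) * ρ ^ 2 := by
  have hlin : ∑ σ : Equiv.Perm ι, ∑ i, R (σ i) i * ∏ j ∈ Finset.univ.erase i, X (σ j) j = 0 := by
    rw [Finset.sum_comm]
    rw [← lin_zero hE h1 h2 h3]
    apply Finset.sum_congr rfl; intro i _
    exact cc_expand X (fun a => R a i) i
  have hb : ∀ σ : Equiv.Perm ι, ∏ i, (X (σ i) i + R (σ i) i) ≤ ∏ i, X (σ i) i +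
      ∑ i, R (σ i) i * ∏ j ∈ Finset.univ.erase i, X (σ j) j + 4 ^ (Fintype.card ι) * ρ ^ 2 := by
    intro σ
    have h4 := prod_exp1 Finset.univ (fun i => X (σ i) i) (fun i => R (σ i) i) ρ hρ0 hρ (by
      intro i
      rw [abs_of_nonneg (nonneg_of_mem_doublyStochastic hX)]
      exact le_one_of_mem_doublyStochastic hX) (fun i => hR _ _)
    have h5 := (abs_le.1 h4).2
    rw [Finset.card_univ] at h5
    linarith
  calc (X + R).permanent = ∑ σ : Equiv.Perm ι, ∏ i, (X (σ i) i + R (σ i) i) := rfl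
    _ ≤ ∑ σ : Equiv.Perm ι, (∏ i, X (σ i) i +
      ∑ i, R (σ i) i * ∏ j ∈ Finset.univ.erase i, X (σ j) j + 4 ^ (Fintype.card ι) * ρ ^ 2) :=
        Finset.sum_le_sum fun σ _ => hb σ
    _ = _ := by
        rw [Finset.sum_add_distrib, Finset.sum_add_distrib, hlin]
        rw [Finset.sum_const, Finset.card_univ, Fintype.card_perm, nsmul_eq_mul]
        unfold Matrix.permanent
        ring

end Pool.Agent.H450R3.Fg
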