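import Mathlib
import Pool.Agent.H450R3.FgLin

set_option autoImplicit false
open scoped BigOperators
open Matrix

namespace Pool.Agent.H450R3.Fg

variable {ι : Type} [Fintype ι] [DecidableEq ι]

open Classical in
/-- class preserving permutations -/
noncomputable def Gam (E : Matrix ι ι ℝ) : Finset (Equiv.Perm ι) :=
  Finset.univ.filter (fun σ => ∀ k, 0 < E (σ k) k)

lemma mem_Gam {E : Matrix ι ι ℝ} {σ : Equiv.Perm ι} : σ ∈ Gam E ↔ ∀ k, 0 < E (σ k) k := by
  unfold Gam
  rw [Finset.mem_filter]
  simp

lemma Gam_shift {E : Matrix ι ι ℝ} (hE : Avg E) {γ : Equiv.Perm ι} (hγ : ∀ k, 0 < E (γ k) k)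
    (f : Equiv.Perm ι → ℝ) : ∑ σ ∈ Gam E, f (γ * σ) = ∑ σ ∈ Gam E, f σ := by
  refine Finset.sum_equiv (Equiv.mulLeft γ) ?_ ?_
  · intro σ
    rw [mem_Gam, mem_Gam]
    constructor
    · intro h k
      exact hE.trans (hγ (σ k)) (h k)
    · intro h k
      exact hE.trans (hE.pos_symm (hγ (σ k))) (h k)
  · intro σ _; rfl

lemma swap_Gam {E : Matrix ι ι ℝ} (hE : Avg E) {a b : ι} (h : 0 < E a b) (k : ι) :
    0 < E (Equiv.swap a b k) k := by
  rcases eq_or_ne k a with hk | hk
  · rw [hk, Equiv.swap_apply_left]; exact hE.pos_symm h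
  · rcases eq_or_ne k b with hk' | hk'
    · rw [hk', Equiv.swap_apply_right]; exact h
    · rw [Equiv.swap_apply_of_ne_of_ne hk hk']; exact hE.diag_pos k

/-- one point function -/
lemma one_pt {E : Matrix ι ι ℝ} (hE : Avg E) (i : ι) (u : ι → ℝ) :
    ∑ σ ∈ Gam E, u (σ i) = (Gam E).card * ∑ a, E a i * u a := by
  have hT : ∀ a, (∑ σ ∈ Gam E, if σ i = a then (1 : ℝ) else 0) * E i i =
      (∑ σ ∈ Gam E, if σ i = i then (1 : ℝ) else 0) * E a i := by
    intro a
    rcases (hE.nn a i).lt_or_eq with h | h
    · have h1 : E a i = E i i := (hE.col_eq h a).symm.trans (hE.diag_eq' h).symm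
      rw [h1]
      congr 1
      rw [← Gam_shift hE (swap_Gam hE h) (fun σ => if σ i = a then (1 : ℝ) else 0)]
      apply Finset.sum_congr rfl
      intro σ _
      have h2 : ((Equiv.swap a i * σ) i = a) ↔ (σ i = i) := by
        rw [Equiv.Perm.mul_apply]
        constructor
        · intro h3
          have := congrArg (Equiv.swap a i) h3
          simpa using this
        · intro h3; rw [h3]; simp
      by_cases hc : σ i = i
      · rw [if_pos (h2.2 hc), if_pos hc]
      · rw [if_neg (fun h => hc (h2.1 h)), if_neg hc]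
    · rw [← h, mul_zero]
      have : ∑ σ ∈ Gam E, (if σ i = a then (1 : ℝ) else 0) = 0 := by
        apply Finset.sum_eq_zero
        intro σ hσ
        rw [if_neg]
        intro h3
        have := mem_Gam.1 hσ i
        rw [h3, ← h] at this
        exact lt_irrefl _ this
      rw [this, zero_mul]
  have hsum : ∑ a, (∑ σ ∈ Gam E, if σ i = a then (1 : ℝ) else 0) = (Gam E).card := by
    rw [Finset.sum_comm]
    simp
  have h1 : ((Gam E).card : ℝ) * E i i = ∑ σ ∈ Gam E, if σ i = i then (1 : ℝ) else 0 := by
    rw [← hsum, Finset.sum_mul]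
    simp only [hT]
    rw [← Finset.mul_sum, hE.col, mul_one]
  have hpos := hE.diag_pos i
  have h2 : ∀ a, (∑ σ ∈ Gam E, if σ i = a then (1 : ℝ) else 0) = (Gam E).card * E a i := by
    intro a
    have := hT a
    rw [← h1] at this
    have h3 : (∑ σ ∈ Gam E, if σ i = a then (1 : ℝ) else 0) * E i i =
        ((Gam E).card * E a i) * E i i := by rw [this]; ring
    exact mul_right_cancel₀ hpos.ne' h3
  have h3 : ∑ σ ∈ Gam E, u (σ i) = ∑ a, (∑ σ ∈ Gam E, if σ i = a then (1 : ℝ) else 0) * u a := by
    simp only [Finset.sum_mul]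
    rw [Finset.sum_comm]
    apply Finset.sum_congr rfl
    intro σ _
    simp
  rw [h3]
  simp only [h2]
  rw [Finset.mul_sum]
  apply Finset.sum_congr rfl; intro a _; ring

/-- two point function -/
lemma two_pt {E : Matrix ι ι ℝ} (hE : Avg E) {i j : ι} (hij : i ≠ j) (u v : ι → ℝ) :
    (1 - E i j) * ∑ σ ∈ Gam E, u (σ i) * v (σ j) =
      (Gam E).card * ((∑ a, E a i * u a) * (∑ b, E b j * v b) -
        ∑ a, E a i * E a j * (u a * v a)) := by
  set T : ι → ι → ℝ := fun a b => ∑ σ ∈ Gam E, if σ i = a ∧ σ j = b then (1 : ℝ) else 0 with hTdef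
  have hT : ∀ a b, T a b * (E i i * E j j) = T i j * (E a i * E b j * (if a = b then 0 else 1)) := by
    intro a b
    by_cases hadm : 0 < E a i ∧ 0 < E b j ∧ a ≠ b
    · obtain ⟨hai, hbj, hab⟩ := hadm
      have h1 : E a i = E i i := (hE.col_eq hai a).symm.trans (hE.diag_eq' hai).symm
      have h1' : E b j = E j j := (hE.col_eq hbj b).symm.trans (hE.diag_eq' hbj).symm
      rw [if_neg hab, h1, h1', mul_one]
      congr 1
      set x : ι := Equiv.swap a i j with hx
      have hxa : x ≠ a := by
        intro h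
        apply hij
        have h2 := congrArg (Equiv.swap a i) h
        rw [hx] at h2
        simp only [Equiv.swap_apply_self, Equiv.swap_apply_left] at h2
        exact h2.symm
      have hxj : 0 < E x j := swap_Gam hE hai j
      have hbx : 0 < E b x := hE.trans hbj (hE.pos_symm hxj)
      set γ : Equiv.Perm ι := Equiv.swap b x * Equiv.swap a i with hγ
      have hγG : ∀ k, 0 < E (γ k) k := by
        intro k
        rw [hγ, Equiv.Perm.mul_apply]
        exact hE.trans (swap_Gam hE hbx _) (swap_Gam hE hai k)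
      have hγi : γ i = a := by
        rw [hγ, Equiv.Perm.mul_apply, Equiv.swap_apply_right,
          Equiv.swap_apply_of_ne_of_ne hab hxa.symm]
      have hγj : γ j = b := by
        rw [hγ, Equiv.Perm.mul_apply, ← hx, Equiv.swap_apply_right]
      rw [hTdef]
      simp only
      rw [← Gam_shift hE hγG (fun σ => if σ i = a ∧ σ j = b then (1 : ℝ) else 0)]
      apply Finset.sum_congr rfl
      intro σ _
      have h2 : ((γ * σ) i = a ∧ (γ * σ) j = b) ↔ (σ i = i ∧ σ j = j) := by
        change (γ (σ i) = a ∧ γ (σ j) = b) ↔ (σ i = i ∧ σ j = j)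
        constructor
        · rintro ⟨h3, h4⟩
          exact ⟨γ.injective (h3.trans hγi.symm), γ.injective (h4.trans hγj.symm)⟩
        · rintro ⟨h3, h4⟩; rw [h3, h4]; exact ⟨hγi, hγj⟩
      by_cases hc : σ i = i ∧ σ j = j
      · rw [if_pos (h2.2 hc), if_pos hc]
      · rw [if_neg (fun h => hc (h2.1 h)), if_neg hc]
    · have h0 : T a b = 0 := by
        apply Finset.sum_eq_zero
        intro σ hσ
        rw [if_neg]
        rintro ⟨h3, h4⟩
        apply hadm
        refine ⟨?_, ?_, ?_⟩
        · rw [← h3]; exact mem_Gam.1 hσ i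
        · rw [← h4]; exact mem_Gam.1 hσ j
        · rw [← h3, ← h4]; exact fun h => hij (σ.injective h)
      rw [h0, zero_mul]
      have h5 : E a i * E b j * (if a = b then 0 else 1) = (0 : ℝ) := by
        by_cases hab : a = b
        · rw [if_pos hab, mul_zero]
        · rw [if_neg hab, mul_one]
          by_contra hne
          apply hadm
          refine ⟨lt_of_le_of_ne (hE.nn a i) ?_, lt_of_le_of_ne (hE.nn b j) ?_, hab⟩
          · intro h; apply hne; rw [← h, zero_mul]
          · intro h; apply hne; rw [← h, mul_zero]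
      rw [h5, mul_zero]
  have hsum : ∑ a, ∑ b, T a b = (Gam E).card := by
    rw [hTdef]
    simp only
    have : ∀ a, ∑ b, ∑ σ ∈ Gam E, (if σ i = a ∧ σ j = b then (1 : ℝ) else 0) =
        ∑ σ ∈ Gam E, if σ i = a then (1 : ℝ) else 0 := by
      intro a
      rw [Finset.sum_comm]
      apply Finset.sum_congr rfl; intro σ _
      by_cases h : σ i = a
      · simp [h]
      · simp [h]
    simp only [this]
    rw [Finset.sum_comm]
    simp
  have hEE : ∑ a, E a i * E a j = E i j := by
    have := congrFun (congrFun hE.idem i) j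
    rw [Matrix.mul_apply] at this
    rw [← this]
    apply Finset.sum_congr rfl; intro a _
    rw [hE.symm a i]
  have hite : ∀ (f : ι → ι → ℝ), ∑ a, ∑ b, f a b * (if a = b then 0 else 1) =
      ∑ a, ∑ b, f a b - ∑ a, f a a := by
    intro f
    rw [← Finset.sum_sub_distrib]
    apply Finset.sum_congr rfl; intro a _
    have h6 : ∀ b, f a b * (if a = b then (0 : ℝ) else 1) = f a b - (if a = b then f a b else 0) := by
      intro b; split_ifs <;> ring
    simp only [h6, Finset.sum_sub_distrib]
    simp
  have h1 : ((Gam E).card : ℝ) * (E i i * E j j) = T i j * (1 - E i j) := by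
    rw [← hsum, Finset.sum_mul]
    simp only [Finset.sum_mul, hT]
    simp only [← Finset.mul_sum]
    rw [hite]
    congr 2
    · simp only [← Finset.mul_sum, hE.col, mul_one]
  have hpos : 0 < E i i * E j j := mul_pos (hE.diag_pos i) (hE.diag_pos j)
  have h2 : ∀ a b, (1 - E i j) * T a b = (Gam E).card * (E a i * E b j * (if a = b then 0 else 1)) := by
    intro a b
    have h3 := hT a b
    have h4 : ((1 - E i j) * T a b) * (E i i * E j j) =
        ((Gam E).card * (E a i * E b j * (if a = b then 0 else 1))) * (E i i * E j j) := by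
      calc ((1 - E i j) * T a b) * (E i i * E j j) = (1 - E i j) * (T a b * (E i i * E j j)) := by ring
        _ = (1 - E i j) * (T i j * (E a i * E b j * (if a = b then 0 else 1))) := by rw [h3]
        _ = (T i j * (1 - E i j)) * (E a i * E b j * (if a = b then 0 else 1)) := by ring
        _ = _ := by rw [← h1]; ring
    exact mul_right_cancel₀ hpos.ne' h4
  have h3 : ∑ σ ∈ Gam E, u (σ i) * v (σ j) = ∑ a, ∑ b, T a b * (u a * v b) := by
    rw [hTdef]
    simp only [Finset.sum_mul]
    have h7 : ∀ a, ∑ b, ∑ σ ∈ Gam E, (if σ i = a ∧ σ j = b then (1 : ℝ) else 0) * (u a * v b) =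
        ∑ σ ∈ Gam E, if σ i = a then u a * v (σ j) else 0 := by
      intro a
      rw [Finset.sum_comm]
      apply Finset.sum_congr rfl; intro σ _
      by_cases h : σ i = a
      · simp [h]
      · simp [h]
    simp only [h7]
    rw [Finset.sum_comm]
    apply Finset.sum_congr rfl; intro σ _
    simp
  rw [h3, Finset.mul_sum]
  have h8 : ∀ a, (1 - E i j) * ∑ b, T a b * (u a * v b) =
      (Gam E).card * ∑ b, (E a i * u a * (E b j * v b)) * (if a = b then 0 else 1) := by
    intro a
    rw [Finset.mul_sum, Finset.mul_sum]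
    apply Finset.sum_congr rfl; intro b _
    calc (1 - E i j) * (T a b * (u a * v b)) = ((1 - E i j) * T a b) * (u a * v b) := by ring
      _ = _ := by rw [h2]; ring
  simp only [h8]
  rw [← Finset.mul_sum, hite]
  congr 2
  · rw [Finset.sum_mul_sum]
  · apply Finset.sum_congr rfl; intro a _; ring

end Pool.Agent.H450R3.Fg
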