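import Mathlib
import Pool.Agent.H450R3.FgLow

set_option autoImplicit false
open scoped BigOperators
open Matrix

namespace Pool.Agent.H450R3.Fg

variable {ι : Type} [Fintype ι] [DecidableEq ι]

open Classical in
/-- difference on the blocks -/
noncomputable def Fm (E B : Matrix ι ι ℝ) (a i : ι) : ℝ := if 0 < E a i then B a i - E a i else 0

open Classical in
/-- mass off the blocks -/
noncomputable def dl (E B : Matrix ι ι ℝ) : ℝ := ∑ a, ∑ i, if 0 < E a i then 0 else B a i

/-- squared norm of the difference on the blocks -/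
noncomputable def ph (E B : Matrix ι ι ℝ) : ℝ := ∑ a, ∑ i, Fm E B a i ^ 2

lemma Avg.ge {E : Matrix ι ι ℝ} (hE : Avg E) {a b : ι} (h : 0 < E a b) :
    1 / (Fintype.card ι : ℝ) ≤ E a b := by
  classical
  rw [hE.diag_eq h]
  have h1 := hE.card_class a
  have h2 : ((Finset.univ.filter (fun b => 0 < E a b)).card : ℝ) ≤ Fintype.card ι := by
    exact_mod_cast Finset.card_le_univ _
  have h3 := hE.diag_pos a
  have h4 : 1 ≤ (Fintype.card ι : ℝ) * E a a := by
    rw [← h1]; exact mul_le_mul_of_nonneg_right h2 h3.le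
  have h5 : (0 : ℝ) < Fintype.card ι := by
    haveI : Nonempty ι := ⟨a⟩
    exact_mod_cast Fintype.card_pos
  rw [div_le_iff₀ h5]
  linarith

lemma Avg.diag_half {E : Matrix ι ι ℝ} (hE : Avg E) {a b : ι} (h : 0 < E a b) (hab : a ≠ b) :
    E a a ≤ 1 / 2 := by
  have h1 : E a a + E a b ≤ ∑ c, E a c := by
    rw [← Finset.sum_pair hab]
    exact Finset.sum_le_sum_of_subset_of_nonneg (Finset.subset_univ _) (fun c _ _ => hE.nn a c)
  rw [hE.row, hE.diag_eq h] at h1
  linarith

lemma F_col {E B : Matrix ι ι ℝ} (hE : Avg E) (hB : B ∈ doublyStochastic ℝ ι) (i : ι) :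
    ∑ a, Fm E B a i ≤ 0 := by
  classical
  have h1 : ∑ a, Fm E B a i = ∑ a, (B a i - E a i) - ∑ a, (if 0 < E a i then 0 else B a i) := by
    rw [← Finset.sum_sub_distrib]
    apply Finset.sum_congr rfl; intro a _
    unfold Fm
    rcases (hE.nn a i).lt_or_eq with h | h
    · rw [if_pos h, if_pos h]; ring
    · rw [if_neg (by rw [← h]; exact lt_irrefl _), if_neg (by rw [← h]; exact lt_irrefl _), ← h]; ring
  rw [h1, Finset.sum_sub_distrib, hE.col, sum_col_of_mem_doublyStochastic hB]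
  have h2 : 0 ≤ ∑ a, (if 0 < E a i then 0 else B a i) := by
    apply Finset.sum_nonneg; intro a _
    split_ifs
    · exact le_rfl
    · exact nonneg_of_mem_doublyStochastic hB
  linarith

lemma F_row_eq {E B : Matrix ι ι ℝ} (hE : Avg E) (hB : B ∈ doublyStochastic ℝ ι) (a : ι) :
    ∑ i, Fm E B a i = - ∑ i, (open Classical in if 0 < E a i then 0 else B a i) := by
  classical
  have h1 : ∑ i, Fm E B a i = ∑ i, (B a i - E a i) - ∑ i, (if 0 < E a i then 0 else B a i) := by
    rw [← Finset.sum_sub_distrib]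
    apply Finset.sum_congr rfl; intro i _
    unfold Fm
    rcases (hE.nn a i).lt_or_eq with h | h
    · rw [if_pos h, if_pos h]; ring
    · rw [if_neg (by rw [← h]; exact lt_irrefl _), if_neg (by rw [← h]; exact lt_irrefl _), ← h]; ring
  rw [h1, Finset.sum_sub_distrib, hE.row, sum_row_of_mem_doublyStochastic hB]
  ring

lemma F_sum {E B : Matrix ι ι ℝ} (hE : Avg E) (hB : B ∈ doublyStochastic ℝ ι) :
    ∑ i, ∑ a, Fm E B a i = - dl E B := by
  rw [Finset.sum_comm]
  simp only [F_row_eq hE hB]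
  rw [Finset.sum_neg_distrib]
  rfl

lemma dl_nonneg {E B : Matrix ι ι ℝ} (hB : B ∈ doublyStochastic ℝ ι) : 0 ≤ dl E B := by
  apply Finset.sum_nonneg; intro a _
  apply Finset.sum_nonneg; intro i _
  split_ifs
  · exact le_rfl
  · exact nonneg_of_mem_doublyStochastic hB

lemma ph_nonneg (E B : Matrix ι ι ℝ) : 0 ≤ ph E B :=
  Finset.sum_nonneg fun _ _ => Finset.sum_nonneg fun _ _ => sq_nonneg _

lemma F_rowsq {E B : Matrix ι ι ℝ} (hE : Avg E) (hB : B ∈ doublyStochastic ℝ ι) :
    ∑ a, (∑ i, Fm E B a i) ^ 2 ≤ dl E B ^ 2 := by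
  simp only [F_row_eq hE hB, neg_sq]
  unfold dl
  apply Finset.sum_sq_le_sq_sum_of_nonneg
  intro a _
  apply Finset.sum_nonneg; intro i _
  split_ifs
  · exact le_rfl
  · exact nonneg_of_mem_doublyStochastic hB

lemma EF {E B : Matrix ι ι ℝ} (hE : Avg E) (a i : ι) :
    E a i * (Fm E B a i / E a i) = Fm E B a i := by
  rcases (hE.nn a i).lt_or_eq with h | h
  · field_simp
  · rw [← h, zero_mul]
    unfold Fm
    rw [if_neg (by rw [← h]; exact lt_irrefl _)]

lemma Fm_zero {E B : Matrix ι ι ℝ} {a i : ι} (h : ¬ 0 < E a i) : Fm E B a i = 0 := by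
  unfold Fm; rw [if_neg h]

/-- pair correlations -/
lemma pair_low {E B : Matrix ι ι ℝ} (hE : Avg E) (hB : B ∈ doublyStochastic ℝ ι) {i j : ι}
    (hij : i ≠ j) :
    - ∑ a, ((Gam E).card / (1 - E a a)) * (Fm E B a i * Fm E B a j) ≤
      ∑ σ ∈ Gam E, (Fm E B (σ i) i / E (σ i) i) * (Fm E B (σ j) j / E (σ j) j) := by
  have h := two_pt hE hij (fun a => Fm E B a i / E a i) (fun a => Fm E B a j / E a j)
  simp only [EF hE] at h
  have h1 : ∑ a, E a i * E a j * (Fm E B a i / E a i * (Fm E B a j / E a j)) =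
      ∑ a, Fm E B a i * Fm E B a j := by
    apply Finset.sum_congr rfl; intro a _
    rw [← EF hE a i, ← EF hE a j, EF hE a i, EF hE a j]
    calc E a i * E a j * (Fm E B a i / E a i * (Fm E B a j / E a j)) =
        (E a i * (Fm E B a i / E a i)) * (E a j * (Fm E B a j / E a j)) := by ring
      _ = _ := by rw [EF hE, EF hE]
  rw [h1] at h
  set P := ∑ σ ∈ Gam E, (Fm E B (σ i) i / E (σ i) i) * (Fm E B (σ j) j / E (σ j) j) with hP
  set N : ℝ := ((Gam E).card : ℝ) with hN
  have hN0 : 0 ≤ N := by positivity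
  have hd : 0 < 1 - E i j := by
    rcases (hE.nn i j).lt_or_eq with h2 | h2
    · have := hE.diag_half h2 hij
      rw [← hE.diag_eq h2] at this
      linarith
    · rw [← h2]; norm_num
  have hff : 0 ≤ (∑ a, Fm E B a i) * ∑ a, Fm E B a j :=
    mul_nonneg_of_nonpos_of_nonpos (F_col hE hB i) (F_col hE hB j)
  have h2 : ∑ a, (N / (1 - E a a)) * (Fm E B a i * Fm E B a j) =
      (N / (1 - E i j)) * ∑ a, Fm E B a i * Fm E B a j := by
    rw [Finset.mul_sum]
    apply Finset.sum_congr rfl; intro a _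
    by_cases hai : 0 < E a i
    · by_cases haj : 0 < E a j
      · have h3 : E i j = E a a := by
          rw [← hE.row_eq hai j, hE.diag_eq haj]
        rw [h3]
      · rw [Fm_zero haj]; ring
    · rw [Fm_zero hai]; ring
  rw [h2]
  have h3 : P = N * ((∑ a, Fm E B a i) * ∑ b, Fm E B b j - ∑ a, Fm E B a i * Fm E B a j) /
      (1 - E i j) := by
    rw [← h]; field_simp
  rw [h3]
  have h4 : N * ((∑ a, Fm E B a i) * ∑ b, Fm E B b j - ∑ a, Fm E B a i * Fm E B a j) /
      (1 - E i j) = N * ((∑ a, Fm E B a i) * ∑ b, Fm E B b j) / (1 - E i j) -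
      N / (1 - E i j) * ∑ a, Fm E B a i * Fm E B a j := by ring
  rw [h4]
  have h5 : 0 ≤ N * ((∑ a, Fm E B a i) * ∑ b, Fm E B b j) / (1 - E i j) := by positivity
  linarith

lemma sum_offdiag (G : ι → ι → ℝ) :
    ∑ i, ∑ j, (if i = j then 0 else G i j) = ∑ i, ∑ j, G i j - ∑ i, G i i := by
  rw [← Finset.sum_sub_distrib]
  apply Finset.sum_congr rfl; intro a _
  have h6 : ∀ b, (if a = b then (0 : ℝ) else G a b) = G a b - (if a = b then G a b else 0) := by
    intro b; split_ifs <;> ring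
  simp only [h6, Finset.sum_sub_distrib]
  simp

/-- lower bound for the second order term -/
lemma quad_low {E B : Matrix ι ι ℝ} (hE : Avg E) (hB : B ∈ doublyStochastic ℝ ι) :
    (Gam E).card * (ph E B - 2 * dl E B ^ 2) ≤
      ∑ σ ∈ Gam E, ((∑ i, Fm E B (σ i) i / E (σ i) i) ^ 2 -
        ∑ i, (Fm E B (σ i) i / E (σ i) i) ^ 2) := by
  set N : ℝ := ((Gam E).card : ℝ) with hN
  have hN0 : 0 ≤ N := by positivity
  set H : ι → ι → ℝ := fun a i => Fm E B a i / E a i with hH
  have h1 : ∑ σ ∈ Gam E, ((∑ i, H (σ i) i) ^ 2 - ∑ i, (H (σ i) i) ^ 2) =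
      ∑ i, ∑ j, (if i = j then 0 else ∑ σ ∈ Gam E, H (σ i) i * H (σ j) j) := by
    have h2 : ∀ σ : Equiv.Perm ι, (∑ i, H (σ i) i) ^ 2 - ∑ i, (H (σ i) i) ^ 2 =
        ∑ i, ∑ j, (if i = j then 0 else H (σ i) i * H (σ j) j) := by
      intro σ
      rw [sum_offdiag (fun i j => H (σ i) i * H (σ j) j), sq, Finset.sum_mul_sum]
      congr 1
      apply Finset.sum_congr rfl; intro i _; ring
    simp only [h2]
    rw [Finset.sum_comm]
    apply Finset.sum_congr rfl; intro i _
    rw [Finset.sum_comm]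
    apply Finset.sum_congr rfl; intro j _
    split_ifs
    · simp
    · rfl
  have h3 : ∑ i, ∑ j, (if i = j then 0 else
      - ∑ a, (N / (1 - E a a)) * (Fm E B a i * Fm E B a j)) ≤
      ∑ i, ∑ j, (if i = j then 0 else ∑ σ ∈ Gam E, H (σ i) i * H (σ j) j) := by
    apply Finset.sum_le_sum; intro i _
    apply Finset.sum_le_sum; intro j _
    split_ifs with h
    · exact le_rfl
    · exact pair_low hE hB h
  have h4 : ∑ i, ∑ j, (if i = j then 0 else
      - ∑ a, (N / (1 - E a a)) * (Fm E B a i * Fm E B a j)) =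
      ∑ a, (N / (1 - E a a)) * (∑ i, Fm E B a i ^ 2 - (∑ i, Fm E B a i) ^ 2) := by
    rw [sum_offdiag (fun i j => - ∑ a, (N / (1 - E a a)) * (Fm E B a i * Fm E B a j))]
    have h5 : ∑ i, ∑ j, - ∑ a, (N / (1 - E a a)) * (Fm E B a i * Fm E B a j) =
        - ∑ a, (N / (1 - E a a)) * (∑ i, Fm E B a i) ^ 2 := by
      have h51 : ∀ i j, - ∑ a, (N / (1 - E a a)) * (Fm E B a i * Fm E B a j) =
          ∑ a, -((N / (1 - E a a)) * (Fm E B a i * Fm E B a j)) := by
        intro i j; rw [Finset.sum_neg_distrib]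
      simp only [h51]
      have h52 : ∀ i, ∑ j, ∑ a, -((N / (1 - E a a)) * (Fm E B a i * Fm E B a j)) =
          ∑ a, ∑ j, -((N / (1 - E a a)) * (Fm E B a i * Fm E B a j)) := fun i => Finset.sum_comm
      simp only [h52]
      rw [Finset.sum_comm, ← Finset.sum_neg_distrib]
      apply Finset.sum_congr rfl; intro a _
      rw [sq, Finset.sum_mul_sum, Finset.mul_sum, ← Finset.sum_neg_distrib]
      apply Finset.sum_congr rfl; intro i _
      rw [Finset.mul_sum, ← Finset.sum_neg_distrib]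
    have h6 : ∑ i, - ∑ a, (N / (1 - E a a)) * (Fm E B a i * Fm E B a i) =
        - ∑ a, (N / (1 - E a a)) * ∑ i, Fm E B a i ^ 2 := by
      rw [Finset.sum_neg_distrib, Finset.sum_comm]
      congr 1
      apply Finset.sum_congr rfl; intro a _
      rw [Finset.mul_sum]
      apply Finset.sum_congr rfl; intro i _
      ring
    rw [h5, h6]
    have h7 : ∀ a, (N / (1 - E a a)) * (∑ i, Fm E B a i ^ 2 - (∑ i, Fm E B a i) ^ 2) =
        (N / (1 - E a a)) * ∑ i, Fm E B a i ^ 2 - (N / (1 - E a a)) * (∑ i, Fm E B a i) ^ 2 := by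
      intro a; ring
    simp only [h7, Finset.sum_sub_distrib]
    ring
  have h5 : ∀ a, N * (∑ i, Fm E B a i ^ 2 - 2 * (∑ i, Fm E B a i) ^ 2) ≤
      (N / (1 - E a a)) * (∑ i, Fm E B a i ^ 2 - (∑ i, Fm E B a i) ^ 2) := by
    intro a
    have hnn : 0 ≤ ∑ i, Fm E B a i ^ 2 := Finset.sum_nonneg fun i _ => sq_nonneg _
    have hnn2 : 0 ≤ (∑ i, Fm E B a i) ^ 2 := sq_nonneg _
    by_cases hex : ∃ b, a ≠ b ∧ 0 < E a b
    · obtain ⟨b, hab, hb⟩ := hex
      have hh := hE.diag_half hb hab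
      have hpos := hE.diag_pos a
      have hd : 0 < 1 - E a a := by linarith
      have hκ1 : N ≤ N / (1 - E a a) := by
        rw [le_div_iff₀ hd]
        nlinarith
      have hκ2 : N / (1 - E a a) ≤ 2 * N := by
        rw [div_le_iff₀ hd]
        nlinarith
      nlinarith
    · push Not at hex
      have h6 : ∀ i, i ≠ a → Fm E B a i = 0 := by
        intro i hi
        apply Fm_zero
        have := hex i hi.symm
        linarith
      have h7 : ∑ i, Fm E B a i ^ 2 = Fm E B a a ^ 2 := by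
        rw [Finset.sum_eq_single a]
        · intro i _ hi; rw [h6 i hi]; ring
        · intro h; exact absurd (Finset.mem_univ a) h
      have h8 : ∑ i, Fm E B a i = Fm E B a a := by
        rw [Finset.sum_eq_single a]
        · intro i _ hi; rw [h6 i hi]
        · intro h; exact absurd (Finset.mem_univ a) h
      rw [h7, h8, sub_self, mul_zero]
      have : 0 ≤ N * Fm E B a a ^ 2 := by positivity
      nlinarith
  calc N * (ph E B - 2 * dl E B ^ 2) ≤ N * (ph E B - 2 * ∑ a, (∑ i, Fm E B a i) ^ 2) := by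
        apply mul_le_mul_of_nonneg_left _ hN0
        have := F_rowsq hE hB
        linarith
    _ = ∑ a, N * (∑ i, Fm E B a i ^ 2 - 2 * (∑ i, Fm E B a i) ^ 2) := by
        rw [← Finset.mul_sum, Finset.sum_sub_distrib, ← Finset.mul_sum]
        rfl
    _ ≤ ∑ a, (N / (1 - E a a)) * (∑ i, Fm E B a i ^ 2 - (∑ i, Fm E B a i) ^ 2) :=
        Finset.sum_le_sum fun a _ => h5 a
    _ ≤ _ := by
        rw [← h4, h1]; exact h3

end Pool.Agent.H450R3.Fg
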