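import Mathlib
import Pool.Agent.H450R3.FgLow2

set_option autoImplicit false
open scoped BigOperators
open Matrix

namespace Pool.Agent.H450R3.Fg

variable {ι : Type} [Fintype ι] [DecidableEq ι]

lemma per_E {E : Matrix ι ι ℝ} (hE : Avg E) :
    E.permanent = (∏ i, E i i) * ((Gam E).card : ℝ) := by
  have h1 : E.permanent = ∑ σ ∈ Gam E, ∏ i, E (σ i) i := by
    unfold Matrix.permanent
    symm
    apply Finset.sum_subset (Finset.subset_univ _)
    intro σ _ hσ
    rw [mem_Gam] at hσ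
    push Not at hσ
    obtain ⟨i, hi⟩ := hσ
    apply Finset.prod_eq_zero (Finset.mem_univ i)
    exact le_antisymm hi (hE.nn _ _)
  rw [h1]
  have h2 : ∀ σ ∈ Gam E, ∏ i, E (σ i) i = ∏ i, E i i := by
    intro σ hσ
    apply Finset.prod_congr rfl; intro i _
    have h := mem_Gam.1 hσ i
    exact (hE.col_eq h _).symm.trans (hE.diag_eq' h).symm
  rw [Finset.sum_congr rfl h2, Finset.sum_const, nsmul_eq_mul, mul_comm]

lemma per_E_pos {E : Matrix ι ι ℝ} (hE : Avg E) : 0 < E.permanent := by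
  rw [per_E hE]
  apply mul_pos
  · exact Finset.prod_pos fun i _ => hE.diag_pos i
  · have : (1 : Equiv.Perm ι) ∈ Gam E := mem_Gam.2 fun k => hE.diag_pos k
    exact_mod_cast Finset.card_pos.2 ⟨1, this⟩

/-- local lower bound for the permanent -/
theorem per_low {E B : Matrix ι ι ℝ} (hE : Avg E) (hB : B ∈ doublyStochastic ℝ ι) (η : ℝ)
    (hη0 : 0 ≤ η)
    (hη : 4 * 3 ^ (Fintype.card ι) * (Fintype.card ι : ℝ) ^ 4 * η ≤ 1)
    (hF : ∀ a b, 0 < E a b → |B a b - E a b| ≤ η) :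
    E.permanent * (1 - dl E B - dl E B ^ 2 + ph E B / 4) ≤ B.permanent := by
  classical
  rcases isEmpty_or_nonempty ι with hemp | hne
  · simp [Matrix.permanent_isEmpty, dl, ph]
  set n : ℕ := Fintype.card ι with hn
  have hn1 : (1 : ℝ) ≤ n := by
    rw [hn]; exact_mod_cast Fintype.card_pos
  have hn0 : (0 : ℝ) < n := by linarith
  set N : ℝ := ((Gam E).card : ℝ) with hN
  have hN0 : 0 ≤ N := by positivity
  set ω : ℝ := ∏ i, E i i with hω
  have hω0 : 0 < ω := Finset.prod_pos fun i _ => hE.diag_pos i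
  set H : ι → ι → ℝ := fun a i => Fm E B a i / E a i with hH
  have hFb : ∀ a i, |Fm E B a i| ≤ η := by
    intro a i
    unfold Fm
    split_ifs with h
    · exact hF a i h
    · rw [abs_zero]; exact hη0
  have hHb : ∀ a i, |H a i| ≤ n * η := by
    intro a i
    by_cases h : 0 < E a i
    · have h1 := hE.ge h
      rw [hH]
      simp only
      rw [abs_div, abs_of_pos h, div_le_iff₀ h]
      have h2 : 1 ≤ (n : ℝ) * E a i := by
        rw [div_le_iff₀ hn0] at h1; linarith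
      have h3 := hFb a i
      nlinarith
    · rw [hH]
      simp only
      rw [Fm_zero h, zero_div, abs_zero]; positivity
  -- pointwise
  have hone : (n : ℝ) ^ 2 * η ≤ 1 := by
    have h1 : (1 : ℝ) ≤ 3 ^ n := one_le_pow₀ (by norm_num)
    have h2 : (n : ℝ) ^ 2 ≤ n ^ 4 := pow_le_pow_right₀ hn1 (by norm_num)
    have h3 : (n : ℝ) ^ 2 ≤ 4 * 3 ^ n * (n : ℝ) ^ 4 := by nlinarith [sq_nonneg (n : ℝ)]
    have := mul_le_mul_of_nonneg_right h3 hη0
    linarith
  have hpt : ∀ σ ∈ Gam E, 1 + ∑ i, H (σ i) i + ((∑ i, H (σ i) i) ^ 2 - ∑ i, H (σ i) i ^ 2) / 2 -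
      3 ^ n * (n : ℝ) ^ 3 * η * ∑ i, H (σ i) i ^ 2 ≤ ∏ i, (1 + H (σ i) i) := by
    intro σ _
    have h1 := prod_exp2 Finset.univ (fun i => H (σ i) i)
    have h2 := (abs_le.1 h1).1
    rw [Finset.card_univ, ← hn] at h2
    set T := ∑ i, |H (σ i) i| with hT
    have hT0 : 0 ≤ T := Finset.sum_nonneg fun i _ => abs_nonneg _
    have hT1 : T ≤ (n : ℝ) ^ 2 * η := by
      calc T ≤ ∑ i : ι, (n : ℝ) * η := Finset.sum_le_sum fun i _ => hHb _ _
        _ = (n : ℝ) ^ 2 * η := by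
          rw [Finset.sum_const, Finset.card_univ, ← hn, nsmul_eq_mul]; ring
    have hT2 : T ^ 2 ≤ n * ∑ i, H (σ i) i ^ 2 := by
      have h3 := sq_sum_le_card_mul_sum_sq (s := Finset.univ) (f := fun i => |H (σ i) i|)
      simp only [sq_abs, Finset.card_univ] at h3
      exact h3
    have hQ0 : 0 ≤ ∑ i, H (σ i) i ^ 2 := Finset.sum_nonneg fun i _ => sq_nonneg _
    have h3 : (2 + T) ^ n ≤ 3 ^ n := pow_le_pow_left₀ (by linarith) (by linarith) _
    have h4 : T ^ 3 ≤ ((n : ℝ) ^ 2 * η) * (n * ∑ i, H (σ i) i ^ 2) := by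
      have : T ^ 3 = T * T ^ 2 := by ring
      rw [this]
      exact mul_le_mul hT1 hT2 (sq_nonneg _) (by positivity)
    have h5 : (2 + T) ^ n * T ^ 3 ≤ 3 ^ n * (((n : ℝ) ^ 2 * η) * (n * ∑ i, H (σ i) i ^ 2)) :=
      mul_le_mul h3 h4 (by positivity) (by positivity)
    have h6 : 3 ^ n * (((n : ℝ) ^ 2 * η) * (n * ∑ i, H (σ i) i ^ 2)) =
        3 ^ n * (n : ℝ) ^ 3 * η * ∑ i, H (σ i) i ^ 2 := by ring
    rw [h6] at h5
    linarith
  -- sums over Gam
  have hS : ∑ σ ∈ Gam E, ∑ i, H (σ i) i = - (N * dl E B) := by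
    rw [Finset.sum_comm]
    have h1 : ∀ i, ∑ σ ∈ Gam E, H (σ i) i = N * ∑ a, Fm E B a i := by
      intro i
      rw [one_pt hE i (fun a => H a i)]
      simp only [hH, EF hE]
      rfl
    simp only [h1]
    rw [← Finset.mul_sum, F_sum hE hB]
    ring
  have hQ : ∑ σ ∈ Gam E, ∑ i, H (σ i) i ^ 2 ≤ N * (n * ph E B) := by
    rw [Finset.sum_comm]
    have h1 : ∀ i, ∑ σ ∈ Gam E, H (σ i) i ^ 2 ≤ N * ∑ a, (n * Fm E B a i ^ 2) := by
      intro i
      rw [one_pt hE i (fun a => H a i ^ 2)]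
      apply mul_le_mul_of_nonneg_left _ hN0
      apply Finset.sum_le_sum
      intro a _
      by_cases h : 0 < E a i
      · have h2 := hE.ge h
        have h3 : 1 ≤ (n : ℝ) * E a i := by
          rw [div_le_iff₀ hn0] at h2; linarith
        have h4 : E a i * H a i ^ 2 = Fm E B a i ^ 2 / E a i := by
          rw [hH]; field_simp
        rw [h4, div_le_iff₀ h]
        have := sq_nonneg (Fm E B a i)
        nlinarith
      · have : H a i = 0 := by
          rw [hH]; simp only; rw [Fm_zero h, zero_div]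
        rw [this]
        have := sq_nonneg (Fm E B a i)
        nlinarith [mul_nonneg hn0.le this]
    refine (Finset.sum_le_sum fun i _ => h1 i).trans ?_
    rw [← Finset.mul_sum, Finset.sum_comm]
    simp only [← Finset.mul_sum]
    exact le_rfl
  have hP := quad_low hE hB
  have hmain : N * (1 - dl E B - dl E B ^ 2 + ph E B / 4) ≤ ∑ σ ∈ Gam E, ∏ i, (1 + H (σ i) i) := by
    refine le_trans ?_ (Finset.sum_le_sum hpt)
    rw [Finset.sum_sub_distrib, Finset.sum_add_distrib, Finset.sum_add_distrib, hS,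
      ← Finset.sum_div, ← Finset.mul_sum]
    rw [Finset.sum_const, nsmul_eq_mul, mul_one]
    have h1 : 3 ^ n * (n : ℝ) ^ 3 * η * ∑ σ ∈ Gam E, ∑ i, H (σ i) i ^ 2 ≤ N * (ph E B / 4) := by
      have h2 : 0 ≤ 3 ^ n * (n : ℝ) ^ 3 * η := by positivity
      have h3 := mul_le_mul_of_nonneg_left hQ h2
      have h4 : 3 ^ n * (n : ℝ) ^ 3 * η * (N * (n * ph E B)) =
          N * ph E B * (4 * 3 ^ n * (n : ℝ) ^ 4 * η) / 4 := by ring
      rw [h4] at h3
      have h5 : 0 ≤ N * ph E B := mul_nonneg hN0 (ph_nonneg E B)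
      have h6 : N * ph E B * (4 * 3 ^ n * (n : ℝ) ^ 4 * η) ≤ N * ph E B * 1 :=
        mul_le_mul_of_nonneg_left hη h5
      linarith
    have h2 : N * (ph E B - 2 * dl E B ^ 2) ≤ ∑ σ ∈ Gam E, ((∑ i, H (σ i) i) ^ 2 - ∑ i, H (σ i) i ^ 2) :=
      hP
    have h3 : N * (1 - dl E B - dl E B ^ 2 + ph E B / 4) =
        N + -(N * dl E B) + N * (ph E B - 2 * dl E B ^ 2) / 2 - N * (ph E B / 4) := by ring
    rw [h3]
    have h4 : ((Gam E).card : ℝ) = N := rfl
    rw [h4]
    linarith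
  -- compare with the permanent
  have hper : ω * ∑ σ ∈ Gam E, ∏ i, (1 + H (σ i) i) ≤ B.permanent := by
    have h1 : ∑ σ ∈ Gam E, ∏ i, B (σ i) i ≤ B.permanent := by
      unfold Matrix.permanent
      apply Finset.sum_le_sum_of_subset_of_nonneg (Finset.subset_univ _)
      intro σ _ _
      exact Finset.prod_nonneg fun i _ => nonneg_of_mem_doublyStochastic hB
    refine le_trans (le_of_eq ?_) h1
    rw [Finset.mul_sum]
    apply Finset.sum_congr rfl
    intro σ hσ
    rw [hω, ← Finset.prod_mul_distrib]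
    apply Finset.prod_congr rfl; intro i _
    have h := mem_Gam.1 hσ i
    have h2 : E i i = E (σ i) i := ((hE.col_eq h _).symm.trans (hE.diag_eq' h).symm).symm
    rw [h2, mul_add, mul_one]
    have h3 : E (σ i) i * H (σ i) i = Fm E B (σ i) i := EF hE (σ i) i
    rw [h3]
    unfold Fm
    rw [if_pos h]
    ring
  rw [per_E hE]
  calc ω * N * (1 - dl E B - dl E B ^ 2 + ph E B / 4) =
      ω * (N * (1 - dl E B - dl E B ^ 2 + ph E B / 4)) := by ring
    _ ≤ ω * ∑ σ ∈ Gam E, ∏ i, (1 + H (σ i) i) := mul_le_mul_of_nonneg_left hmain hω0.le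
    _ ≤ _ := hper

end Pool.Agent.H450R3.Fg
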