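import Mathlib
import Pool.Agent.H450R3.FgLow3

set_option autoImplicit false
open scoped BigOperators
open Matrix

namespace Pool.Agent.H450R3.Fg

variable {ι : Type} [Fintype ι] [DecidableEq ι]

/-- entrywise l1 norm -/
def nn (M : Matrix ι ι ℝ) : ℝ := ∑ a, ∑ b, |M a b|

lemma nn_nonneg (M : Matrix ι ι ℝ) : 0 ≤ nn M :=
  Finset.sum_nonneg fun _ _ => Finset.sum_nonneg fun _ _ => abs_nonneg _

lemma nn_add (M M' : Matrix ι ι ℝ) : nn (M + M') ≤ nn M + nn M' := by
  unfold nn
  rw [← Finset.sum_add_distrib]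
  apply Finset.sum_le_sum; intro a _
  rw [← Finset.sum_add_distrib]
  apply Finset.sum_le_sum; intro b _
  exact abs_add_le _ _

lemma nn_transpose (M : Matrix ι ι ℝ) : nn Mᵀ = nn M := by
  unfold nn
  rw [Finset.sum_comm]
  rfl

lemma nn_neg (M : Matrix ι ι ℝ) : nn (-M) = nn M := by
  unfold nn
  simp

lemma nn_mul_ds (M : Matrix ι ι ℝ) {B : Matrix ι ι ℝ} (hB : B ∈ doublyStochastic ℝ ι) :
    nn (M * B) ≤ nn M := by
  unfold nn
  apply Finset.sum_le_sum; intro a _
  calc ∑ b, |(M * B) a b| ≤ ∑ b, ∑ c, |M a c| * B c b := by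
        apply Finset.sum_le_sum; intro b _
        rw [Matrix.mul_apply]
        refine (Finset.abs_sum_le_sum_abs _ _).trans (le_of_eq ?_)
        apply Finset.sum_congr rfl; intro c _
        rw [abs_mul, abs_of_nonneg (nonneg_of_mem_doublyStochastic hB : 0 ≤ B c b)]
    _ = ∑ c, |M a c| := by
        rw [Finset.sum_comm]
        apply Finset.sum_congr rfl; intro c _
        rw [← Finset.mul_sum, sum_row_of_mem_doublyStochastic hB, mul_one]

lemma nn_ds_mul (M : Matrix ι ι ℝ) {B : Matrix ι ι ℝ} (hB : B ∈ doublyStochastic ℝ ι) :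
    nn (B * M) ≤ nn M := by
  rw [← nn_transpose (B * M), Matrix.transpose_mul, ← nn_transpose M]
  exact nn_mul_ds _ (transpose_mem_doublyStochastic_iff.2 hB)

lemma nn_mul (M M' : Matrix ι ι ℝ) : nn (M * M') ≤ nn M * nn M' := by
  unfold nn
  have h1 : ∀ c a, |M a c| ≤ ∑ c, |M a c| := fun c a =>
    Finset.single_le_sum (f := fun c => |M a c|) (fun c _ => abs_nonneg _) (Finset.mem_univ c)
  calc ∑ a, ∑ b, |(M * M') a b| ≤ ∑ a, ∑ b, ∑ c, |M a c| * |M' c b| := by
        apply Finset.sum_le_sum; intro a _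
        apply Finset.sum_le_sum; intro b _
        rw [Matrix.mul_apply]
        refine (Finset.abs_sum_le_sum_abs _ _).trans (le_of_eq ?_)
        apply Finset.sum_congr rfl; intro c _
        rw [abs_mul]
    _ = ∑ a, ∑ c, |M a c| * ∑ b, |M' c b| := by
        apply Finset.sum_congr rfl; intro a _
        rw [Finset.sum_comm]
        apply Finset.sum_congr rfl; intro c _
        rw [Finset.mul_sum]
    _ ≤ ∑ a, ∑ c, |M a c| * ∑ c, ∑ b, |M' c b| := by
        apply Finset.sum_le_sum; intro a _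
        apply Finset.sum_le_sum; intro c _
        apply mul_le_mul_of_nonneg_left _ (abs_nonneg _)
        exact Finset.single_le_sum (f := fun c => ∑ b, |M' c b|)
          (fun c _ => Finset.sum_nonneg fun _ _ => abs_nonneg _) (Finset.mem_univ c)
    _ = _ := by
        rw [Finset.sum_mul]
        apply Finset.sum_congr rfl; intro a _
        rw [Finset.sum_mul]

open Classical in
/-- off-support mass -/
noncomputable def dA (A B : Matrix ι ι ℝ) : ℝ := ∑ a, ∑ b, if 0 < A a b then 0 else B a b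

lemma dA_nonneg (A : Matrix ι ι ℝ) {B : Matrix ι ι ℝ} (hB : B ∈ doublyStochastic ℝ ι) :
    0 ≤ dA A B := by
  apply Finset.sum_nonneg; intro a _
  apply Finset.sum_nonneg; intro i _
  split_ifs
  · exact le_rfl
  · exact nonneg_of_mem_doublyStochastic hB

lemma dA_transpose (A B : Matrix ι ι ℝ) : dA Aᵀ Bᵀ = dA A B := by
  unfold dA
  rw [Finset.sum_comm]
  rfl

/-- the block averaged defect -/
lemma nn_BE {E A B : Matrix ι ι ℝ} (hE : Avg E) (hA : A ∈ doublyStochastic ℝ ι)
    (hB : B ∈ doublyStochastic ℝ ι) (s : Equiv.Perm ι) (hs : ∀ a b, A (s a) b = E a b) :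
    nn (B * E - A) ≤ 2 * dA A B := by
  classical
  have hrow : ∀ a, ∑ b, |(B * E - A) a b| ≤ 2 * ∑ b, (if 0 < A a b then 0 else B a b) := by
    intro a
    obtain ⟨a', rfl⟩ := s.surjective a
    have h1 : ∀ b, |(B * E - A) (s a') b| = (A (s a') b - (B * E) (s a') b) +
        2 * (if 0 < A (s a') b then 0 else (B * E) (s a') b) := by
      intro b
      rw [Matrix.sub_apply]
      have hBE0 : 0 ≤ (B * E) (s a') b := by
        rw [Matrix.mul_apply]
        exact Finset.sum_nonneg fun c _ => mul_nonneg (nonneg_of_mem_doublyStochastic hB) (hE.nn _ _)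
      by_cases h : 0 < A (s a') b
      · rw [if_pos h]
        have h2 : 0 < E a' b := by rw [← hs]; exact h
        have h3 : (B * E) (s a') b ≤ A (s a') b := by
          rw [Matrix.mul_apply, hs]
          calc ∑ c, B (s a') c * E c b ≤ ∑ c, B (s a') c * E a' b := by
                apply Finset.sum_le_sum; intro c _
                apply mul_le_mul_of_nonneg_left _ (nonneg_of_mem_doublyStochastic hB)
                rcases (hE.nn c b).lt_or_eq with h4 | h4
                · have h5 : E c b = E b b := by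
                    rw [hE.row_eq h4 b]
                  have h6 : E a' b = E b b := by
                    rw [hE.row_eq h2 b]
                  rw [h5, h6]
                · rw [← h4]; exact h2.le
            _ = E a' b := by
                rw [← Finset.sum_mul, sum_row_of_mem_doublyStochastic hB, one_mul]
        rw [abs_of_nonpos (by linarith)]
        ring
      · rw [if_neg h]
        have h2 : A (s a') b = 0 := le_antisymm (not_lt.1 h) (nonneg_of_mem_doublyStochastic hA)
        rw [h2, sub_zero, abs_of_nonneg hBE0]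
        ring
    simp only [h1]
    rw [Finset.sum_add_distrib, Finset.sum_sub_distrib, sum_row_of_mem_doublyStochastic hA]
    have h2 : B * E ∈ doublyStochastic ℝ ι := mul_mem hB hE.ds
    rw [sum_row_of_mem_doublyStochastic h2, sub_self, zero_add, ← Finset.mul_sum]
    apply mul_le_mul_of_nonneg_left _ (by norm_num)
    have h3 : ∀ b, (if 0 < A (s a') b then 0 else (B * E) (s a') b) ≤
        ∑ c, (if 0 < A (s a') c then 0 else B (s a') c) * E c b := by
      intro b
      split_ifs with h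
      · apply Finset.sum_nonneg; intro c _
        apply mul_nonneg _ (hE.nn _ _)
        split_ifs
        · exact le_rfl
        · exact nonneg_of_mem_doublyStochastic hB
      · rw [Matrix.mul_apply]
        apply Finset.sum_le_sum; intro c _
        rcases (hE.nn c b).lt_or_eq with h4 | h4
        · rw [if_neg]
          rw [hs] at h ⊢
          rw [hE.col_eq h4 a']
          exact h
        · rw [← h4]; simp
    refine (Finset.sum_le_sum fun b _ => h3 b).trans ?_
    rw [Finset.sum_comm]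
    apply le_of_eq
    apply Finset.sum_congr rfl; intro c _
    rw [← Finset.mul_sum, hE.row, mul_one]
  unfold nn dA
  rw [Finset.mul_sum]
  exact Finset.sum_le_sum fun a _ => hrow a

lemma nn_EB {E A B : Matrix ι ι ℝ} (hE : Avg E) (hA : A ∈ doublyStochastic ℝ ι)
    (hB : B ∈ doublyStochastic ℝ ι) (s : Equiv.Perm ι) (hs : ∀ a b, Aᵀ (s a) b = Eᵀ a b) :
    nn (E * B - A) ≤ 2 * dA A B := by
  have h := nn_BE hE.transpose (transpose_mem_doublyStochastic_iff.2 hA)
    (transpose_mem_doublyStochastic_iff.2 hB) s hs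
  rw [dA_transpose, ← Matrix.transpose_mul, ← Matrix.transpose_sub, nn_transpose] at h
  exact h

lemma pow_ds {B : Matrix ι ι ℝ} (hB : B ∈ doublyStochastic ℝ ι) (k : ℕ) :
    B ^ k ∈ doublyStochastic ℝ ι := pow_mem hB k

lemma nn_left {E A B : Matrix ι ι ℝ} (hE : Avg E) (hA : A ∈ doublyStochastic ℝ ι)
    (hB : B ∈ doublyStochastic ℝ ι) (hEA : E * A = A) (hAE : A * E = A) (s : Equiv.Perm ι)
    (hs : ∀ a b, A (s a) b = E a b) (k : ℕ) (hk : 2 ≤ k) :
    nn ((1 - E) * B ^ k) ≤ 4 * dA A B + 2 * nn (B - A) ^ 2 := by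
  obtain ⟨m, rfl⟩ : ∃ m, k = 2 + m := ⟨k - 2, by omega⟩
  have h1 : (1 - E) * B ^ (2 + m) = ((1 - E) * B ^ 2) * B ^ m := by
    rw [pow_add, Matrix.mul_assoc]
  rw [h1]
  refine (nn_mul_ds _ (pow_ds hB m)).trans ?_
  have h2 : (1 - E) * B ^ 2 = ((B * E - A) * A + (B - A) * (B - A)) +
      -(E * ((B * E - A) * A + (B - A) * (B - A))) := by
    have h3 : (B * E - A) * A + (B - A) * (B - A) = B ^ 2 - A * B := by
      rw [Matrix.sub_mul, Matrix.mul_assoc, hEA]
      noncomm_ring
    rw [h3]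
    have h4 : E * (B ^ 2 - A * B) = E * B ^ 2 - A * B := by
      rw [Matrix.mul_sub, ← Matrix.mul_assoc, hEA]
    rw [h4, Matrix.sub_mul, Matrix.one_mul]
    abel
  rw [h2]
  refine (nn_add _ _).trans ?_
  rw [nn_neg]
  have h5 := nn_ds_mul ((B * E - A) * A + (B - A) * (B - A)) hE.ds
  have h6 : nn ((B * E - A) * A + (B - A) * (B - A)) ≤ 2 * dA A B + nn (B - A) ^ 2 := by
    refine (nn_add _ _).trans ?_
    apply add_le_add
    · exact (nn_mul_ds _ hA).trans (nn_BE hE hA hB s hs)
    · rw [sq]; exact nn_mul _ _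
  linarith

lemma nn_right {E A B : Matrix ι ι ℝ} (hE : Avg E) (hA : A ∈ doublyStochastic ℝ ι)
    (hB : B ∈ doublyStochastic ℝ ι) (hEA : E * A = A) (hAE : A * E = A) (s : Equiv.Perm ι)
    (hs : ∀ a b, Aᵀ (s a) b = Eᵀ a b) (k : ℕ) (hk : 2 ≤ k) :
    nn (B ^ k * (1 - E)) ≤ 4 * dA A B + 2 * nn (B - A) ^ 2 := by
  have h := nn_left hE.transpose (transpose_mem_doublyStochastic_iff.2 hA)
    (transpose_mem_doublyStochastic_iff.2 hB) (by rw [← Matrix.transpose_mul, hAE])
    (by rw [← Matrix.transpose_mul, hEA]) s hs k hk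
  rw [dA_transpose, ← Matrix.transpose_sub, nn_transpose, ← Matrix.transpose_pow] at h
  have h1 : (1 - Eᵀ) * (B ^ k)ᵀ = (B ^ k * (1 - E))ᵀ := by
    rw [Matrix.transpose_mul, Matrix.transpose_sub, Matrix.transpose_one]
  rw [h1, nn_transpose] at h
  exact h

/-- the non averaged part of a power -/
lemma nn_R {E A B : Matrix ι ι ℝ} (hE : Avg E) (hA : A ∈ doublyStochastic ℝ ι)
    (hB : B ∈ doublyStochastic ℝ ι) (hEA : E * A = A) (hAE : A * E = A) (s s' : Equiv.Perm ι)
    (hs : ∀ a b, A (s a) b = E a b)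
    (hs' : ∀ a b, Aᵀ (s' a) b = Eᵀ a b) (k : ℕ) (hk : 2 ≤ k) :
    nn (B ^ k - E * B ^ k * E) ≤ 8 * dA A B + 4 * nn (B - A) ^ 2 := by
  have h1 : B ^ k - E * B ^ k * E = (1 - E) * B ^ k + E * (B ^ k * (1 - E)) := by
    rw [Matrix.sub_mul, Matrix.one_mul, Matrix.mul_sub, Matrix.mul_one, Matrix.mul_sub,
      Matrix.mul_assoc]
    abel
  rw [h1]
  refine (nn_add _ _).trans ?_
  have h2 := nn_left hE hA hB hEA hAE s hs k hk
  have h3 := (nn_ds_mul (B ^ k * (1 - E)) hE.ds).trans (nn_right hE hA hB hEA hAE s' hs' k hk)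
  linarith

/-! ### leakage -/

lemma fr_contr {B : Matrix ι ι ℝ} (hB : B ∈ doublyStochastic ℝ ι) (Y : Matrix ι ι ℝ) :
    fr (B * Y) ≤ fr Y := by
  unfold fr
  rw [Finset.sum_comm]
  rw [Finset.sum_comm (f := fun a b => Y a b ^ 2)]
  apply Finset.sum_le_sum; intro c _
  have := sq_contr hB (fun b => Y b c)
  simpa [Matrix.mul_apply] using this

lemma leak_step {E A B : Matrix ι ι ℝ} (hB : B ∈ doublyStochastic ℝ ι)
    (hA : A ∈ doublyStochastic ℝ ι) (hE : Avg E)
    (s : Equiv.Perm ι) (hs : ∀ a b, A (s a) b = E a b) (Y : Matrix ι ι ℝ)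
    (c1 : ∀ a b, 0 < A a b → 1 / (2 * (Fintype.card ι : ℝ)) ≤ B a b)
    (c2 : ∀ b b', ¬ 0 < E b b' → 1 / (Fintype.card ι : ℝ) ≤ ∑ c, (Y b c - Y b' c) ^ 2) :
    fr (B * Y) + dA A B / (4 * (Fintype.card ι : ℝ) ^ 2) ≤ fr Y := by
  classical
  set n : ℝ := (Fintype.card ι : ℝ) with hn
  have hBn : ∀ a b, 0 ≤ B a b := fun a b => nonneg_of_mem_doublyStochastic hB
  have h1 : fr Y - fr (B * Y) = ∑ a, (1 / 2) * ∑ b, ∑ b', B a b * B a b' *
      ∑ c, (Y b c - Y b' c) ^ 2 := by
    have h2 : fr Y - fr (B * Y) = ∑ c, (∑ b, Y b c ^ 2 - ∑ a, (∑ b, B a b * Y b c) ^ 2) := by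
      unfold fr
      rw [Finset.sum_sub_distrib, Finset.sum_comm]
      congr 1
      rw [Finset.sum_comm]
      simp only [Matrix.mul_apply]
    rw [h2]
    simp only [var_id hB (fun b => Y b _)]
    rw [← Finset.mul_sum, ← Finset.mul_sum]
    congr 1
    rw [Finset.sum_comm]
    apply Finset.sum_congr rfl; intro a _
    rw [Finset.sum_comm]
    apply Finset.sum_congr rfl; intro b _
    rw [Finset.sum_comm]
    apply Finset.sum_congr rfl; intro b' _
    rw [Finset.mul_sum]
  have h2 : ∀ a, (1 / (4 * n ^ 2)) * ∑ b, (if 0 < A a b then 0 else B a b) ≤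
      (1 / 2) * ∑ b, ∑ b', B a b * B a b' * ∑ c, (Y b c - Y b' c) ^ 2 := by
    intro a
    obtain ⟨a', rfl⟩ := s.surjective a
    have hnn : ∀ b b', 0 ≤ B (s a') b * B (s a') b' * ∑ c, (Y b c - Y b' c) ^ 2 := fun b b' =>
      mul_nonneg (mul_nonneg (hBn _ _) (hBn _ _)) (Finset.sum_nonneg fun c _ => sq_nonneg _)
    have h3 : ∑ b', B (s a') a' * B (s a') b' * ∑ c, (Y a' c - Y b' c) ^ 2 ≤
        ∑ b, ∑ b', B (s a') b * B (s a') b' * ∑ c, (Y b c - Y b' c) ^ 2 :=
      Finset.single_le_sum (f := fun b => ∑ b', B (s a') b * B (s a') b' *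
        ∑ c, (Y b c - Y b' c) ^ 2) (fun b _ => Finset.sum_nonneg fun b' _ => hnn b b')
        (Finset.mem_univ a')
    have hAa : 0 < A (s a') a' := by rw [hs]; exact hE.diag_pos a'
    have h4 : (1 / (2 * n ^ 2)) * ∑ b, (if 0 < A (s a') b then 0 else B (s a') b) ≤
        ∑ b', B (s a') a' * B (s a') b' * ∑ c, (Y a' c - Y b' c) ^ 2 := by
      rw [Finset.mul_sum]
      apply Finset.sum_le_sum; intro b' _
      split_ifs with h
      · rw [mul_zero]; exact hnn a' b'
      · have h5 := c1 _ _ hAa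
        have h6 := c2 a' b' (by rw [← hs]; exact h)
        have hn0 : 0 ≤ n := by positivity
        have h7 : 0 ≤ 1 / (2 * n) := by positivity
        have h8 : 0 ≤ 1 / n := by positivity
        have h9 := hBn (s a') b'
        calc (1 / (2 * n ^ 2)) * B (s a') b' = (1 / (2 * n)) * B (s a') b' * (1 / n) := by
              rw [show (1 : ℝ) / (2 * n ^ 2) = (1 / (2 * n)) * (1 / n) by
                rw [div_mul_div_comm, sq]; congr 1 <;> ring]
              ring
          _ ≤ B (s a') a' * B (s a') b' * ∑ c, (Y a' c - Y b' c) ^ 2 := by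
              apply mul_le_mul
              · exact mul_le_mul_of_nonneg_right h5 h9
              · exact h6
              · exact h8
              · exact mul_nonneg (hBn _ _) h9
    have h5 : (1 / (4 * n ^ 2)) = (1 / 2) * (1 / (2 * n ^ 2)) := by
      rw [div_mul_div_comm]; congr 1 <;> ring
    rw [h5, mul_assoc]
    apply mul_le_mul_of_nonneg_left _ (by norm_num)
    exact h4.trans h3
  have h3 : dA A B / (4 * n ^ 2) ≤ fr Y - fr (B * Y) := by
    rw [h1]
    have h4 : dA A B / (4 * n ^ 2) = ∑ a, (1 / (4 * n ^ 2)) *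
        ∑ b, (if 0 < A a b then 0 else B a b) := by
      rw [← Finset.mul_sum]
      unfold dA
      ring
    rw [h4]
    exact Finset.sum_le_sum fun a _ => h2 a
  linarith

/-- leakage over many steps -/
lemma leak {E A B : Matrix ι ι ℝ} (hB : B ∈ doublyStochastic ℝ ι)
    (hA : A ∈ doublyStochastic ℝ ι) (hE : Avg E)
    (s : Equiv.Perm ι) (hs : ∀ a b, A (s a) b = E a b) (k₀ : ℕ)
    (c1 : ∀ a b, 0 < A a b → 1 / (2 * (Fintype.card ι : ℝ)) ≤ B a b)
    (c2 : ∀ i < k₀, ∀ b b', ¬ 0 < E b b' → 1 / (Fintype.card ι : ℝ) ≤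
      ∑ c, ((B ^ i * E) b c - (B ^ i * E) b' c) ^ 2) (k : ℕ) (hk : k₀ ≤ k) :
    fr (E * B ^ k * E) + k₀ * (dA A B / (4 * (Fintype.card ι : ℝ) ^ 2)) ≤ fr E := by
  have h1 : ∀ m ≤ k₀, fr (B ^ m * E) + m * (dA A B / (4 * (Fintype.card ι : ℝ) ^ 2)) ≤ fr E := by
    intro m
    induction m with
    | zero => intro _; simp
    | succ m ih =>
      intro hm
      have h2 := ih (by omega)
      have h3 := leak_step hB hA hE s hs (B ^ m * E) c1 (c2 m (by omega))
      rw [← Matrix.mul_assoc, ← pow_succ'] at h3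
      push_cast
      linarith
  have h2 := h1 k₀ le_rfl
  have h3 : ∀ m, fr (B ^ (k₀ + m) * E) ≤ fr (B ^ k₀ * E) := by
    intro m
    induction m with
    | zero => simp
    | succ m ih =>
      have : B ^ (k₀ + (m + 1)) * E = B * (B ^ (k₀ + m) * E) := by
        rw [← Matrix.mul_assoc, ← pow_succ', add_assoc]
      rw [this]
      exact (fr_contr hB _).trans ih
  obtain ⟨m, rfl⟩ : ∃ m, k = k₀ + m := ⟨k - k₀, by omega⟩
  have h4 : fr (E * B ^ (k₀ + m) * E) ≤ fr (B ^ (k₀ + m) * E) := by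
    rw [Matrix.mul_assoc]; exact fr_contr hE.ds _
  have h5 := h3 m
  linarith

end Pool.Agent.H450R3.Fg
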