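import Mathlib
import Pool.Agent.H450R3.FgDyn
import Pool.Agent.H450R3.FgBlock

set_option autoImplicit false
open scoped BigOperators
open Matrix Filter Topology

namespace Pool.Agent.H450R3.Fg

variable {ι : Type} [Fintype ι] [DecidableEq ι]

/-- structure of a minimising limit -/
lemma struct {E A F : Matrix ι ι ℝ} (hE : Avg E) (hA : A ∈ doublyStochastic ℝ ι)
    (hF : F ∈ doublyStochastic ℝ ι) (hFA : F * A = E)
    (hper : A.permanent ≤ E.permanent) : ∃ s : Equiv.Perm ι, ∀ a b, A (s a) b = E a b := by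
  classical
  -- support of rows
  have hsupp : ∀ a b b', 0 < A a b → 0 < A a b' → 0 < E b' b := by
    intro a b b' hb hb'
    have h1 : ∑ c, (E c b) ^ 2 ≤ ∑ a, (∑ c, A a c * E c b) ^ 2 := by
      have h2 : ∀ c, E c b = ∑ d, F c d * (∑ e, A d e * E e b) := by
        intro c
        have h3 : E = F * (A * E) := by
          rw [← Matrix.mul_assoc, hFA, hE.idem]
        have h4 := congrFun (congrFun h3 c) b
        simpa [Matrix.mul_apply] using h4
      calc ∑ c, (E c b) ^ 2 = ∑ c, (∑ d, F c d * (∑ e, A d e * E e b)) ^ 2 := by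
            apply Finset.sum_congr rfl; intro c _
            rw [← h2]
        _ ≤ _ := sq_contr hF _
    have h2 := sq_contr_eq hA (fun c => E c b) h1 a b b' hb hb'
    rw [← h2]
    exact hE.diag_pos b
  have hpos : 0 < A.permanent := lt_of_lt_of_le (GG_pos _) (vdw' hA)
  obtain ⟨s, hs⟩ : ∃ s : Equiv.Perm ι, ∀ i, 0 < A (s i) i := by
    by_contra hcon
    push Not at hcon
    have : A.permanent = 0 := by
      unfold Matrix.permanent
      apply Finset.sum_eq_zero
      intro σ _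
      obtain ⟨i, hi⟩ := hcon σ
      exact Finset.prod_eq_zero (Finset.mem_univ i)
        (le_antisymm hi (nonneg_of_mem_doublyStochastic hA))
    rw [this] at hpos
    exact lt_irrefl _ hpos
  refine ⟨s, ?_⟩
  have hM : A.submatrix s id ∈ doublyStochastic ℝ ι := by
    rw [mem_doublyStochastic_iff_sum]
    refine ⟨fun i j => nonneg_of_mem_doublyStochastic hA, fun i => ?_, fun j => ?_⟩
    · simp only [Matrix.submatrix_apply, id]
      exact sum_row_of_mem_doublyStochastic hA _
    · simp only [Matrix.submatrix_apply, id]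
      rw [Equiv.sum_comp s (fun i => A i j)]
      exact sum_col_of_mem_doublyStochastic hA j
  have hMp : (A.submatrix s id).permanent = A.permanent := Matrix.permanent_permute_cols s A
  have h1 := block_vdw hE hM (by
    intro a b h0
    by_contra hne
    have h2 : 0 < A (s a) b :=
      lt_of_le_of_ne (nonneg_of_mem_doublyStochastic hA) (fun h => hne h.symm)
    have h3 := hsupp (s a) b a h2 (hs a)
    rw [h0] at h3
    exact lt_irrefl _ h3)
  have h2 := h1.2 (by rw [hMp]; exact hper)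
  intro a b
  rw [← h2]
  rfl

lemma isCompact_ds : IsCompact (doublyStochastic ℝ ι : Set (Matrix ι ι ℝ)) := by
  have h1 : IsCompact (Set.pi Set.univ (fun _ : ι => Set.pi Set.univ (fun _ : ι =>
      Set.Icc (0 : ℝ) 1))) := isCompact_univ_pi fun _ => isCompact_univ_pi fun _ => isCompact_Icc
  refine h1.of_isClosed_subset ?_ ?_
  · have : (doublyStochastic ℝ ι : Set (Matrix ι ι ℝ)) =
        {M | (∀ i j, 0 ≤ M i j) ∧ (∀ i, ∑ j, M i j = 1) ∧ ∀ j, ∑ i, M i j = 1} := by
      ext M
      exact mem_doublyStochastic_iff_sum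
    rw [this]
    have hc : ∀ i j, Continuous (fun M : Matrix ι ι ℝ => M i j) := fun i j =>
      continuous_id.matrix_elem i j
    refine IsClosed.inter (s₁ := {M : Matrix ι ι ℝ | ∀ i j, 0 ≤ M i j}) ?_ (IsClosed.inter
      (s₁ := {M : Matrix ι ι ℝ | ∀ i, ∑ j, M i j = 1})
      (s₂ := {M : Matrix ι ι ℝ | ∀ j, ∑ i, M i j = 1}) ?_ ?_)
    · simp only [Set.setOf_forall]
      exact isClosed_iInter fun i => isClosed_iInter fun j => isClosed_le continuous_const (hc i j)
    · simp only [Set.setOf_forall]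
      exact isClosed_iInter fun i => isClosed_eq (continuous_finset_sum _ fun j _ => hc i j)
        continuous_const
    · simp only [Set.setOf_forall]
      exact isClosed_iInter fun j => isClosed_eq (continuous_finset_sum _ fun i _ => hc i j)
        continuous_const
  · intro M hM
    intro i _ j _
    exact ⟨nonneg_of_mem_doublyStochastic hM, le_one_of_mem_doublyStochastic hM⟩

lemma ulim {α : Type} (u : Ultrafilter α) (f : α → Matrix ι ι ℝ)
    (hf : ∀ᶠ k in (u : Filter α), f k ∈ doublyStochastic ℝ ι) :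
    ∃ L ∈ doublyStochastic ℝ ι, Tendsto f u (𝓝 L) := by
  have h := (isCompact_ds (ι := ι)).ultrafilter_le_nhds (u.map f) (by
    rw [le_principal_iff]
    exact hf)
  obtain ⟨L, hL, h2⟩ := h
  exact ⟨L, hL, h2⟩

lemma cont_per : Continuous (fun M : Matrix ι ι ℝ => M.permanent) := by
  unfold Matrix.permanent
  exact continuous_finset_sum _ fun σ _ => continuous_finset_prod _ fun i _ =>
    continuous_id.matrix_elem _ _

/-- limits of high powers -/
lemma limit_struct (u : Ultrafilter ℕ) (hu : (u : Filter ℕ) ≤ atTop) (Bs : ℕ → Matrix ι ι ℝ)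
    (hBs : ∀ k, Bs k ∈ doublyStochastic ℝ ι) (A : Matrix ι ι ℝ) (hA : A ∈ doublyStochastic ℝ ι)
    (hlim : Tendsto Bs u (𝓝 A)) (D : Matrix ι ι ℝ)
    (hD : Tendsto (fun k => Bs k ^ (k + 2)) u (𝓝 D)) :
    ∃ E F : Matrix ι ι ℝ, Avg E ∧ F ∈ doublyStochastic ℝ ι ∧ A * F = E ∧ F * A = E ∧
      E * D = D ∧ D * E = D := by
  classical
  have hfac : ∀ m : ℕ, (∃ Y ∈ doublyStochastic ℝ ι, D = A ^ m * Y) ∧
      (∃ Y ∈ doublyStochastic ℝ ι, D = Y * A ^ m) := by
    intro m
    obtain ⟨Y, hY, hYlim⟩ := ulim u (fun k => Bs k ^ (k + 2 - m))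
      (Eventually.of_forall fun k => pow_ds (hBs k) _)
    have hpow : Tendsto (fun k => Bs k ^ m) u (𝓝 (A ^ m)) := hlim.pow m
    have hge : ∀ᶠ k in (u : Filter ℕ), m ≤ k := hu (eventually_ge_atTop m)
    refine ⟨⟨Y, hY, ?_⟩, ⟨Y, hY, ?_⟩⟩
    · have h1 : Tendsto (fun k => Bs k ^ m * Bs k ^ (k + 2 - m)) u (𝓝 (A ^ m * Y)) :=
        hpow.mul hYlim
      refine tendsto_nhds_unique hD (h1.congr' ?_)
      filter_upwards [hge] with k hk
      rw [← pow_add]; congr 1; omega
    · have h1 : Tendsto (fun k => Bs k ^ (k + 2 - m) * Bs k ^ m) u (𝓝 (Y * A ^ m)) :=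
        hYlim.mul hpow
      refine tendsto_nhds_unique hD (h1.congr' ?_)
      filter_upwards [hge] with k hk
      rw [← pow_add]; congr 1; omega
  set K : Set (Matrix ι ι ℝ) := closure (Set.range fun m : ℕ => A ^ (m + 1)) with hK
  have hKsub : K ⊆ doublyStochastic ℝ ι := by
    apply closure_minimal _ isCompact_ds.isClosed
    rintro _ ⟨m, rfl⟩
    exact pow_ds hA _
  have hKc : IsCompact K := isCompact_ds.of_isClosed_subset isClosed_closure hKsub
  obtain ⟨E, hEK, hEE⟩ := exists_idempotent_in_compact_subsemigroup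
    (fun r : Matrix ι ι ℝ => continuous_id.mul continuous_const) K
    ⟨A ^ (0 + 1), subset_closure ⟨0, rfl⟩⟩ hKc (by
      intro x hx y hy
      refine map_mem_closure₂ (f := fun x y : Matrix ι ι ℝ => x * y) continuous_mul hx hy ?_
      rintro _ ⟨m, rfl⟩ _ ⟨m', rfl⟩
      exact ⟨m + m' + 1, by simp only [← pow_add]; congr 1; omega⟩)
  obtain ⟨v, hvs, hvE⟩ := mem_closure_iff_ultrafilter.1 hEK
  have hch : ∀ X ∈ Set.range (fun m : ℕ => A ^ (m + 1)), ∃ F Y Y' : Matrix ι ι ℝ,
      F ∈ doublyStochastic ℝ ι ∧ Y ∈ doublyStochastic ℝ ι ∧ Y' ∈ doublyStochastic ℝ ι ∧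
      A * F = X ∧ F * A = X ∧ D = X * Y ∧ D = Y' * X := by
    rintro _ ⟨m, rfl⟩
    obtain ⟨⟨Y, hY, h1⟩, ⟨Y', hY', h2⟩⟩ := hfac (m + 1)
    exact ⟨A ^ m, Y, Y', pow_ds hA m, hY, hY', (pow_succ' A m).symm, (pow_succ A m).symm, h1, h2⟩
  choose! fF fY fY' hfF hfY hfY' h1 h2 h3 h4 using hch
  have hev : ∀ᶠ X in (v : Filter (Matrix ι ι ℝ)), X ∈ Set.range (fun m : ℕ => A ^ (m + 1)) := hvs
  obtain ⟨F, hF, hFlim⟩ := ulim v fF (hev.mono fun X hX => hfF X hX)
  obtain ⟨Y, hY, hYlim⟩ := ulim v fY (hev.mono fun X hX => hfY X hX)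
  obtain ⟨Y', hY', hYlim'⟩ := ulim v fY' (hev.mono fun X hX => hfY' X hX)
  have hid : Tendsto (fun X : Matrix ι ι ℝ => X) v (𝓝 E) := hvE
  have e1 : A * F = E := by
    refine tendsto_nhds_unique ((tendsto_const_nhds.mul hFlim).congr' ?_) hid
    exact hev.mono fun X hX => h1 X hX
  have e2 : F * A = E := by
    refine tendsto_nhds_unique ((hFlim.mul tendsto_const_nhds).congr' ?_) hid
    exact hev.mono fun X hX => h2 X hX
  have e3 : D = E * Y := by
    refine tendsto_nhds_unique (tendsto_const_nhds (f := (v : Filter (Matrix ι ι ℝ)))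
      (x := D)) ((hid.mul hYlim).congr' ?_)
    exact hev.mono fun X hX => (h3 X hX).symm
  have e4 : D = Y' * E := by
    refine tendsto_nhds_unique (tendsto_const_nhds (f := (v : Filter (Matrix ι ι ℝ)))
      (x := D)) ((hYlim'.mul hid).congr' ?_)
    exact hev.mono fun X hX => (h4 X hX).symm
  refine ⟨E, F, ⟨hKsub hEK, hEE⟩, hF, e1, e2, ?_, ?_⟩
  · nth_rewrite 1 [e3]
    rw [← Matrix.mul_assoc, hEE, ← e3]
  · nth_rewrite 1 [e4]
    rw [Matrix.mul_assoc, hEE, ← e4]

end Pool.Agent.H450R3.Fg
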