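import Mathlib
import Pool.Agent.H450R3.FgStr

set_option autoImplicit false
open scoped BigOperators
open Matrix Filter Topology

namespace Pool.Agent.H450R3.Fg

variable {ι : Type} [Fintype ι] [DecidableEq ι]

lemma dist_low {E A F : Matrix ι ι ℝ} (hE : Avg E)
    (hF : F ∈ doublyStochastic ℝ ι) (hAF : A * F = E) (hFA : F * A = E) (i : ℕ) {b b' : ι}
    (h : ¬ 0 < E b b') :
    2 / (Fintype.card ι : ℝ) ≤ ∑ c, ((A ^ i * E) b c - (A ^ i * E) b' c) ^ 2 := by
  have hEA : E * A = A * E := by rw [← hAF, Matrix.mul_assoc, hFA, hAF]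
  have hcl : ∀ i : ℕ, A ^ i * E * F ^ i = E := by
    intro i
    induction i with
    | zero => simp
    | succ i ih =>
      have h1 : A * E * F = E := by
        rw [← hEA, Matrix.mul_assoc, hAF, hE.idem]
      calc A ^ (i + 1) * E * F ^ (i + 1) = A ^ i * (A * E * F) * F ^ i := by
            rw [pow_succ, pow_succ']
            simp only [Matrix.mul_assoc]
        _ = E := by rw [h1, ih]
  have h1 := sq_contr (transpose_mem_doublyStochastic_iff.2 (pow_ds hF i))
    (fun c => (A ^ i * E) b c - (A ^ i * E) b' c)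
  have h2 : ∀ d, ∑ c, (F ^ i)ᵀ d c * ((A ^ i * E) b c - (A ^ i * E) b' c) = E b d - E b' d := by
    intro d
    have h3 := congrFun (congrFun (hcl i) b) d
    have h4 := congrFun (congrFun (hcl i) b') d
    rw [Matrix.mul_apply] at h3 h4
    rw [← h3, ← h4, ← Finset.sum_sub_distrib]
    apply Finset.sum_congr rfl; intro c _
    rw [Matrix.transpose_apply]; ring
  simp only [h2] at h1
  refine le_trans ?_ h1
  have hid : ∀ x y, ∑ d, E x d * E y d = E x y := by
    intro x y
    have := congrFun (congrFun hE.idem x) y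
    rw [Matrix.mul_apply] at this
    rw [← this]
    apply Finset.sum_congr rfl; intro d _
    rw [hE.symm d y]
  have h3 : ∑ d, (E b d - E b' d) ^ 2 = E b b + E b' b' - 2 * E b b' := by
    have h4 : ∀ d, (E b d - E b' d) ^ 2 = E b d * E b d + E b' d * E b' d - 2 * (E b d * E b' d) := by
      intro d; ring
    simp only [h4, Finset.sum_sub_distrib, Finset.sum_add_distrib, ← Finset.mul_sum, hid]
  rw [h3]
  have h5 : E b b' = 0 := le_antisymm (not_lt.1 h) (hE.nn _ _)
  have h6 := hE.ge (hE.diag_pos b)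
  have h7 := hE.ge (hE.diag_pos b')
  rw [h5]
  have h8 : 2 / (Fintype.card ι : ℝ) = 1 / (Fintype.card ι : ℝ) + 1 / (Fintype.card ι : ℝ) := by ring
  linarith

lemma dA_le {A B : Matrix ι ι ℝ} (hA : A ∈ doublyStochastic ℝ ι)
    (hB : B ∈ doublyStochastic ℝ ι) : dA A B ≤ nn (B - A) := by
  unfold dA nn
  apply Finset.sum_le_sum; intro a _
  apply Finset.sum_le_sum; intro b _
  split_ifs with h
  · exact abs_nonneg _
  · have h1 : A a b = 0 := le_antisymm (not_lt.1 h) (nonneg_of_mem_doublyStochastic hA)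
    rw [Matrix.sub_apply, h1, sub_zero]
    exact le_abs_self _

lemma dl_eq {E A B : Matrix ι ι ℝ} (s : Equiv.Perm ι) (hs : ∀ a b, A (s a) b = E a b) :
    dl E (B.submatrix s id) = dA A B := by
  classical
  unfold dl dA
  rw [← Equiv.sum_comp s (fun a => ∑ b, if 0 < A a b then 0 else B a b)]
  apply Finset.sum_congr rfl; intro a _
  apply Finset.sum_congr rfl; intro b _
  simp only [hs, Matrix.submatrix_apply, id]

lemma nn_sq_le {E A B : Matrix ι ι ℝ} (hE : Avg E) (hB : B ∈ doublyStochastic ℝ ι)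
    (s : Equiv.Perm ι) (hs : ∀ a b, A (s a) b = E a b) :
    nn (B - A) ^ 2 ≤ 2 * (Fintype.card ι : ℝ) ^ 2 * ph E (B.submatrix s id) + 2 * dA A B ^ 2 := by
  classical
  have h1 : nn (B - A) = ∑ a, ∑ i, |Fm E (B.submatrix s id) a i| + dA A B := by
    rw [← dl_eq (B := B) s hs]
    unfold nn dl
    rw [← Equiv.sum_comp s, ← Finset.sum_add_distrib]
    apply Finset.sum_congr rfl; intro a _
    rw [← Finset.sum_add_distrib]
    apply Finset.sum_congr rfl; intro i _
    rw [Matrix.sub_apply, hs]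
    unfold Fm
    by_cases h : 0 < E a i
    · rw [if_pos h, if_pos h, add_zero]; rfl
    · have h2 : E a i = 0 := le_antisymm (not_lt.1 h) (hE.nn _ _)
      rw [if_neg h, if_neg h, h2, abs_zero, zero_add, sub_zero,
        abs_of_nonneg (nonneg_of_mem_doublyStochastic hB)]
      rfl
  set S := ∑ a, ∑ i, |Fm E (B.submatrix s id) a i| with hS
  have h2 : S ^ 2 ≤ (Fintype.card ι : ℝ) ^ 2 * ph E (B.submatrix s id) := by
    have h3 := sq_sum_le_card_mul_sum_sq (s := Finset.univ)
      (f := fun a => ∑ i, |Fm E (B.submatrix s id) a i|)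
    rw [Finset.card_univ] at h3
    have h4 : ∀ a, (∑ i, |Fm E (B.submatrix s id) a i|) ^ 2 ≤
        (Fintype.card ι : ℝ) * ∑ i, Fm E (B.submatrix s id) a i ^ 2 := by
      intro a
      have h5 := sq_sum_le_card_mul_sum_sq (s := Finset.univ)
        (f := fun i => |Fm E (B.submatrix s id) a i|)
      simp only [sq_abs, Finset.card_univ] at h5
      exact h5
    calc S ^ 2 ≤ (Fintype.card ι : ℝ) * ∑ a, (∑ i, |Fm E (B.submatrix s id) a i|) ^ 2 := h3
      _ ≤ (Fintype.card ι : ℝ) * ∑ a, (Fintype.card ι : ℝ) * ∑ i, Fm E (B.submatrix s id) a i ^ 2 := by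
          apply mul_le_mul_of_nonneg_left _ (by positivity)
          exact Finset.sum_le_sum fun a _ => h4 a
      _ = _ := by
          rw [← Finset.mul_sum]; unfold ph; ring
  rw [h1]
  nlinarith [sq_nonneg (S - dA A B)]

lemma cont_nn (A : Matrix ι ι ℝ) : Continuous (fun B : Matrix ι ι ℝ => nn (B - A)) := by
  unfold nn
  exact continuous_finsetSum _ fun a _ => continuous_finsetSum _ fun b _ =>
    ((continuous_id.sub continuous_const).matrix_elem a b).abs

/-- the local inequality -/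
theorem local_ineq [Nonempty ι] {E A F : Matrix ι ι ℝ} (hE : Avg E)
    (hA : A ∈ doublyStochastic ℝ ι)
    (hF : F ∈ doublyStochastic ℝ ι) (hAF : A * F = E) (hFA : F * A = E)
    (hper : A.permanent ≤ E.permanent) :
    ∃ k₀ : ℕ, 2 ≤ k₀ ∧ ∀ᶠ B in 𝓝 A, B ∈ doublyStochastic ℝ ι → ∀ k, k₀ ≤ k →
      (B ^ k).permanent ≤ B.permanent := by
  obtain ⟨s, hs⟩ := struct hE hA hF hFA hper
  obtain ⟨s', hs'⟩ := struct hE.transpose (transpose_mem_doublyStochastic_iff.2 hA)
    (transpose_mem_doublyStochastic_iff.2 hF) (by rw [← Matrix.transpose_mul, hAF])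
    (by rw [Matrix.permanent_transpose, Matrix.permanent_transpose]; exact hper)
  have hEA0 : E * A = A * E := by rw [← hAF, Matrix.mul_assoc, hFA, hAF]
  have hAE : A * E = A := by
    ext a b
    obtain ⟨a', rfl⟩ := s.surjective a
    rw [Matrix.mul_apply, hs]
    simp only [hs]
    have := congrFun (congrFun hE.idem a') b
    rwa [Matrix.mul_apply] at this
  have hEA : E * A = A := by rw [hEA0, hAE]
  set n : ℕ := Fintype.card ι with hn
  have hn1 : (1 : ℝ) ≤ n := by
    rw [hn]; exact_mod_cast Fintype.card_pos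
  have hn0 : (0 : ℝ) < n := by linarith
  set p : ℝ := E.permanent with hp
  have hp0 : 0 < p := per_E_pos hE
  set C : ℝ := (n.factorial : ℝ) * 4 ^ n with hC
  have hC0 : 0 < C := by positivity
  refine ⟨16 * n ^ 5 + 2, by omega, ?_⟩
  -- small neighbourhoods
  have hsmall : ∀ c : ℝ, 0 < c → ∀ᶠ B in 𝓝 A, nn (B - A) < c := by
    intro c hc
    have h1 : nn (A - A) = 0 := by rw [sub_self]; simp [nn]
    have h2 := (cont_nn A).tendsto A
    rw [h1] at h2
    exact h2.eventually (gt_mem_nhds hc)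
  have hc2 : ∀ᶠ B in 𝓝 A, ∀ i ∈ Finset.range (16 * n ^ 5 + 2), ∀ b b', ¬ 0 < E b b' →
      1 / (n : ℝ) ≤ ∑ c, ((B ^ i * E) b c - (B ^ i * E) b' c) ^ 2 := by
    rw [Filter.eventually_all_finset]
    intro i _
    rw [Filter.eventually_all]
    intro b
    rw [Filter.eventually_all]
    intro b'
    by_cases h : 0 < E b b'
    · exact Eventually.of_forall fun B h' => absurd h h'
    have hcont : Continuous (fun B : Matrix ι ι ℝ =>
        ∑ c, ((B ^ i * E) b c - (B ^ i * E) b' c) ^ 2) := by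
      apply continuous_finsetSum
      intro c _
      have h1 : Continuous (fun B : Matrix ι ι ℝ => B ^ i * E) :=
        (continuous_pow i).mul continuous_const
      exact ((h1.matrix_elem b c).sub (h1.matrix_elem b' c)).pow 2
    have h1 := dist_low hE hF hAF hFA i h
    have h2 : 1 / (n : ℝ) < ∑ c, ((A ^ i * E) b c - (A ^ i * E) b' c) ^ 2 := by
      refine lt_of_lt_of_le ?_ h1
      apply div_lt_div_of_pos_right (by norm_num) hn0
    filter_upwards [(hcont.tendsto A).eventually (lt_mem_nhds h2)] with B hB _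
    exact hB.le
  filter_upwards [hsmall (1 / (4 * 3 ^ n * (n : ℝ) ^ 4)) (by positivity),
    hsmall (1 / (2 * n)) (by positivity), hsmall (1 / 12) (by norm_num),
    hsmall (p / (96 * C)) (by positivity), hsmall (p / (384 * C * (n : ℝ) ^ 2)) (by positivity),
    hc2] with B hx1 hx2 hx3 hx4 hx5 hc2B hB k hk
  set x := nn (B - A) with hx
  have hx0 : 0 ≤ x := nn_nonneg _
  have hentry : ∀ a b, |B a b - A a b| ≤ x := by
    intro a b
    have h1 : |(B - A) a b| ≤ ∑ b, |(B - A) a b| :=
      Finset.single_le_sum (f := fun b => |(B - A) a b|) (fun _ _ => abs_nonneg _)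
        (Finset.mem_univ b)
    have h2 : ∑ b, |(B - A) a b| ≤ x :=
      Finset.single_le_sum (f := fun a => ∑ b, |(B - A) a b|)
        (fun _ _ => Finset.sum_nonneg fun _ _ => abs_nonneg _) (Finset.mem_univ a)
    exact h1.trans h2
  set δ := dA A B with hδ
  have hδ0 : 0 ≤ δ := dA_nonneg A hB
  have hδx : δ ≤ x := dA_le hA hB
  set φ := ph E (B.submatrix s id) with hφ
  have hφ0 : 0 ≤ φ := ph_nonneg _ _
  have hxsq : x ^ 2 ≤ 2 * (n : ℝ) ^ 2 * φ + 2 * δ ^ 2 := nn_sq_le hE hB s hs
  have hx1' : x ≤ 1 / 12 := hx3.le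
  -- lower bound
  have hBs : B.submatrix s id ∈ doublyStochastic ℝ ι := by
    rw [mem_doublyStochastic_iff_sum]
    refine ⟨fun i j => nonneg_of_mem_doublyStochastic hB, fun i => ?_, fun j => ?_⟩
    · simp only [Matrix.submatrix_apply, id]
      exact sum_row_of_mem_doublyStochastic hB _
    · simp only [Matrix.submatrix_apply, id]
      rw [Equiv.sum_comp s (fun i => B i j)]
      exact sum_col_of_mem_doublyStochastic hB j
  have hlow := per_low hE hBs x hx0 (by
      rw [← hn]
      have h1 : (0 : ℝ) < 4 * 3 ^ n * (n : ℝ) ^ 4 := by positivity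
      rw [lt_div_iff₀ h1] at hx1
      linarith) (by
      intro a b _
      have := hentry (s a) b
      rw [hs] at this
      exact this)
  rw [dl_eq (B := B) s hs] at hlow
  have hperB : (B.submatrix s id).permanent = B.permanent := Matrix.permanent_permute_cols s B
  rw [hperB] at hlow
  -- leakage
  have hc1 : ∀ a b, 0 < A a b → 1 / (2 * (Fintype.card ι : ℝ)) ≤ B a b := by
    intro a b hab
    obtain ⟨a', rfl⟩ := s.surjective a
    have h1 : 1 / (n : ℝ) ≤ A (s a') b := by
      rw [hs] at hab ⊢; exact hE.ge hab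
    have h2 := (abs_le.1 (hentry (s a') b)).1
    have h3 : 1 / (n : ℝ) = 1 / (2 * n) + 1 / (2 * n) := by field_simp; ring
    rw [← hn]
    linarith
  have hleak := leak hB hA hE s hs (16 * n ^ 5 + 2) hc1
    (fun i hi => hc2B i (Finset.mem_range.2 hi)) k hk
  set X := E * B ^ k * E with hX
  have hXds : X ∈ doublyStochastic ℝ ι := mul_mem (mul_mem hE.ds (pow_ds hB k)) hE.ds
  have hEX : E * X = X := by
    rw [hX, ← Matrix.mul_assoc, ← Matrix.mul_assoc, hE.idem]
  have hXE : X * E = X := by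
    rw [hX, Matrix.mul_assoc, hE.idem]
  have hup := per_up hE hXds hEX
  rw [← hn, ← hp] at hup
  have hfr : 4 * (n : ℝ) ^ 3 * δ ≤ fr E - fr X := by
    have h1 : 4 * (n : ℝ) ^ 3 * δ ≤ ((16 * n ^ 5 + 2 : ℕ) : ℝ) * (δ / (4 * (n : ℝ) ^ 2)) := by
      push_cast
      have h2 : 4 * (n : ℝ) ^ 3 * δ = (16 * (n : ℝ) ^ 5) * (δ / (4 * (n : ℝ) ^ 2)) := by
        field_simp; ring
      rw [h2]
      apply mul_le_mul_of_nonneg_right _ (by positivity)
      linarith
    rw [← hn, ← hδ] at hleak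
    linarith
  have hup2 : X.permanent ≤ p * (1 - 4 * δ) := by
    refine hup.trans (mul_le_mul_of_nonneg_left ?_ hp0.le)
    have h1 : 4 * δ ≤ (fr E - fr X) / (n : ℝ) ^ 3 := by
      rw [le_div_iff₀ (by positivity)]
      linarith
    linarith
  -- remainder
  set ρ := 8 * δ + 4 * x ^ 2 with hρ
  have hρ0 : 0 ≤ ρ := by positivity
  have hxx : x ^ 2 ≤ x := by nlinarith
  have hρx : ρ ≤ 12 * x := by rw [hρ]; linarith
  have hρ1 : ρ ≤ 1 := by linarith
  have hδδ : δ ^ 2 ≤ δ := by nlinarith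
  have hρ2 : ρ ≤ 16 * δ + 8 * (n : ℝ) ^ 2 * φ := by rw [hρ]; linarith
  have hRn : nn (B ^ k - X) ≤ ρ := by
    have := nn_R hE hA hB hEA hAE s s' hs hs' k (by omega)
    exact this
  have hRentry : ∀ a b, |(B ^ k - X) a b| ≤ ρ := by
    intro a b
    refine le_trans ?_ hRn
    have h1 : |(B ^ k - X) a b| ≤ ∑ b, |(B ^ k - X) a b| :=
      Finset.single_le_sum (f := fun b => |(B ^ k - X) a b|) (fun _ _ => abs_nonneg _)
        (Finset.mem_univ b)
    have h2 : ∑ b, |(B ^ k - X) a b| ≤ nn (B ^ k - X) :=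
      Finset.single_le_sum (f := fun a => ∑ b, |(B ^ k - X) a b|)
        (fun _ _ => Finset.sum_nonneg fun _ _ => abs_nonneg _) (Finset.mem_univ a)
    exact h1.trans h2
  have hERE : E * (B ^ k - X) * E = 0 := by
    rw [Matrix.mul_sub, Matrix.sub_mul, hEX, hXE, ← hX, sub_self]
  have hpert := per_pert hE hXds hEX hXE hERE ρ hρ0 hρ1 hRentry
  rw [add_sub_cancel, ← hn, ← hC] at hpert
  -- conclusion
  have hCρ : C * ρ ^ 2 ≤ p * (2 * δ + φ / 4) := by
    have h1 : C * ρ ^ 2 ≤ C * (12 * x) * (16 * δ + 8 * (n : ℝ) ^ 2 * φ) := by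
      have h2 : ρ ^ 2 ≤ (12 * x) * (16 * δ + 8 * (n : ℝ) ^ 2 * φ) := by
        rw [sq]
        exact mul_le_mul hρx hρ2 hρ0 (by positivity)
      calc C * ρ ^ 2 ≤ C * ((12 * x) * (16 * δ + 8 * (n : ℝ) ^ 2 * φ)) :=
            mul_le_mul_of_nonneg_left h2 hC0.le
        _ = _ := by ring
    have h3 : C * (12 * x) * 16 ≤ 2 * p := by
      rw [lt_div_iff₀ (by positivity)] at hx4
      linarith
    have h4 : C * (12 * x) * (8 * (n : ℝ) ^ 2) ≤ p / 4 := by
      rw [lt_div_iff₀ (by positivity)] at hx5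
      linarith
    have h5 := mul_le_mul_of_nonneg_right h3 hδ0
    have h6 := mul_le_mul_of_nonneg_right h4 hφ0
    linarith
  calc (B ^ k).permanent ≤ X.permanent + C * ρ ^ 2 := hpert
    _ ≤ p * (1 - 4 * δ) + p * (2 * δ + φ / 4) := add_le_add hup2 hCρ
    _ ≤ p * (1 - δ - δ ^ 2 + φ / 4) := by
        have := mul_le_mul_of_nonneg_left hδδ hp0.le
        linarith
    _ ≤ B.permanent := hlow

/-- Foregger's conjecture -/
theorem foregger [Nonempty ι] : ∃ k : ℕ, 2 ≤ k ∧
    ∀ A : Matrix ι ι ℝ, A ∈ doublyStochastic ℝ ι → (A ^ k).permanent ≤ A.permanent := by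
  by_contra hcon
  push Not at hcon
  have hch : ∀ k : ℕ, ∃ A : Matrix ι ι ℝ, A ∈ doublyStochastic ℝ ι ∧
      A.permanent < (A ^ (k + 2)).permanent := fun k => hcon (k + 2) (by omega)
  choose Bs hBs hlt using hch
  set u : Ultrafilter ℕ := Ultrafilter.of atTop with hu
  have hule : (u : Filter ℕ) ≤ atTop := Ultrafilter.of_le atTop
  obtain ⟨A, hA, hAlim⟩ := ulim u Bs (Eventually.of_forall hBs)
  obtain ⟨D, hD, hDlim⟩ := ulim u (fun k => Bs k ^ (k + 2))
    (Eventually.of_forall fun k => pow_ds (hBs k) _)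
  obtain ⟨E, F, hE, hF, hAF, hFA, hED, hDE⟩ := limit_struct u hule Bs hBs A hA hAlim D hDlim
  -- per A ≤ per D ≤ per E
  have h1 : A.permanent ≤ D.permanent := by
    have ha := (cont_per.tendsto A).comp hAlim
    have hd := (cont_per.tendsto D).comp hDlim
    exact le_of_tendsto_of_tendsto ha hd (Eventually.of_forall fun k => (hlt k).le)
  have h2 : D.permanent ≤ E.permanent := by
    have h3 := per_up hE hD hED
    have h4 : fr D ≤ fr E := by
      rw [← hDE]; exact fr_contr hD E
    have h5 : 0 < E.permanent := per_E_pos hE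
    have h6 : 0 ≤ (fr E - fr D) / (Fintype.card ι : ℝ) ^ 3 := by
      apply div_nonneg (by linarith) (by positivity)
    nlinarith
  obtain ⟨k₀, _, hloc⟩ := local_ineq hE hA hF hAF hFA (h1.trans h2)
  have h3 : ∀ᶠ k in (u : Filter ℕ), False := by
    filter_upwards [hAlim.eventually hloc, hule (eventually_ge_atTop k₀)] with k h4 h5
    exact absurd (h4 (hBs k) (k + 2) (by omega)) (not_le.2 (hlt k))
  exact u.neBot.ne (Filter.eventually_false_iff_eq_bot.1 h3)

end Pool.Agent.H450R3.Fg
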